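import Pool.Agent.Helper46.QR.ErgR

/-! Block QA-MIX: mixing relative to the rotation from the decay of correlations on a dense set, for a fixed
`ω`. -/

set_option autoImplicit false
open MeasureTheory Real Set Filter Topology

namespace Pool.Agent.Helper46.QA

open Pool.Agent.Helper46.QP Pool.Agent.Helper46.QR

variable {d : ℕ} {D : Dat d}

private theorem wrM_h4 : (volume : Measure (Td d × TT)).WeaklyRegular :=
  Measure.WeaklyRegular.of_pseudoMetrizableSpace_of_isFiniteMeasure _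

private theorem ciM_h4 (g : C(Td d × TT, ℝ)) : Integrable (fun p => g p) (volume : Measure (Td d × TT)) :=
  g.continuous.integrable_of_hasCompactSupport (HasCompactSupport.of_compactSpace _)

/-- density in `L¹` -/
private theorem dens1M_h4 {S : Set C(Td d × TT, ℝ)} (hS : Dense S) {f : Td d × TT → ℝ}
    (hf : Integrable f (volume : Measure (Td d × TT))) {ε : ℝ} (hε : 0 < ε) :
    ∃ g ∈ S, ∫ p, |f p - g p| ≤ ε := by
  have : (volume : Measure (Td d × TT)).WeaklyRegular := wrM_h4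
  obtain ⟨g0, hg0, hg0i⟩ := hf.exists_boundedContinuous_integral_sub_le (half_pos hε)
  obtain ⟨g, hgS, hg⟩ := hS.exists_dist_lt g0.toContinuousMap (half_pos hε)
  refine ⟨g, hgS, ?_⟩
  have hgi := ciM_h4 g
  have hp : ∀ p, |f p - g p| ≤ ‖f p - g0 p‖ + ε / 2 := by
    intro p
    have h1 : |g0 p - g p| ≤ ε / 2 := by
      have h2 := (ContinuousMap.dist_lt_iff (half_pos hε)).1 hg p
      rw [Real.dist_eq] at h2
      exact h2.le
    have h3 := abs_add_le (f p - g0 p) (g0 p - g p)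
    rw [sub_add_sub_cancel] at h3
    rw [Real.norm_eq_abs]
    linarith
  have hni : Integrable (fun p => ‖f p - g0 p‖) (volume : Measure (Td d × TT)) := (hf.sub hg0i).norm
  calc ∫ p, |f p - g p| ≤ ∫ p, (‖f p - g0 p‖ + ε / 2) :=
        integral_mono (hf.sub hgi).abs (hni.add (integrable_const _)) hp
    _ = (∫ p, ‖f p - g0 p‖) + ε / 2 := by
        rw [integral_add hni (integrable_const _)]
        simp
    _ ≤ ε := by linarith

/-- density in `L²` -/
private theorem dens2M_h4 {S : Set C(Td d × TT, ℝ)} (hS : Dense S) {f : Td d × TT → ℝ}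
    (hf : MemLp f 2 (volume : Measure (Td d × TT))) {η : ℝ} (hη : 0 < η) :
    ∃ g ∈ S, ∫ p, (f p - g p) ^ 2 ≤ η := by
  have : (volume : Measure (Td d × TT)).WeaklyRegular := wrM_h4
  have hf' : MemLp f (ENNReal.ofReal 2) (volume : Measure (Td d × TT)) := by
    rw [ENNReal.ofReal_ofNat]; exact hf
  obtain ⟨g0, hg0, hg0i⟩ := hf'.exists_boundedContinuous_integral_rpow_sub_le (p := 2) two_pos
    (ε := η / 4) (by positivity)
  rw [ENNReal.ofReal_ofNat] at hg0i
  have hδ : 0 < √(η / 4) := Real.sqrt_pos.2 (by positivity)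
  obtain ⟨g, hgS, hg⟩ := hS.exists_dist_lt g0.toContinuousMap hδ
  refine ⟨g, hgS, ?_⟩
  have hgm : MemLp (fun p => g p) 2 (volume : Measure (Td d × TT)) :=
    MemLp.of_bound g.continuous.aestronglyMeasurable ‖g‖
      (Filter.Eventually.of_forall fun p => g.norm_coe_le_norm p)
  have hp : ∀ p, (f p - g p) ^ 2 ≤ 2 * ‖f p - g0 p‖ ^ (2 : ℝ) + η / 2 := by
    intro p
    have h1 : |g0 p - g p| ≤ √(η / 4) := by
      have h2 := (ContinuousMap.dist_lt_iff hδ).1 hg p
      rw [Real.dist_eq] at h2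
      exact h2.le
    have h2 : (g0 p - g p) ^ 2 ≤ η / 4 := by
      rw [← sq_abs]
      calc |g0 p - g p| ^ 2 ≤ √(η / 4) ^ 2 := by gcongr
        _ = η / 4 := Real.sq_sqrt (by positivity)
    have h3 : ‖f p - g0 p‖ ^ (2 : ℝ) = (f p - g0 p) ^ 2 := by
      rw [Real.rpow_two, Real.norm_eq_abs, sq_abs]
    rw [h3]
    nlinarith [sq_nonneg ((f p - g0 p) - (g0 p - g p))]
  have i1 : Integrable (fun p => ‖f p - g0 p‖ ^ (2 : ℝ)) (volume : Measure (Td d × TT)) := by
    have h1 := (hf.sub hg0i).integrable_sq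
    refine h1.congr (Filter.Eventually.of_forall fun p => ?_)
    show (f p - g0 p) ^ 2 = ‖f p - g0 p‖ ^ (2 : ℝ)
    rw [Real.rpow_two, Real.norm_eq_abs, sq_abs]
  have i2 : Integrable (fun p => (f p - g p) ^ 2) (volume : Measure (Td d × TT)) :=
    (hf.sub hgm).integrable_sq
  calc ∫ p, (f p - g p) ^ 2 ≤ ∫ p, (2 * ‖f p - g0 p‖ ^ (2 : ℝ) + η / 2) :=
        integral_mono i2 ((i1.const_mul 2).add (integrable_const _)) hp
    _ = 2 * (∫ p, ‖f p - g0 p‖ ^ (2 : ℝ)) + η / 2 := by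
        rw [integral_add (i1.const_mul 2) (integrable_const _), integral_const_mul]
        simp
    _ ≤ η := by linarith

/-- Cauchy - Schwarz with a parameter -/
private theorem csM_h4 {T : Td d × TT → Td d × TT} (hT : MeasurePreserving T volume volume)
    {a b : Td d × TT → ℝ} (ha : MemLp a 2 (volume : Measure (Td d × TT)))
    (hb : MemLp b 2 (volume : Measure (Td d × TT))) {t : ℝ} (ht : 0 < t) :
    Integrable (fun p => a (T p) * b p) (volume : Measure (Td d × TT)) ∧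
      |∫ p, a (T p) * b p| ≤ t / 2 * (∫ p, a p ^ 2) + 1 / (2 * t) * ∫ p, b p ^ 2 := by
  have haT : MemLp (fun p => a (T p)) 2 (volume : Measure (Td d × TT)) :=
    ha.comp_measurePreserving hT
  have i0 : Integrable (fun p => a (T p) * b p) (volume : Measure (Td d × TT)) :=
    haT.integrable_mul hb
  refine ⟨i0, ?_⟩
  have i1 := haT.integrable_sq
  have i2 := hb.integrable_sq
  have e1 : ∫ p, a (T p) ^ 2 = ∫ p, a p ^ 2 := by
    have h1 : ∫ q, a q ^ 2 ∂(Measure.map T volume) = ∫ p, a (T p) ^ 2 :=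
      integral_map hT.measurable.aemeasurable (by
        rw [hT.map_eq]
        exact ha.aestronglyMeasurable.pow 2)
    rw [hT.map_eq] at h1
    exact h1.symm
  calc |∫ p, a (T p) * b p| ≤ ∫ p, |a (T p) * b p| := abs_integral_le_integral_abs
    _ ≤ ∫ p, (t / 2 * a (T p) ^ 2 + 1 / (2 * t) * b p ^ 2) := by
        refine integral_mono i0.abs ((i1.const_mul _).add (i2.const_mul _)) fun p => ?_
        show |a (T p) * b p| ≤ t / 2 * a (T p) ^ 2 + 1 / (2 * t) * b p ^ 2
        rw [abs_mul]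
        have h1 : 0 ≤ (t * |a (T p)| - |b p|) ^ 2 / (2 * t) := by positivity
        have h2 : (t * |a (T p)| - |b p|) ^ 2 / (2 * t) =
            t / 2 * |a (T p)| ^ 2 + 1 / (2 * t) * |b p| ^ 2 - |a (T p)| * |b p| := by
          field_simp
          ring
        rw [h2, sq_abs, sq_abs] at h1
        linarith
    _ = t / 2 * (∫ p, a p ^ 2) + 1 / (2 * t) * ∫ p, b p ^ 2 := by
        rw [integral_add (i1.const_mul _) (i2.const_mul _), integral_const_mul, integral_const_mul, e1]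

/-- the mean of a function whose fibre integrals vanish is close to the one of an approximation -/
private theorem avM_h4 {ψ : Td d × TT → ℝ} (hψ : Integrable ψ (volume : Measure (Td d × TT)))
    (h0 : ∀ᵐ θ : Td d, ∫ z, ψ (θ, z) = 0) (g : C(Td d × TT, ℝ)) :
    Integrable (fun p : Td d × TT => ψ p - (g p - ∫ z, g (p.1, z))) (volume : Measure (Td d × TT)) ∧
    ∫ p : Td d × TT, |ψ p - (g p - ∫ z, g (p.1, z))| ≤ 2 * ∫ p, |ψ p - g p| := by
  have hgi := ciM_h4 g
  have hmeas : StronglyMeasurable fun θ : Td d => ∫ z, g (θ, z) :=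
    g.continuous.stronglyMeasurable.integral_prod_right'
  have hbd : ∀ θ : Td d, |∫ z, g (θ, z)| ≤ ‖g‖ := fun θ => by
    rw [← Real.norm_eq_abs]
    refine (norm_integral_le_of_norm_le_const (C := ‖g‖)
      (Filter.Eventually.of_forall fun z => g.norm_coe_le_norm (θ, z))).trans ?_
    simp
  have i1 : Integrable (fun p : Td d × TT => ∫ z, g (p.1, z)) (volume : Measure (Td d × TT)) := by
    refine Integrable.mono' (integrable_const ‖g‖)
      (hmeas.comp_measurable measurable_fst).aestronglyMeasurable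
      (Filter.Eventually.of_forall fun p => ?_)
    exact hbd p.1
  have i2 : Integrable (fun p : Td d × TT => ψ p - (g p - ∫ z, g (p.1, z)))
      (volume : Measure (Td d × TT)) := hψ.sub (hgi.sub i1)
  refine ⟨i2, ?_⟩
  have i3 : Integrable (fun p => |ψ p - g p|) (volume : Measure (Td d × TT)) := (hψ.sub hgi).abs
  have h1 : ∫ p : Td d × TT, |∫ z, g (p.1, z)| ≤ ∫ p, |ψ p - g p| := by
    have i4 : Integrable (fun p : Td d × TT => |∫ z, g (p.1, z)|) (volume : Measure (Td d × TT)) := i1.abs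
    have hv : (volume : Measure (Td d × TT)) = (volume : Measure (Td d)).prod (volume : Measure TT) := rfl
    have hψ' := hψ
    rw [hv] at i4 i3 hψ' ⊢
    rw [integral_prod _ i4, integral_prod _ i3]
    refine integral_mono_ae i4.integral_prod_left i3.integral_prod_left ?_
    filter_upwards [h0, hψ'.prod_right_ae] with θ hθ hθi
    show ∫ _ : TT, |∫ z, g (θ, z)| ≤ ∫ z, |ψ (θ, z) - g (θ, z)|
    have hgz : Integrable (fun z => g (θ, z)) (volume : Measure TT) :=
      (g.continuous.comp (Continuous.prodMk_right θ)).integrable_of_hasCompactSupport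
        (HasCompactSupport.of_compactSpace _)
    have e1 : ∫ z, g (θ, z) = -∫ z, (ψ (θ, z) - g (θ, z)) := by
      rw [integral_sub hθi hgz, hθ]
      ring
    have e2 : ∫ _ : TT, |∫ z, g (θ, z)| = |∫ z, g (θ, z)| := by simp
    rw [e2, e1, abs_neg]
    exact abs_integral_le_integral_abs
  have i5 : Integrable (fun p : Td d × TT => |∫ z, g (p.1, z)|) (volume : Measure (Td d × TT)) := i1.abs
  calc ∫ p : Td d × TT, |ψ p - (g p - ∫ z, g (p.1, z))|
      ≤ ∫ p : Td d × TT, (|ψ p - g p| + |∫ z, g (p.1, z)|) := by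
        refine integral_mono i2.abs (i3.add i5) fun p => ?_
        show |ψ p - (g p - ∫ z, g (p.1, z))| ≤ |ψ p - g p| + |∫ z, g (p.1, z)|
        have : ψ p - (g p - ∫ z, g (p.1, z)) = (ψ p - g p) + ∫ z, g (p.1, z) := by ring
        rw [this]
        exact abs_add_le _ _
    _ = (∫ p, |ψ p - g p|) + ∫ p : Td d × TT, |∫ z, g (p.1, z)| := integral_add i3 i5
    _ ≤ 2 * ∫ p, |ψ p - g p| := by linarith

/-- mixing relative to the rotation -/
theorem det_mix (hD : D.Ok) (ω : Om d) {S : Set C(Td d × TT, ℝ)} (hS : Dense S)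
    (hcor : ∀ g ∈ S, ∀ g' ∈ S, Tendsto (fun n : ℕ => ∫ p, g ((Fr D ω)^[n] p) * (g' p - ∫ z, g' (p.1, z)))
      atTop (𝓝 0))
    {φ ψ : Td d × TT → ℝ} (hφ : MemLp φ 2 volume) (hψ : MemLp ψ 2 volume)
    (h0 : ∀ᵐ θ : Td d, ∫ z, ψ (θ, z) = 0) :
    Tendsto (fun n : ℕ => ∫ p, φ ((Fr D ω)^[n] p) * ψ p) atTop (𝓝 0) := by
  rw [Metric.tendsto_atTop]
  intro ε hε
  obtain ⟨B, hB⟩ : ∃ B, B = ∫ p, ψ p ^ 2 := ⟨_, rfl⟩
  have hB0 : 0 ≤ B := by rw [hB]; exact integral_nonneg fun p => sq_nonneg _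
  obtain ⟨t, ht⟩ : ∃ t, t = 4 * (B + 1) / ε := ⟨_, rfl⟩
  have ht0 : 0 < t := by rw [ht]; positivity
  obtain ⟨g, hgS, hg⟩ := dens2M_h4 hS hφ (η := ε / (4 * t)) (by positivity)
  have hψi : Integrable ψ (volume : Measure (Td d × TT)) := hψ.integrable (by norm_num)
  obtain ⟨g', hg'S, hg'⟩ := dens1M_h4 hS hψi (ε := ε / (16 * (‖g‖ + 1))) (by positivity)
  obtain ⟨N, hN⟩ := Metric.tendsto_atTop.1 (hcor g hgS g' hg'S) (ε / 4) (by positivity)
  refine ⟨N, fun n hn => ?_⟩
  have hT : MeasurePreserving ((Fr D ω)^[n]) volume volume := (Fr_mp hD ω).iterate n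
  have hgm : MemLp (fun p => g p) 2 (volume : Measure (Td d × TT)) :=
    MemLp.of_bound g.continuous.aestronglyMeasurable ‖g‖
      (Filter.Eventually.of_forall fun p => g.norm_coe_le_norm p)
  obtain ⟨i1, e1⟩ := csM_h4 hT (hφ.sub hgm) hψ ht0
  obtain ⟨i2, e2⟩ := avM_h4 hψi h0 g'
  have hgT : AEStronglyMeasurable (fun p => g ((Fr D ω)^[n] p)) (volume : Measure (Td d × TT)) :=
    (g.continuous.measurable.comp hT.measurable).aestronglyMeasurable
  have i3 : Integrable (fun p => g ((Fr D ω)^[n] p) * (ψ p - (g' p - ∫ z, g' (p.1, z))))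
      (volume : Measure (Td d × TT)) :=
    i2.bdd_mul (c := ‖g‖) hgT (Filter.Eventually.of_forall fun p => g.norm_coe_le_norm _)
  have i4 : Integrable (fun p => g ((Fr D ω)^[n] p) * (g' p - ∫ z, g' (p.1, z)))
      (volume : Measure (Td d × TT)) := by
    have h1 : Integrable (fun p : Td d × TT => (g' p - ∫ z, g' (p.1, z))) (volume : Measure (Td d × TT)) := by
      refine (hψi.sub i2).congr (Filter.Eventually.of_forall fun p => ?_)
      show ψ p - (ψ p - (g' p - ∫ z, g' (p.1, z))) = _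
      ring
    exact h1.bdd_mul (c := ‖g‖) hgT (Filter.Eventually.of_forall fun p => g.norm_coe_le_norm _)
  have e3 : ∫ p, φ ((Fr D ω)^[n] p) * ψ p =
      (∫ p, (φ ((Fr D ω)^[n] p) - g ((Fr D ω)^[n] p)) * ψ p) +
      (∫ p, g ((Fr D ω)^[n] p) * (ψ p - (g' p - ∫ z, g' (p.1, z)))) +
      ∫ p, g ((Fr D ω)^[n] p) * (g' p - ∫ z, g' (p.1, z)) := by
    have i1' : Integrable (fun p => (φ ((Fr D ω)^[n] p) - g ((Fr D ω)^[n] p)) * ψ p)
      (volume : Measure (Td d × TT)) := i1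
    have i13 : Integrable (fun p => (φ ((Fr D ω)^[n] p) - g ((Fr D ω)^[n] p)) * ψ p +
        g ((Fr D ω)^[n] p) * (ψ p - (g' p - ∫ z, g' (p.1, z)))) (volume : Measure (Td d × TT)) :=
      i1'.add i3
    rw [← integral_add i1' i3, ← integral_add i13 i4]
    refine integral_congr_ae (Filter.Eventually.of_forall fun p => ?_)
    show φ ((Fr D ω)^[n] p) * ψ p = (φ ((Fr D ω)^[n] p) - g ((Fr D ω)^[n] p)) * ψ p +
      g ((Fr D ω)^[n] p) * (ψ p - (g' p - ∫ z, g' (p.1, z))) +
      g ((Fr D ω)^[n] p) * (g' p - ∫ z, g' (p.1, z))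
    ring
  have b1 : |∫ p, (φ ((Fr D ω)^[n] p) - g ((Fr D ω)^[n] p)) * ψ p| ≤ ε / 4 := by
    have e1' : |∫ p, (φ ((Fr D ω)^[n] p) - g ((Fr D ω)^[n] p)) * ψ p| ≤
        t / 2 * (∫ p, (φ p - g p) ^ 2) + 1 / (2 * t) * ∫ p, ψ p ^ 2 := e1
    refine e1'.trans ?_
    rw [← hB]
    have h1 : t / 2 * (∫ p, (φ p - g p) ^ 2) ≤ ε / 8 := by
      calc t / 2 * (∫ p, (φ p - g p) ^ 2) ≤ t / 2 * (ε / (4 * t)) := by gcongr
        _ = ε / 8 := by field_simp; ring
    have h2 : 1 / (2 * t) * B ≤ ε / 8 := by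
      rw [ht]
      have h3 : 1 / (2 * (4 * (B + 1) / ε)) * B = ε / 8 * (B / (B + 1)) := by
        field_simp
        ring
      rw [h3]
      have h4 : B / (B + 1) ≤ 1 := by
        rw [div_le_one (by positivity)]
        linarith
      calc ε / 8 * (B / (B + 1)) ≤ ε / 8 * 1 := by gcongr
        _ = ε / 8 := by ring
    linarith
  have b2 : |∫ p, g ((Fr D ω)^[n] p) * (ψ p - (g' p - ∫ z, g' (p.1, z)))| ≤ ε / 4 := by
    calc |∫ p, g ((Fr D ω)^[n] p) * (ψ p - (g' p - ∫ z, g' (p.1, z)))|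
        ≤ ∫ p, |g ((Fr D ω)^[n] p) * (ψ p - (g' p - ∫ z, g' (p.1, z)))| := abs_integral_le_integral_abs
      _ ≤ ∫ p : Td d × TT, ‖g‖ * |ψ p - (g' p - ∫ z, g' (p.1, z))| := by
          refine integral_mono i3.abs (i2.abs.const_mul _) fun p => ?_
          show |g ((Fr D ω)^[n] p) * (ψ p - (g' p - ∫ z, g' (p.1, z)))| ≤ ‖g‖ * |ψ p - (g' p - ∫ z, g' (p.1, z))|
          rw [abs_mul]
          exact mul_le_mul_of_nonneg_right (g.norm_coe_le_norm _) (abs_nonneg _)
      _ = ‖g‖ * ∫ p : Td d × TT, |ψ p - (g' p - ∫ z, g' (p.1, z))| := integral_const_mul _ _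
      _ ≤ ‖g‖ * (2 * (ε / (16 * (‖g‖ + 1)))) := by
          refine mul_le_mul_of_nonneg_left (e2.trans ?_) (norm_nonneg _)
          linarith
      _ = ε / 8 * (‖g‖ / (‖g‖ + 1)) := by
          have : (0 : ℝ) < ‖g‖ + 1 := by positivity
          field_simp
          ring
      _ ≤ ε / 8 * 1 := by
          have h4 : ‖g‖ / (‖g‖ + 1) ≤ 1 := by
            rw [div_le_one (by positivity)]
            linarith
          gcongr
      _ ≤ ε / 4 := by linarith
  have b3 : |∫ p, g ((Fr D ω)^[n] p) * (g' p - ∫ z, g' (p.1, z))| < ε / 4 := by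
    have := hN n hn
    rwa [Real.dist_eq, sub_zero] at this
  rw [Real.dist_eq, sub_zero, e3]
  have h5 := abs_add_three (∫ p, (φ ((Fr D ω)^[n] p) - g ((Fr D ω)^[n] p)) * ψ p)
    (∫ p, g ((Fr D ω)^[n] p) * (ψ p - (g' p - ∫ z, g' (p.1, z))))
    (∫ p, g ((Fr D ω)^[n] p) * (g' p - ∫ z, g' (p.1, z)))
  linarith

end Pool.Agent.Helper46.QA
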