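import Pool.Agent.Helper46.QA.W

/-! Block QA-CONC: concentration of mean values over the base, for the law `wl l η` (independent noise of level `l`, the rest frozen).

* `pts`: greedy choice. If `M` points `β` with pairwise separated orbits are given and `M * 2n * (4/N)^d < 1`, the set of the points `β'` whose orbit is not separated from one of the orbits has measure less than one (`mut_meas` in `QP/Pairs.lean` or balls of radius `2/N`: `β'` lies in a ball with centre `β_k ± j α`, `0 ≤ j < n`), so there is one more. Separation depends on the differences only, so it holds for `θ + β_k` for every `θ`.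
* `conc_exp`: `∫ θ, φ ω θ = ∫ θ, (1/M) Σ_k φ ω (θ + β_k)` (invariance of the Haar measure), `exp (λ M ∫ ..) ≤ ∫ θ, exp (λ Σ_k φ ω (θ + β_k))` (Jensen `ConvexOn.map_integral_le`), Tonelli; for fixed `θ` the functions `ω ↦ φ ω (θ + β_k)` depend (for the law `wl l η`) on the coordinates `(l, c)`, `c ∈ dep D l n (θ + β_k)`; these sets are disjoint for different `k`
 (if `|tc l (c m) (x m)| < 1` and `|tc l (c m) (y m)| < 1` for all `m` then `dist x y < 2/N`), so the functions are independent and the mean of the product is the product of the means: induction on the number of factors (independence of functions of disjoint sets of coordinates of `Measure.infinitePi`: `ProbabilityTheory.iIndepFun_infinitePi`, `iIndepFun.indepFun_finset`; or resample the finitely many cells of one block).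
* `conc_small`: `exp x ≤ 1 + x + x²` for `|x| ≤ 1`, `λ = ε / (4 K₁²)`, Markov; both signs. -/

set_option autoImplicit false
open MeasureTheory Real Set
open scoped ENNReal

namespace Pool.Agent.Helper46.QA

open Pool.Agent.Helper18.FD (NN rr)
open Pool.Agent.Helper95.PV (rp tc cel mv)
open Pool.Agent.Helper46.QP Pool.Agent.Helper46.QR

variable {d : ℕ} {D : Dat d}

/-- the cells of level `l` which the orbit of length `n` of `θ` can see -/
def dep (D : Dat d) (l n : ℕ) (θ : Td d) : Set (Fin d → ℕ) :=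
  {c | ∃ j < n, ∀ m, |tc l (c m) ((θ + j • D.α) m)| < 1}

/-- the function depends on the noise of level `l` through these cells only -/
def Loc (D : Dat d) (l n : ℕ) (φ : Om d → Td d → ℝ) : Prop :=
  ∀ (θ : Td d) (ω ω' : Om d), (∀ i : Ix d, (i.1 = l → i.2 ∈ dep D l n θ) → ω i = ω' i) → φ ω θ = φ ω' θ

/-- the orbits of length `n` of the points `β k` are separated -/
def Sep (D : Dat d) (l n M : ℕ) (β : Fin M → Td d) : Prop :=
  ∀ k k', k ≠ k' → ∀ i < n, ∀ j < n, 2 / (NN l : ℝ) ≤ dist (β k + i • D.α) (β k' + j • D.α)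

/-! ### geometry -/

theorem dist_tc95 {l i : ℕ} {x y : UnitAddCircle} (hx : |tc l i x| < 1) (hy : |tc l i y| < 1) : dist x y < 2 / (NN l : ℝ) := by
  have hN : (0 : ℝ) < NN l := by exact_mod_cast Pool.Agent.Helper18.FD.NN_pos l
  rw [← Pool.Agent.Helper95.PV.coe_rp x, ← Pool.Agent.Helper95.PV.coe_rp y, Pool.Agent.Helper95.PV.dist_coe]
  unfold Pool.Agent.Helper95.PV.tc at hx hy
  rw [abs_mul, abs_of_pos hN, mul_comm, ← lt_div_iff₀ hN] at hx hy
  have h1 := Pool.Agent.Helper18.FD.abs_rr_add_le (rp x - i / NN l) (-(rp y - i / NN l))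
  have h2 : |rr (-(rp y - i / NN l))| ≤ |rr (rp y - i / NN l)| := by
    unfold Pool.Agent.Helper18.FD.rr
    have h3 := round_le (-(rp y - i / NN l)) (-round (rp y - i / NN l))
    refine h3.trans (le_of_eq ?_)
    rw [← abs_neg]
    congr 1
    push_cast
    ring
  have h3 : rp x - i / NN l + -(rp y - i / NN l) = rp x - rp y := by ring
  rw [h3] at h1
  have h4 : (2 : ℝ) / NN l = 1 / NN l + 1 / NN l := by ring
  rw [h4]
  linarith

theorem dep_disj95 {l n M : ℕ} {β : Fin M → Td d} (hβ : Sep D l n M β) (θ : Td d) {k k' : Fin M} (hk : k ≠ k') :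
    Disjoint (dep D l n (θ + β k)) (dep D l n (θ + β k')) := by
  rw [Set.disjoint_left]
  rintro c ⟨i, hi, h1⟩ ⟨j, hj, h2⟩
  have hN : (0 : ℝ) < NN l := by exact_mod_cast Pool.Agent.Helper18.FD.NN_pos l
  have h3 := hβ k k' hk i hi j hj
  have h4 : dist (β k + i • D.α) (β k' + j • D.α) = dist (θ + β k + i • D.α) (θ + β k' + j • D.α) := by
    rw [add_assoc, add_assoc, dist_add_left]
  rw [h4] at h3
  have h5 : dist (θ + β k + i • D.α) (θ + β k' + j • D.α) < 2 / (NN l : ℝ) :=
    (dist_pi_lt_iff (by positivity)).2 fun m => dist_tc95 (h1 m) (h2 m)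
  linarith

private theorem ball_le95 (x : Td d) {r : ℝ} (hr : 0 < r) :
    (volume : Measure (Td d)) (Metric.ball x r) ≤ ENNReal.ofReal ((2 * r) ^ d) := by
  rw [volume_pi_ball x hr]
  calc ∏ i, (volume : Measure UnitAddCircle) (Metric.ball (x i) r) ≤ ∏ _i : Fin d, ENNReal.ofReal (2 * r) := by
        refine Finset.prod_le_prod' fun i _ => ?_
        refine (measure_mono Metric.ball_subset_closedBall).trans ?_
        rw [AddCircle.volume_closedBall]
        exact ENNReal.ofReal_le_ofReal (min_le_right _ _)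
    _ = ENNReal.ofReal ((2 * r) ^ d) := by
        rw [Finset.prod_const, Finset.card_univ, Fintype.card_fin, ENNReal.ofReal_pow (by positivity)]

/-- one more point -/
theorem more95 {l n M : ℕ} {β : Fin M → Td d} (hβ : Sep D l n M β)
    (h : (M : ℝ) * (2 * n * 4 ^ d) < (NN l : ℝ) ^ d) : ∃ β' : Fin (M + 1) → Td d, Sep D l n (M + 1) β' := by
  have hN : (0 : ℝ) < NN l := by exact_mod_cast Pool.Agent.Helper18.FD.NN_pos l
  obtain ⟨r, hr⟩ : ∃ r : ℝ, r = 2 / (NN l : ℝ) := ⟨_, rfl⟩
  have hr0 : 0 < r := by rw [hr]; positivity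
  obtain ⟨Bad, hBad⟩ : ∃ Bad : Set (Td d), Bad = ⋃ k : Fin M, ⋃ j ∈ Finset.Ioo (-(n : ℤ)) n, Metric.ball (β k + j • D.α) r := ⟨_, rfl⟩
  have hvol : volume Bad < 1 := by
    have h1 : volume Bad ≤ ∑ k : Fin M, ∑ j ∈ Finset.Ioo (-(n : ℤ)) n, ENNReal.ofReal ((2 * r) ^ d) := by
      rw [hBad]
      refine (measure_iUnion_fintype_le _ _).trans (Finset.sum_le_sum fun k _ => ?_)
      refine (measure_biUnion_finset_le _ _).trans (Finset.sum_le_sum fun j _ => ?_)
      exact ball_le95 _ hr0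
    refine lt_of_le_of_lt h1 ?_
    simp only [Finset.sum_const, Finset.card_univ, Fintype.card_fin, Int.card_Ioo, nsmul_eq_mul]
    have h2 : ((n : ℤ) - -(n : ℤ) - 1).toNat ≤ 2 * n := by omega
    have h3 : (M : ENNReal) * (((((n : ℤ) - -(n : ℤ) - 1).toNat : ℕ) : ENNReal) * ENNReal.ofReal ((2 * r) ^ d)) ≤
        ENNReal.ofReal (M * (2 * n * (2 * r) ^ d)) := by
      rw [ENNReal.ofReal_mul (by positivity), ENNReal.ofReal_mul (by positivity), ENNReal.ofReal_natCast]
      gcongr
      rw [show (2 : ℝ) * n = ((2 * n : ℕ) : ℝ) by push_cast; ring, ENNReal.ofReal_natCast]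
      exact_mod_cast h2
    refine lt_of_le_of_lt h3 ?_
    rw [← ENNReal.ofReal_one]
    refine (ENNReal.ofReal_lt_ofReal_iff one_pos).2 ?_
    have h4 : (2 * r) ^ d = 4 ^ d / (NN l : ℝ) ^ d := by
      rw [hr, ← div_pow]
      congr 1
      ring
    rw [h4]
    have h5 : (0 : ℝ) < (NN l : ℝ) ^ d := by positivity
    calc (M : ℝ) * (2 * n * (4 ^ d / (NN l : ℝ) ^ d)) = (M * (2 * n * 4 ^ d)) / (NN l : ℝ) ^ d := by ring
      _ < 1 := by rw [div_lt_one h5]; exact h
  obtain ⟨b, hb⟩ : ∃ b : Td d, b ∉ Bad := by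
    by_contra! hcon
    have h1 : Bad = univ := eq_univ_of_forall hcon
    rw [h1, measure_univ] at hvol
    exact lt_irrefl _ hvol
  have hsep : ∀ k : Fin M, ∀ i < n, ∀ j < n, 2 / (NN l : ℝ) ≤ dist (b + i • D.α) (β k + j • D.α) := by
    intro k i hi j hj
    by_contra! hcon
    apply hb
    rw [hBad, mem_iUnion]
    refine ⟨k, ?_⟩
    rw [mem_iUnion₂]
    refine ⟨(j : ℤ) - i, Finset.mem_Ioo.2 ⟨by omega, by omega⟩, ?_⟩
    rw [Metric.mem_ball, hr]
    refine lt_of_le_of_lt (le_of_eq ?_) hcon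
    rw [← dist_add_right b (β k + ((j : ℤ) - i) • D.α) (i • D.α)]
    congr 1
    rw [sub_smul, natCast_zsmul, natCast_zsmul]
    abel
  refine ⟨Fin.snoc (α := fun _ => Td d) β b, ?_⟩
  intro k k' hk i hi j hj
  rcases Fin.eq_castSucc_or_eq_last k with ⟨a, rfl⟩ | rfl
  · rcases Fin.eq_castSucc_or_eq_last k' with ⟨a', rfl⟩ | rfl
    · rw [Fin.snoc_castSucc, Fin.snoc_castSucc]
      exact hβ a a' (fun h => hk (by rw [h])) i hi j hj
    · rw [Fin.snoc_castSucc, Fin.snoc_last, dist_comm]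
      exact hsep a j hj i hi
  · rcases Fin.eq_castSucc_or_eq_last k' with ⟨a', rfl⟩ | rfl
    · rw [Fin.snoc_castSucc, Fin.snoc_last]
      exact hsep a' i hi j hj
    · exact absurd rfl hk

theorem pts (D : Dat d) (hd : 0 < d) (l n : ℕ) (hn : 1 ≤ n) : ∃ (M : ℕ) (β : Fin M → Td d), 1 ≤ M ∧
    (NN l : ℝ) ^ d ≤ M * (2 * n * 4 ^ d) ∧ Sep D l n M β := by
  classical
  have hN : (0 : ℝ) < NN l := by exact_mod_cast Pool.Agent.Helper18.FD.NN_pos l
  have hn' : (1 : ℝ) ≤ n := by exact_mod_cast hn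
  have hex : ∃ M : ℕ, (NN l : ℝ) ^ d ≤ M * (2 * n * 4 ^ d) := by
    obtain ⟨M, hM⟩ := exists_nat_ge ((NN l : ℝ) ^ d)
    refine ⟨M, hM.trans ?_⟩
    have h1 : (1 : ℝ) ≤ 4 ^ d := one_le_pow₀ (by norm_num)
    have h2 : (1 : ℝ) ≤ 2 * n * 4 ^ d := by nlinarith
    have h3 : (0 : ℝ) ≤ M := Nat.cast_nonneg M
    nlinarith
  have hall : ∀ M : ℕ, (∀ M' < M, (M' : ℝ) * (2 * n * 4 ^ d) < (NN l : ℝ) ^ d) → ∃ β : Fin M → Td d, Sep D l n M β := by
    intro M
    induction M with
    | zero => intro _; exact ⟨fun k => k.elim0, fun k => k.elim0⟩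
    | succ M ih =>
      intro h
      obtain ⟨β, hβ⟩ := ih fun M' hM' => h M' (Nat.lt_succ_of_lt hM')
      exact more95 hβ (h M (Nat.lt_succ_self M))
  obtain ⟨β, hβ⟩ := hall (Nat.find hex) fun M' hM' => not_le.1 (Nat.find_min hex hM')
  refine ⟨Nat.find hex, β, ?_, Nat.find_spec hex, hβ⟩
  rw [Nat.one_le_iff_ne_zero]
  intro h0
  have h1 := Nat.find_spec hex
  rw [h0, Nat.cast_zero, zero_mul] at h1
  exact absurd (show (0 : ℝ) < (NN l : ℝ) ^ d by positivity) (not_lt.2 h1)

/-! ### independence -/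

/-- the coordinates in `S` -/
@[instance_reducible] noncomputable def sg95 (S : Set (Ix d)) : MeasurableSpace (Om d) :=
  ⨆ i ∈ S, MeasurableSpace.comap (fun ω : Om d => ω i) (inferInstance : MeasurableSpace ℂ)

theorem sg_le95 (S : Set (Ix d)) : sg95 S ≤ (inferInstance : MeasurableSpace (Om d)) :=
  iSup₂_le fun i _ => (measurable_pi_apply i).comap_le

theorem meas_sg95 {S : Set (Ix d)} {X : Om d → ℝ≥0∞} (hX : Measurable X)
    (hS : ∀ ω ω' : Om d, (∀ i ∈ S, ω i = ω' i) → X ω = X ω') : Measurable[sg95 S] X := by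
  classical
  have h1 : X = X ∘ (fun ω : Om d => (fun i => if i ∈ S then ω i else 0 : Om d)) := by
    funext ω
    apply hS
    intro i hi
    simp [hi]
  have h2 : @Measurable (Om d) (Om d) (sg95 S) _ (fun ω : Om d => (fun i => if i ∈ S then ω i else 0 : Om d)) := by
    refine @measurable_pi_lambda (Om d) (Ix d) (fun _ => ℂ) (sg95 S) _ _ fun i => ?_
    by_cases hi : i ∈ S
    · simp only [if_pos hi]
      exact (comap_measurable (fun ω : Om d => ω i)).mono (le_iSup₂ (f := fun (i : Ix d) (_ : i ∈ S) =>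
        MeasurableSpace.comap (fun ω : Om d => ω i) (inferInstance : MeasurableSpace ℂ)) i hi) le_rfl
    · simp only [if_neg hi]
      exact @measurable_const _ _ _ (sg95 S) _
  rw [h1]
  exact hX.comp h2

theorem ind95 {S T : Set (Ix d)} (hST : Disjoint S T) {X Y : Om d → ℝ≥0∞} (hX : Measurable X) (hY : Measurable Y)
    (hS : ∀ ω ω' : Om d, (∀ i ∈ S, ω i = ω' i) → X ω = X ω') (hT : ∀ ω ω' : Om d, (∀ i ∈ T, ω i = ω' i) → Y ω = Y ω') :
    ∫⁻ ω, X ω * Y ω ∂law d = (∫⁻ ω, X ω ∂law d) * ∫⁻ ω, Y ω ∂law d := by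
  have h1 : ProbabilityTheory.iIndepFun (fun (i : Ix d) (ω : Om d) => ω i) (law d) := by
    unfold law
    exact ProbabilityTheory.iIndepFun_infinitePi (X := fun _ ω => ω) (fun _ => measurable_id)
  have h2 : ProbabilityTheory.Indep (sg95 S) (sg95 T) (law d) :=
    ProbabilityTheory.indep_iSup_of_disjoint (fun i => (measurable_pi_apply i).comap_le) h1 hST
  exact ProbabilityTheory.lintegral_mul_eq_lintegral_mul_lintegral_of_independent_measurableSpace (sg_le95 S) (sg_le95 T) h2
    (meas_sg95 hX hS) (meas_sg95 hY hT)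

theorem prod95 {κ : Type*} {S : κ → Set (Ix d)} (hS : ∀ k k', k ≠ k' → Disjoint (S k) (S k')) {X : κ → Om d → ℝ≥0∞}
    (hX : ∀ k, Measurable (X k)) (hX' : ∀ k (ω ω' : Om d), (∀ i ∈ S k, ω i = ω' i) → X k ω = X k ω') (s : Finset κ) :
    ∫⁻ ω, ∏ k ∈ s, X k ω ∂law d = ∏ k ∈ s, ∫⁻ ω, X k ω ∂law d := by
  classical
  induction s using Finset.induction_on with
  | empty => simp
  | insert k s hk ih =>
    have h1 : ∀ ω, ∏ k ∈ insert k s, X k ω = X k ω * ∏ k ∈ s, X k ω := fun ω => Finset.prod_insert hk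
    rw [lintegral_congr h1, Finset.prod_insert hk, ← ih]
    refine ind95 (S := S k) (T := ⋃ k' ∈ s, S k') ?_ (hX k) (Finset.measurable_prod _ fun k _ => hX k) (hX' k) ?_
    · rw [Set.disjoint_iUnion₂_right]
      intro k' hk'
      exact hS k k' fun h => hk (h ▸ hk')
    · intro ω ω' h
      refine Finset.prod_congr rfl fun k' hk' => hX' k' ω ω' fun i hi => h i ?_
      exact mem_iUnion₂.2 ⟨k', hk', hi⟩

theorem conc_exp {l n M : ℕ} {β : Fin M → Td d} (hβ : Sep D l n M β) (hM : 1 ≤ M) {φ : Om d → Td d → ℝ}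
    (hφm : Measurable fun x : Om d × Td d => φ x.1 x.2) (hφ : Loc D l n φ) {B : ℝ} (hB : ∀ ω θ, |φ ω θ| ≤ B)
    (η : Om d) {lam E : ℝ} (hE : 0 ≤ E)
    (h : ∀ θ, ∫⁻ ω, ENNReal.ofReal (Real.exp (lam * φ ω θ)) ∂wl l η ≤ ENNReal.ofReal E) :
    ∫⁻ ω, ENNReal.ofReal (Real.exp (lam * M * ∫ θ, φ ω θ)) ∂wl l η ≤ ENNReal.ofReal (E ^ M) := by
  have hmix : Measurable (mix l η) := by
    have := (mix_meas (d := d) l).comp ((measurable_const (a := η)).prodMk (measurable_id (α := Om d)))
    simpa only [Function.comp_def, id] using this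
  have hφω : ∀ ω, Measurable fun θ => φ ω θ := fun ω => hφm.comp (measurable_const.prodMk measurable_id)
  have hφθ : ∀ θ, Measurable fun ω => φ ω θ := fun θ => hφm.comp (measurable_id.prodMk measurable_const)
  have hti : ∀ ω (b : Td d), Integrable (fun θ => φ ω (θ + b)) volume := by
    intro ω b
    have h1 : Measurable fun θ => φ ω (θ + b) := (hφω ω).comp (measurable_id.add_const b)
    exact Integrable.of_bound h1.aestronglyMeasurable B (Filter.Eventually.of_forall fun θ => by
      rw [Real.norm_eq_abs]; exact hB ω _)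
  -- pointwise
  have h1 : ∀ ω, ENNReal.ofReal (Real.exp (lam * M * ∫ θ, φ ω θ)) ≤
      ∫⁻ θ, ∏ k : Fin M, ENNReal.ofReal (Real.exp (lam * φ ω (θ + β k))) := by
    intro ω
    obtain ⟨g, hg⟩ : ∃ g : Td d → ℝ, g = fun θ => lam * ∑ k : Fin M, φ ω (θ + β k) := ⟨_, rfl⟩
    have hgi : Integrable g volume := by
      rw [hg]
      exact (integrable_finsetSum _ fun k _ => hti ω (β k)).const_mul lam
    have e1 : lam * M * ∫ θ, φ ω θ = ∫ θ, g θ := by
      rw [hg, integral_const_mul, integral_finsetSum _ fun k _ => hti ω (β k)]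
      have e2 : ∀ k : Fin M, ∫ θ, φ ω (θ + β k) = ∫ θ, φ ω θ := fun k => integral_add_right_eq_self (φ ω) (β k)
      simp only [e2, Finset.sum_const, Finset.card_univ, Fintype.card_fin, nsmul_eq_mul]
      ring
    have hgm : Measurable g := by
      rw [hg]
      exact (Finset.measurable_sum _ fun k _ => (hφω ω).comp (measurable_id.add_const (β k))).const_mul lam
    have hgb : ∀ θ, |g θ| ≤ |lam| * (M * B) := by
      intro θ
      rw [hg]
      simp only
      rw [abs_mul]
      refine mul_le_mul_of_nonneg_left ((Finset.abs_sum_le_sum_abs _ _).trans ?_) (abs_nonneg _)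
      calc ∑ k : Fin M, |φ ω (θ + β k)| ≤ ∑ _k : Fin M, B := Finset.sum_le_sum fun k _ => hB ω _
        _ = M * B := by simp
    have hei : Integrable (Real.exp ∘ g) volume := by
      refine Integrable.of_bound (Real.measurable_exp.comp hgm).aestronglyMeasurable (Real.exp (|lam| * (M * B)))
        (Filter.Eventually.of_forall fun θ => ?_)
      rw [Real.norm_eq_abs, Function.comp_apply, abs_of_pos (Real.exp_pos _)]
      exact Real.exp_le_exp.2 ((le_abs_self _).trans (hgb θ))
    have e3 : Real.exp (∫ θ, g θ) ≤ ∫ θ, Real.exp (g θ) :=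
      convexOn_exp.map_integral_le Real.continuous_exp.continuousOn isClosed_univ
        (Filter.Eventually.of_forall fun θ => mem_univ _) hgi hei
    rw [e1]
    refine (ENNReal.ofReal_le_ofReal e3).trans (le_of_eq ?_)
    have hei' : Integrable (fun θ => Real.exp (g θ)) volume := hei
    rw [ofReal_integral_eq_lintegral_ofReal hei' (Filter.Eventually.of_forall fun θ => (Real.exp_pos _).le)]
    refine lintegral_congr fun θ => ?_
    rw [← ENNReal.ofReal_prod_of_nonneg fun k _ => (Real.exp_pos _).le, ← Real.exp_sum]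
    congr 2
    rw [hg]
    simp only
    rw [Finset.mul_sum]
  have hP : Measurable fun x : Om d × Td d => ∏ k : Fin M, ENNReal.ofReal (Real.exp (lam * φ x.1 (x.2 + β k))) := by
    refine Finset.measurable_prod _ fun k _ => ?_
    have h2 : Measurable fun x : Om d × Td d => ((x.1, x.2 + β k) : Om d × Td d) :=
      measurable_fst.prodMk (measurable_snd.add_const _)
    exact ENNReal.measurable_ofReal.comp (Real.measurable_exp.comp ((hφm.comp h2).const_mul lam))
  calc ∫⁻ ω, ENNReal.ofReal (Real.exp (lam * M * ∫ θ, φ ω θ)) ∂wl l η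
      ≤ ∫⁻ ω, (∫⁻ θ, ∏ k : Fin M, ENNReal.ofReal (Real.exp (lam * φ ω (θ + β k)))) ∂wl l η := lintegral_mono h1
    _ = ∫⁻ ω, (∫⁻ θ, ∏ k : Fin M, ENNReal.ofReal (Real.exp (lam * φ (mix l η ω) (θ + β k)))) ∂law d := by
        unfold wl
        rw [lintegral_map hP.lintegral_prod_right' hmix]
    _ = ∫⁻ θ, (∫⁻ ω, ∏ k : Fin M, ENNReal.ofReal (Real.exp (lam * φ (mix l η ω) (θ + β k))) ∂law d) := by
        refine lintegral_lintegral_swap ?_
        have h2 : Measurable fun x : Om d × Td d => ((mix l η x.1, x.2) : Om d × Td d) :=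
          (hmix.comp measurable_fst).prodMk measurable_snd
        exact (hP.comp h2).aemeasurable
    _ ≤ ∫⁻ _θ : Td d, ENNReal.ofReal (E ^ M) := by
        refine lintegral_mono fun θ => ?_
        have hX : ∀ k : Fin M, Measurable fun ω => ENNReal.ofReal (Real.exp (lam * φ (mix l η ω) (θ + β k))) := fun k =>
          ENNReal.measurable_ofReal.comp (Real.measurable_exp.comp (((hφθ (θ + β k)).comp hmix).const_mul lam))
        simp only
        rw [prod95 (S := fun k : Fin M => {i : Ix d | i.1 = l ∧ i.2 ∈ dep D l n (θ + β k)})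
          (X := fun (k : Fin M) ω => ENNReal.ofReal (Real.exp (lam * φ (mix l η ω) (θ + β k))))]
        · calc ∏ k : Fin M, ∫⁻ ω, ENNReal.ofReal (Real.exp (lam * φ (mix l η ω) (θ + β k))) ∂law d
              ≤ ∏ _k : Fin M, ENNReal.ofReal E := by
                refine Finset.prod_le_prod' fun k _ => ?_
                have h2 := h (θ + β k)
                unfold wl at h2
                have h3 : Measurable fun ω => ENNReal.ofReal (Real.exp (lam * φ ω (θ + β k))) :=
                  ENNReal.measurable_ofReal.comp (Real.measurable_exp.comp ((hφθ (θ + β k)).const_mul lam))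
                rwa [lintegral_map h3 hmix] at h2
            _ = ENNReal.ofReal (E ^ M) := by
                rw [Finset.prod_const, Finset.card_univ, Fintype.card_fin, ENNReal.ofReal_pow hE]
        · intro k k' hk
          rw [Set.disjoint_left]
          rintro i ⟨-, h2⟩ ⟨-, h3⟩
          exact Set.disjoint_left.1 (dep_disj95 hβ θ hk) h2 h3
        · exact hX
        · intro k ω ω' hω
          rw [hφ (θ + β k) (mix l η ω) (mix l η ω') fun i hi => ?_]
          unfold mix
          by_cases hl : i.1 = l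
          · rw [if_pos hl, if_pos hl]
            exact hω i ⟨hl, hi hl⟩
          · rw [if_neg hl, if_neg hl]
    _ = ENNReal.ofReal (E ^ M) := by rw [lintegral_const, measure_univ, mul_one]

theorem one_side95 {l n M : ℕ} {β : Fin M → Td d} (hβ : Sep D l n M β) (hM : 1 ≤ M) {φ : Om d → Td d → ℝ}
    (hφm : Measurable fun x : Om d × Td d => φ x.1 x.2) (hφ : Loc D l n φ) {K ε : ℝ} (hε : 0 < ε) (hεK : ε ≤ K)
    (hK : ∀ ω θ, |φ ω θ| ≤ K) (η : Om d) (hm : ∀ θ, ∫ ω, φ ω θ ∂wl l η ≤ ε / 4) :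
    wl l η {ω | ε < ∫ θ, φ ω θ} ≤ ENNReal.ofReal (Real.exp (-(M * ε ^ 2 / (16 * K ^ 2)))) := by
  have hK0 : 0 < K := hε.trans_le hεK
  have hp : IsProbabilityMeasure (wl l η) := (wl_rs l η).prob
  obtain ⟨lam, hlam⟩ : ∃ lam : ℝ, lam = ε / (4 * K ^ 2) := ⟨_, rfl⟩
  have hl0 : 0 < lam := by rw [hlam]; positivity
  have hφθ : ∀ θ, Measurable fun ω => φ ω θ := fun θ => hφm.comp (measurable_id.prodMk measurable_const)
  have hφi : ∀ θ, Integrable (fun ω => φ ω θ) (wl l η) := fun θ =>
    Integrable.of_bound (hφθ θ).aestronglyMeasurable K (Filter.Eventually.of_forall fun ω => by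
      rw [Real.norm_eq_abs]; exact hK ω θ)
  have hlK : lam * K ≤ 1 := by
    rw [hlam]
    have : ε / (4 * K ^ 2) * K = ε / (4 * K) := by field_simp
    rw [this, div_le_one (by positivity)]
    linarith
  obtain ⟨E, hE⟩ : ∃ E : ℝ, E = Real.exp (lam * ε / 4 + lam ^ 2 * K ^ 2) := ⟨_, rfl⟩
  have h1 : ∀ θ, ∫⁻ ω, ENNReal.ofReal (Real.exp (lam * φ ω θ)) ∂wl l η ≤ ENNReal.ofReal E := by
    intro θ
    have hei : Integrable (fun ω => Real.exp (lam * φ ω θ)) (wl l η) := by
      refine Integrable.of_bound (Real.measurable_exp.comp ((hφθ θ).const_mul lam)).aestronglyMeasurable (Real.exp (lam * K))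
        (Filter.Eventually.of_forall fun ω => ?_)
      rw [Real.norm_eq_abs, abs_of_pos (Real.exp_pos _)]
      exact Real.exp_le_exp.2 (mul_le_mul_of_nonneg_left ((le_abs_self _).trans (hK ω θ)) hl0.le)
    rw [← ofReal_integral_eq_lintegral_ofReal hei (Filter.Eventually.of_forall fun θ => (Real.exp_pos _).le)]
    apply ENNReal.ofReal_le_ofReal
    have h2 : ∀ ω, Real.exp (lam * φ ω θ) ≤ 1 + lam * φ ω θ + lam ^ 2 * K ^ 2 := by
      intro ω
      have h3 : |lam * φ ω θ| ≤ lam * K := by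
        rw [abs_mul, abs_of_pos hl0]
        exact mul_le_mul_of_nonneg_left (hK ω θ) hl0.le
      have h4 := Real.abs_exp_sub_one_sub_id_le (h3.trans hlK)
      have h5 : (lam * φ ω θ) ^ 2 ≤ (lam * K) ^ 2 := sq_le_sq' (by linarith [(abs_le.1 h3).1]) (abs_le.1 h3).2
      have h6 := (abs_le.1 h4).2
      nlinarith
    have h7 : ∫ ω, Real.exp (lam * φ ω θ) ∂wl l η ≤ ∫ ω, (1 + lam * φ ω θ + lam ^ 2 * K ^ 2) ∂wl l η :=
      integral_mono hei (((integrable_const _).add ((hφi θ).const_mul _)).add (integrable_const _)) h2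
    refine h7.trans ?_
    have hi1 : Integrable (fun ω => 1 + lam * φ ω θ) (wl l η) := (integrable_const _).add ((hφi θ).const_mul _)
    rw [integral_add hi1 (integrable_const _), integral_add (integrable_const _) ((hφi θ).const_mul _), integral_const_mul,
      integral_const, integral_const]
    simp only [probReal_univ, one_smul]
    have h8 := mul_le_mul_of_nonneg_left (hm θ) hl0.le
    have h9 := Real.add_one_le_exp (lam * ε / 4 + lam ^ 2 * K ^ 2)
    rw [hE]
    linarith
  have h2 := conc_exp hβ hM hφm hφ hK η (by rw [hE]; positivity) h1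
  have hsub : {ω : Om d | ε < ∫ θ, φ ω θ} ⊆
      {ω | ENNReal.ofReal (Real.exp (lam * M * ε)) ≤ ENNReal.ofReal (Real.exp (lam * M * ∫ θ, φ ω θ))} := by
    intro ω hω
    exact ENNReal.ofReal_le_ofReal (Real.exp_le_exp.2 (mul_le_mul_of_nonneg_left (le_of_lt hω) (by positivity)))
  have hmeas : Measurable fun ω : Om d => ENNReal.ofReal (Real.exp (lam * M * ∫ θ, φ ω θ)) := by
    have h3 : StronglyMeasurable fun ω : Om d => ∫ θ, φ ω θ := hφm.stronglyMeasurable.integral_prod_right'
    exact ENNReal.measurable_ofReal.comp (Real.measurable_exp.comp (h3.measurable.const_mul _))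
  have hpos : (0 : ℝ) < Real.exp (lam * M * ε) := Real.exp_pos _
  have h3 := meas_ge_le_lintegral_div (μ := wl l η) hmeas.aemeasurable
    (ε := ENNReal.ofReal (Real.exp (lam * M * ε))) (by simpa using hpos) ENNReal.ofReal_ne_top
  refine (measure_mono hsub).trans (h3.trans ((ENNReal.div_le_div_right h2 _).trans ?_))
  rw [← ENNReal.ofReal_div_of_pos hpos]
  apply ENNReal.ofReal_le_ofReal
  rw [hE, ← Real.exp_nat_mul, ← Real.exp_sub]
  apply Real.exp_le_exp.2
  have h4 : (M : ℝ) * (lam * ε / 4 + lam ^ 2 * K ^ 2) - lam * M * ε = -(M * ε ^ 2 / (8 * K ^ 2)) := by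
    rw [hlam]
    field_simp
    ring
  rw [h4, neg_le_neg_iff]
  have h5 : (0 : ℝ) ≤ M * ε ^ 2 := by positivity
  exact div_le_div_of_nonneg_left h5 (by positivity) (by nlinarith)

theorem conc_small {l n M : ℕ} {β : Fin M → Td d} (hβ : Sep D l n M β) (hM : 1 ≤ M) {φ : Om d → Td d → ℝ}
    (hφm : Measurable fun x : Om d × Td d => φ x.1 x.2) (hφ : Loc D l n φ) {K ε : ℝ} (hε : 0 < ε) (hεK : ε ≤ K)
    (hK : ∀ ω θ, |φ ω θ| ≤ K) (η : Om d) (hm : ∀ θ, |∫ ω, φ ω θ ∂wl l η| ≤ ε / 4) :
    wl l η {ω | ε < |∫ θ, φ ω θ|} ≤ ENNReal.ofReal (2 * Real.exp (-(M * ε ^ 2 / (16 * K ^ 2)))) := by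
  have h1 := one_side95 hβ hM hφm hφ hε hεK hK η fun θ => (le_abs_self _).trans (hm θ)
  have h2 := one_side95 hβ hM (φ := fun ω θ => -φ ω θ) hφm.neg (fun θ ω ω' h => congrArg Neg.neg (hφ θ ω ω' h)) hε hεK
    (fun ω θ => by rw [abs_neg]; exact hK ω θ) η fun θ => by
      rw [integral_neg]
      exact (neg_le_abs _).trans (hm θ)
  have hsub : {ω : Om d | ε < |∫ θ, φ ω θ|} ⊆ {ω | ε < ∫ θ, φ ω θ} ∪ {ω | ε < ∫ θ, -φ ω θ} := by
    intro ω hω
    have hω' : ε < |∫ θ, φ ω θ| := hω
    rcases lt_abs.1 hω' with h | h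
    · exact Or.inl h
    · right
      show ε < ∫ θ, -φ ω θ
      rw [integral_neg]
      exact h
  refine (measure_mono hsub).trans ((measure_union_le _ _).trans ((add_le_add h1 h2).trans (le_of_eq ?_)))
  rw [← ENNReal.ofReal_add (Real.exp_pos _).le (Real.exp_pos _).le]
  congr 1
  ring

/-- functions of the amplitudes along the orbit are local -/
theorem loc_of (hD : D.Ok) {l n : ℕ} {Φ : (ℕ → ℂ) → Td d → ℝ}
    (hΦ : ∀ (θ : Td d) (A A' : ℕ → ℂ), (∀ j < n, A j = A' j) → Φ A θ = Φ A' θ) :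
    Loc D l n fun ω θ => Φ (Ar D ω θ) θ := by
  intro θ ω ω' h
  apply hΦ
  intro j hj
  have h1 : D.As ω θ j = D.As ω' θ j := by
    unfold Dat.As Dat.A
    congr 2
    unfold nz
    refine tsum_congr fun l' => ?_
    congr 1
    unfold lvl
    refine Finset.sum_congr rfl fun c _ => ?_
    by_cases hc : l' = l ∧ c ∉ dep D l n θ
    · obtain ⟨rfl, hc⟩ := hc
      have h2 : ∃ m, 1 ≤ |tc l' (c m) ((θ + j • D.α) m)| := by
        by_contra! hcon
        exact hc ⟨j, hj, hcon⟩
      obtain ⟨m, hm⟩ := h2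
      have h3 : cf D.χ l' c (θ + j • D.α) = 0 := by
        unfold cf
        exact Finset.prod_eq_zero (Finset.mem_univ m) (hD.zero _ hm)
      rw [h3, Complex.ofReal_zero, zero_mul, zero_mul]
    · rw [h (l', c) fun h4 => by
        by_contra h5
        exact hc ⟨h4, h5⟩]
  unfold Ar ar
  rw [h1]

end Pool.Agent.Helper46.QA
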