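import Pool.Agent.Helper46.QR.Defs

/-! Block QA-LIP: dependence of orbits and derivatives on the amplitudes.

`x_{j+1} = 2 x_j - x_{j-1} + a_j sin 2πx_j`: the distance `d_j` of two orbits (sup norm of `TT`) satisfies `d_0 ≤ δ`, `d_{j+1} ≤ (3 + 2 π K) d_j + δ`, so `d_n ≤ (4 + 2 π K)^n δ`. `|v_j - v_j'| ≤ 2 π δ + (2 π)² K d_j`, `M_n - M_n' = Σ_j (product after j) (mv v_j - mv v_j') (product before j)`, norms of the factors at most `4 + 2 π K`; `nn ≥ 2` (`nn_ge_two`, `det_Mx`) gives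
`|log nn M - log nn M'| ≤ |nn M - nn M'| ≤ Σ |entries of M - M'|`. One `Λ = Λ(K)` for all `n`. -/

set_option autoImplicit false
open MeasureTheory Real Set
open scoped ENNReal

namespace Pool.Agent.Helper46.QA

open Pool.Agent.Helper18.UC (nn)
open Pool.Agent.Helper46.QP Pool.Agent.Helper46.QR
open Pool.Agent.Helper95.PV (mv)

private theorem ee_add68 (x y : UnitAddCircle) : ee (x + y) = ee x * ee y := by
  unfold ee
  rw [fourier_apply, fourier_apply, fourier_apply, smul_add, AddCircle.toCircle_add, Circle.coe_mul]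

private theorem norm_ee68 (x : UnitAddCircle) : ‖ee x‖ = 1 := by
  unfold ee
  rw [fourier_apply]
  exact Circle.norm_coe _

private theorem ee_sub_one68 (x : UnitAddCircle) : ‖ee x - 1‖ ≤ 2 * π * ‖x‖ := by
  induction x using QuotientAddGroup.induction_on with
  | H t =>
  have h1 : ((t : ℝ) : UnitAddCircle) = ((t - round t : ℝ) : UnitAddCircle) := by
    rw [AddCircle.coe_sub, sub_eq_self.2]
    have h2 := AddCircle.coe_period (1 : ℝ)
    have h3 : ((round t : ℝ) : UnitAddCircle) = (round t) • ((1 : ℝ) : UnitAddCircle) := by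
      rw [← AddCircle.coe_zsmul, zsmul_one]
    rw [h3, h2, smul_zero]
  have h4 : ‖((t : ℝ) : UnitAddCircle)‖ = |t - round t| := UnitAddCircle.norm_eq
  have h5 : ee ((t : ℝ) : UnitAddCircle) = Complex.exp (Complex.I * ((2 * π * (t - round t) : ℝ) : ℂ)) := by
    rw [h1]
    unfold ee
    rw [fourier_coe_apply]
    congr 1
    push_cast
    ring
  show ‖ee ((t : ℝ) : UnitAddCircle) - 1‖ ≤ 2 * π * ‖((t : ℝ) : UnitAddCircle)‖
  rw [h4, h5]
  refine (Real.norm_exp_I_mul_ofReal_sub_one_le).trans ?_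
  rw [Real.norm_eq_abs, abs_mul, abs_of_pos (by positivity : (0 : ℝ) < 2 * π)]

private theorem ee_lip68 (x y : UnitAddCircle) : ‖ee x - ee y‖ ≤ 2 * π * ‖x - y‖ := by
  have h : ee x - ee y = ee y * (ee (x - y) - 1) := by
    rw [mul_sub, ← ee_add68, mul_one, add_sub_cancel]
  rw [h, norm_mul, norm_ee68, one_mul]
  exact ee_sub_one68 _

private theorem am_lip68 {K δ : ℝ} (A A' : ℝ) (hA' : |A'| ≤ K) (hd : |A - A'| ≤ δ) (x y : UnitAddCircle) :
    ‖(A : ℂ) * ee x - (A' : ℂ) * ee y‖ ≤ δ + K * (2 * π * ‖x - y‖) := by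
  have h : (A : ℂ) * ee x - (A' : ℂ) * ee y = ((A - A' : ℝ) : ℂ) * ee x + (A' : ℂ) * (ee x - ee y) := by
    push_cast
    ring
  rw [h]
  refine (norm_add_le _ _).trans ?_
  rw [norm_mul, norm_mul, norm_ee68, mul_one, Complex.norm_real, Complex.norm_real, Real.norm_eq_abs,
    Real.norm_eq_abs]
  exact add_le_add hd (mul_le_mul hA' (ee_lip68 x y) (norm_nonneg _) ((abs_nonneg _).trans hA'))

private theorem stp_lip68 {K δ : ℝ} (hK : 0 ≤ K) (hδ : 0 ≤ δ) (A A' : ℝ) (hA' : |A'| ≤ K)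
    (hd : |A - A'| ≤ δ) (z z' : TT) :
    dist (stp (A : ℂ) z) (stp (A' : ℂ) z') ≤ (3 + 2 * π * K) * dist z z' + δ := by
  have hπ := Real.pi_pos
  have h1 : ‖z.1 - z'.1‖ ≤ dist z z' := by
    rw [← dist_eq_norm, Prod.dist_eq]
    exact le_max_left _ _
  have h2 : ‖z.2 - z'.2‖ ≤ dist z z' := by
    rw [← dist_eq_norm, Prod.dist_eq]
    exact le_max_right _ _
  have h3 : (0 : ℝ) ≤ dist z z' := dist_nonneg
  have h3' : 0 ≤ 2 * π * K * dist z z' := by positivity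
  rw [Prod.dist_eq (α := UnitAddCircle) (β := UnitAddCircle)]
  refine max_le ?_ ?_
  · rw [dist_eq_norm]
    have h4 : (stp (A : ℂ) z).1 - (stp (A' : ℂ) z').1 = (z.1 - z'.1) + (z.1 - z'.1) - (z.2 - z'.2) +
        ((((A : ℂ) * ee z.1 - (A' : ℂ) * ee z'.1).im : ℝ) : UnitAddCircle) := by
      rw [Complex.sub_im, AddCircle.coe_sub]
      show (z.1 + z.1 - z.2 + ((((A : ℂ) * ee z.1).im : ℝ) : UnitAddCircle)) -
        (z'.1 + z'.1 - z'.2 + ((((A' : ℂ) * ee z'.1).im : ℝ) : UnitAddCircle)) = _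
      generalize ((((A : ℂ) * ee z.1).im : ℝ) : UnitAddCircle) = r
      generalize ((((A' : ℂ) * ee z'.1).im : ℝ) : UnitAddCircle) = r'
      generalize z.1 = a
      generalize z.2 = b
      generalize z'.1 = a'
      generalize z'.2 = b'
      abel
    rw [h4]
    have h5 : ‖((((A : ℂ) * ee z.1 - (A' : ℂ) * ee z'.1).im : ℝ) : UnitAddCircle)‖ ≤
        δ + K * (2 * π * ‖z.1 - z'.1‖) :=
      (QuotientAddGroup.norm_mk_le_norm).trans (((Complex.abs_im_le_norm _).trans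
        (am_lip68 A A' hA' hd z.1 z'.1)))
    have h6 : ‖(z.1 - z'.1) + (z.1 - z'.1) - (z.2 - z'.2)‖ ≤ ‖z.1 - z'.1‖ + ‖z.1 - z'.1‖ + ‖z.2 - z'.2‖ :=
      (norm_sub_le _ _).trans (add_le_add_left (norm_add_le _ _) _)
    have h7 : K * (2 * π * ‖z.1 - z'.1‖) ≤ 2 * π * K * dist z z' := by
      have : K * (2 * π * ‖z.1 - z'.1‖) ≤ K * (2 * π * dist z z') := by gcongr
      linarith
    refine (norm_add_le _ _).trans ?_
    linarith
  · rw [dist_eq_norm]
    show ‖z.1 - z'.1‖ ≤ _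
    linarith

private theorem va_lip68 {K δ : ℝ} (A A' : ℝ) (hA' : |A'| ≤ K) (hd : |A - A'| ≤ δ) (x y : UnitAddCircle) :
    |va (A : ℂ) x - va (A' : ℂ) y| ≤ 2 * π * (δ + K * (2 * π * ‖x - y‖)) := by
  unfold va
  have h : 2 + 2 * π * ((A : ℂ) * ee x).re - (2 + 2 * π * ((A' : ℂ) * ee y).re) =
      2 * π * ((A : ℂ) * ee x - (A' : ℂ) * ee y).re := by
    rw [Complex.sub_re]
    ring
  rw [h, abs_mul, abs_of_pos (by positivity : (0 : ℝ) < 2 * π)]
  exact mul_le_mul_of_nonneg_left ((Complex.abs_re_le_norm _).trans (am_lip68 A A' hA' hd x y))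
    (by positivity)

private theorem va_bd68 {K : ℝ} (A : ℝ) (hA : |A| ≤ K) (x : UnitAddCircle) :
    |va (A : ℂ) x| ≤ 2 + 2 * π * K := by
  unfold va
  refine (abs_add_le _ _).trans ?_
  rw [abs_mul, abs_of_pos (by positivity : (0 : ℝ) < 2 * π), abs_of_pos (by norm_num : (0 : ℝ) < 2)]
  have h1 : |((A : ℂ) * ee x).re| ≤ K := by
    refine (Complex.abs_re_le_norm _).trans ?_
    rw [norm_mul, norm_ee68, mul_one, Complex.norm_real]
    exact hA
  have : 2 * π * |((A : ℂ) * ee x).re| ≤ 2 * π * K := by gcongr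
  linarith

private theorem mv_mul68 (v : ℝ) (M : Matrix (Fin 2) (Fin 2) ℝ) (j : Fin 2) :
    (mv v * M) 0 j = v * M 0 j - M 1 j ∧ (mv v * M) 1 j = M 0 j := by
  constructor
  · rw [Matrix.mul_apply, Fin.sum_univ_two]
    simp [mv]
    ring
  · rw [Matrix.mul_apply, Fin.sum_univ_two]
    simp [mv]

private theorem nn_mv68 (v : ℝ) (M : Matrix (Fin 2) (Fin 2) ℝ) : nn (mv v * M) ≤ (|v| + 1) * nn M := by
  unfold nn
  rw [(mv_mul68 v M 0).1, (mv_mul68 v M 0).2, (mv_mul68 v M 1).1, (mv_mul68 v M 1).2]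
  have h0 : |v * M 0 0 - M 1 0| ≤ |v| * |M 0 0| + |M 1 0| := by
    rw [← abs_mul]
    exact abs_sub _ _
  have h1 : |v * M 0 1 - M 1 1| ≤ |v| * |M 0 1| + |M 1 1| := by
    rw [← abs_mul]
    exact abs_sub _ _
  nlinarith [mul_nonneg (abs_nonneg v) (abs_nonneg (M 1 0)), mul_nonneg (abs_nonneg v) (abs_nonneg (M 1 1))]

private theorem nn_diff68 (v v' : ℝ) (M M' : Matrix (Fin 2) (Fin 2) ℝ) :
    nn (mv v * M - mv v' * M') ≤ |v - v'| * nn M + (|v'| + 1) * nn (M - M') := by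
  unfold nn
  simp only [Matrix.sub_apply]
  rw [(mv_mul68 v M 0).1, (mv_mul68 v M 0).2, (mv_mul68 v M 1).1, (mv_mul68 v M 1).2,
    (mv_mul68 v' M' 0).1, (mv_mul68 v' M' 0).2, (mv_mul68 v' M' 1).1, (mv_mul68 v' M' 1).2]
  have key : ∀ a b a' b' : ℝ, |v * a - b - (v' * a' - b')| ≤ |v - v'| * |a| + |v'| * |a - a'| + |b - b'| := by
    intro a b a' b'
    have h : v * a - b - (v' * a' - b') = (v - v') * a + v' * (a - a') - (b - b') := by ring
    rw [h, ← abs_mul, ← abs_mul]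
    exact (abs_sub _ _).trans (add_le_add_left (abs_add_le _ _) _)
  have h0 := key (M 0 0) (M 1 0) (M' 0 0) (M' 1 0)
  have h1 := key (M 0 1) (M 1 1) (M' 0 1) (M' 1 1)
  nlinarith [mul_nonneg (abs_nonneg v') (abs_nonneg (M 1 0 - M' 1 0)),
    mul_nonneg (abs_nonneg v') (abs_nonneg (M 1 1 - M' 1 1)),
    mul_nonneg (abs_nonneg (v - v')) (abs_nonneg (M 1 0)),
    mul_nonneg (abs_nonneg (v - v')) (abs_nonneg (M 1 1))]

private theorem nn_sub68 (M M' : Matrix (Fin 2) (Fin 2) ℝ) : |nn M - nn M'| ≤ nn (M - M') := by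
  unfold nn
  simp only [Matrix.sub_apply]
  have key : ∀ a b : ℝ, |(|a| - |b|)| ≤ |a - b| := fun a b => abs_abs_sub_abs_le_abs_sub a b
  have h : |M 0 0| + |M 0 1| + |M 1 0| + |M 1 1| - (|M' 0 0| + |M' 0 1| + |M' 1 0| + |M' 1 1|) =
    (|M 0 0| - |M' 0 0|) + (|M 0 1| - |M' 0 1|) + (|M 1 0| - |M' 1 0|) + (|M 1 1| - |M' 1 1|) := by ring
  rw [h]
  refine (abs_add_le _ _).trans (add_le_add ?_ (key _ _))
  refine (abs_add_le _ _).trans (add_le_add ?_ (key _ _))
  exact (abs_add_le _ _).trans (add_le_add (key _ _) (key _ _))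

private theorem log_sub68 {x y : ℝ} (hx : 1 ≤ x) (hy : 1 ≤ y) : |Real.log x - Real.log y| ≤ |x - y| := by
  have key : ∀ a b : ℝ, 1 ≤ a → a ≤ b → Real.log b - Real.log a ≤ b - a := by
    intro a b ha hab
    have ha' : 0 < a := by linarith
    have hb' : 0 < b := by linarith
    rw [← Real.log_div hb'.ne' ha'.ne']
    refine (Real.log_le_sub_one_of_pos (div_pos hb' ha')).trans ?_
    have h1 : b / a - 1 = (b - a) / a := by field_simp
    rw [h1]
    exact div_le_self (by linarith) ha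
  rcases le_total x y with h | h
  · rw [abs_sub_comm, abs_sub_comm x y, abs_of_nonneg (by linarith : 0 ≤ y - x),
      abs_of_nonneg (sub_nonneg.2 (Real.log_le_log (by linarith) h))]
    exact key x y hx h
  · rw [abs_of_nonneg (by linarith : 0 ≤ x - y),
      abs_of_nonneg (sub_nonneg.2 (Real.log_le_log (by linarith) h))]
    exact key y x hy h

theorem lip_orb (K : ℝ) (hK : 0 ≤ K) : ∃ Λ : ℝ, 1 ≤ Λ ∧ ∀ (A A' : ℕ → ℝ) (δ : ℝ), 0 ≤ δ → (∀ j, |A j| ≤ K) → (∀ j, |A' j| ≤ K) →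
    (∀ j, |A j - A' j| ≤ δ) → ∀ (z z' : TT), dist z z' ≤ δ → ∀ n : ℕ,
      dist (orb (fun j => (A j : ℂ)) z n) (orb (fun j => (A' j : ℂ)) z' n) ≤ Λ ^ n * δ ∧
      |Real.log (nn (Mx (fun j => (A j : ℂ)) z n)) - Real.log (nn (Mx (fun j => (A' j : ℂ)) z' n))| ≤ Λ ^ n * δ := by
  have hπ := Real.pi_pos
  obtain ⟨L, hL⟩ : ∃ L : ℝ, L = 4 + 2 * π * K := ⟨_, rfl⟩
  obtain ⟨C, hC⟩ : ∃ C : ℝ, C = 2 * π * (1 + K * (2 * π)) := ⟨_, rfl⟩
  have hKπ : 0 ≤ 2 * π * K := by positivity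
  have hL4 : 4 ≤ L := by linarith
  have hC0 : 0 ≤ C := by rw [hC]; positivity
  refine ⟨L ^ 2 + 2 * C, by nlinarith, ?_⟩
  intro A A' δ hδ hA hA' hd z z' hz n
  obtain ⟨Λ, hΛ⟩ : ∃ Λ : ℝ, Λ = L ^ 2 + 2 * C := ⟨_, rfl⟩
  have hLΛ : L ≤ Λ := by nlinarith
  have hL2Λ : L ^ 2 ≤ Λ := by linarith
  have hLC : 2 * C + L ≤ Λ := by nlinarith
  have hL0 : 0 ≤ L := by linarith
  have h1 : ∀ n : ℕ, dist (orb (fun j => (A j : ℂ)) z n) (orb (fun j => (A' j : ℂ)) z' n) ≤ L ^ n * δ := by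
    intro n
    induction n with
    | zero => simpa [orb] using hz
    | succ n ih =>
      rw [orb_succ, orb_succ]
      refine (stp_lip68 hK hδ (A n) (A' n) (hA' n) (hd n) _ _).trans ?_
      have h2 : (3 + 2 * π * K) * dist (orb (fun j => (A j : ℂ)) z n) (orb (fun j => (A' j : ℂ)) z' n) ≤
          (3 + 2 * π * K) * (L ^ n * δ) := mul_le_mul_of_nonneg_left ih (by linarith)
      have h3 : δ ≤ L ^ n * δ := le_mul_of_one_le_left hδ (one_le_pow₀ (by linarith))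
      calc (3 + 2 * π * K) * dist (orb (fun j => (A j : ℂ)) z n) (orb (fun j => (A' j : ℂ)) z' n) + δ
          ≤ (3 + 2 * π * K) * (L ^ n * δ) + L ^ n * δ := add_le_add h2 h3
        _ = L ^ (n + 1) * δ := by rw [pow_succ, hL]; ring
  have h2 : ∀ n : ℕ, nn (Mx (fun j => (A j : ℂ)) z n) ≤ 2 * L ^ n := by
    intro n
    induction n with
    | zero =>
      show nn (1 : Matrix (Fin 2) (Fin 2) ℝ) ≤ _
      unfold nn
      norm_num
    | succ n ih =>
      rw [Mx_succ]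
      refine (nn_mv68 _ _).trans ?_
      have h3 := va_bd68 (A n) (hA n) (orb (fun j => (A j : ℂ)) z n).1
      calc (|va (A n : ℂ) (orb (fun j => (A j : ℂ)) z n).1| + 1) * nn (Mx (fun j => (A j : ℂ)) z n)
          ≤ L * (2 * L ^ n) := by
            refine mul_le_mul (by linarith) ih ?_ hL0
            unfold nn
            positivity
        _ = 2 * L ^ (n + 1) := by ring
  have h3 : ∀ n : ℕ, nn (Mx (fun j => (A j : ℂ)) z n - Mx (fun j => (A' j : ℂ)) z' n) ≤ Λ ^ n * δ := by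
    intro n
    induction n with
    | zero =>
      show nn ((1 : Matrix (Fin 2) (Fin 2) ℝ) - 1) ≤ _
      rw [sub_self]
      unfold nn
      simpa using hδ
    | succ n ih =>
      rw [Mx_succ, Mx_succ]
      refine (nn_diff68 _ _ _ _).trans ?_
      have h4 := va_lip68 (A n) (A' n) (hA' n) (hd n) (orb (fun j => (A j : ℂ)) z n).1
        (orb (fun j => (A' j : ℂ)) z' n).1
      have h5 : ‖(orb (fun j => (A j : ℂ)) z n).1 - (orb (fun j => (A' j : ℂ)) z' n).1‖ ≤ L ^ n * δ := by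
        rw [← dist_eq_norm]
        refine le_trans ?_ (h1 n)
        rw [Prod.dist_eq]
        exact le_max_left _ _
      have h6 : |va (A n : ℂ) (orb (fun j => (A j : ℂ)) z n).1 - va (A' n : ℂ) (orb (fun j => (A' j : ℂ)) z' n).1| ≤
          C * (L ^ n * δ) := by
        refine h4.trans ?_
        have h7 : δ ≤ L ^ n * δ := le_mul_of_one_le_left hδ (one_le_pow₀ (by linarith))
        have h8 : K * (2 * π * ‖(orb (fun j => (A j : ℂ)) z n).1 - (orb (fun j => (A' j : ℂ)) z' n).1‖) ≤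
            K * (2 * π * (L ^ n * δ)) := by gcongr
        calc _ ≤ 2 * π * (L ^ n * δ + K * (2 * π * (L ^ n * δ))) := by
              refine mul_le_mul_of_nonneg_left (add_le_add h7 h8) (by positivity)
          _ = C * (L ^ n * δ) := by rw [hC]; ring
      have h9 := va_bd68 (A' n) (hA' n) (orb (fun j => (A' j : ℂ)) z' n).1
      have hnn : 0 ≤ nn (Mx (fun j => (A j : ℂ)) z n) := by unfold nn; positivity
      have hnn' : 0 ≤ nn (Mx (fun j => (A j : ℂ)) z n - Mx (fun j => (A' j : ℂ)) z' n) := by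
        unfold nn; positivity
      have hLn : 0 ≤ L ^ n := pow_nonneg hL0 n
      have h10 : L ^ n * L ^ n ≤ Λ ^ n := by
        rw [← mul_pow, ← sq]
        exact pow_le_pow_left₀ (by positivity) hL2Λ n
      calc |va (A n : ℂ) (orb (fun j => (A j : ℂ)) z n).1 - va (A' n : ℂ) (orb (fun j => (A' j : ℂ)) z' n).1| *
            nn (Mx (fun j => (A j : ℂ)) z n) + (|va (A' n : ℂ) (orb (fun j => (A' j : ℂ)) z' n).1| + 1) *
            nn (Mx (fun j => (A j : ℂ)) z n - Mx (fun j => (A' j : ℂ)) z' n)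
          ≤ C * (L ^ n * δ) * (2 * L ^ n) + L * (Λ ^ n * δ) := by
            refine add_le_add (mul_le_mul h6 (h2 n) hnn (by positivity)) (mul_le_mul (by linarith) ih hnn' hL0)
        _ = 2 * C * (L ^ n * L ^ n) * δ + L * (Λ ^ n * δ) := by ring
        _ ≤ 2 * C * Λ ^ n * δ + L * (Λ ^ n * δ) := by gcongr
        _ = (2 * C + L) * (Λ ^ n * δ) := by ring
        _ ≤ Λ * (Λ ^ n * δ) := by
            have : 0 ≤ Λ ^ n * δ := mul_nonneg (pow_nonneg (by linarith) n) hδ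
            gcongr
        _ = Λ ^ (n + 1) * δ := by ring
  rw [← hΛ]
  refine ⟨(h1 n).trans ?_, ?_⟩
  · exact mul_le_mul_of_nonneg_right (pow_le_pow_left₀ hL0 hLΛ n) hδ
  · have h4 := Pool.Agent.Helper95.PV.nn_ge_two (det_Mx (fun j => (A j : ℂ)) z n)
    have h5 := Pool.Agent.Helper95.PV.nn_ge_two (det_Mx (fun j => (A' j : ℂ)) z' n)
    exact (log_sub68 (by linarith) (by linarith)).trans ((nn_sub68 _ _).trans (h3 n))

end Pool.Agent.Helper46.QA
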