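import Mathlib

/-! Block QA-NET: an abstract Borel-Cantelli lemma with nets. Independent of the rest.

For every `i ≥ i₀` the bounded set `B` is covered by at most `C' ρ^(-k)` balls of radius `ρ` with centres in `B` (take the points of a grid of mesh `ρ/2` near `B`, or a maximal `ρ`-separated subset of `B`: at most `(1 + 2R/ρ)^k` points), `ρ = δ₀ Λ^(-2^i)`. So the union of the bad events is contained in the union of the events `bad' i u`, `u` in the net,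
of measure at most `C' (Λ^(2^i)/δ₀)^k C exp (- c 2^((1+δ) i))`, summable. -/

set_option autoImplicit false
open MeasureTheory Real Set Filter Topology
open scoped ENNReal

namespace Pool.Agent.Helper46.QA

private theorem cover34 {k : ℕ} {B : Set (Fin k → ℝ)} {R : ℝ} (hR : 0 ≤ R)
    (hB : ∀ u ∈ B, ∀ j, |u j| ≤ R) {ρ : ℝ} (hρ : 0 < ρ) :
    ∃ T : Finset (Fin k → ℝ), (∀ u ∈ T, u ∈ B) ∧ (∀ u ∈ B, ∃ u' ∈ T, dist u u' ≤ ρ) ∧
      (T.card : ℝ) ≤ (2 * R / ρ + 3) ^ k := by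
  classical
  obtain ⟨M, hM⟩ : ∃ M : ℤ, M = ⌈R / ρ⌉ := ⟨_, rfl⟩
  have hM0 : 0 ≤ M := by rw [hM]; exact Int.ceil_nonneg (by positivity)
  have hM1 : R / ρ ≤ M := by rw [hM]; exact Int.le_ceil _
  have hM2 : (M : ℝ) < R / ρ + 1 := by rw [hM]; exact Int.ceil_lt_add_one _
  let g : (Fin k → ℝ) → (Fin k → ℤ) := fun u j => ⌊u j / ρ⌋
  let V : Finset (Fin k → ℤ) :=
    (Fintype.piFinset fun _ : Fin k => Finset.Icc (-M) M).filter fun v => ∃ u ∈ B, g u = v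
  have hgV : ∀ u ∈ B, g u ∈ V := by
    intro u hu
    rw [Finset.mem_filter, Fintype.mem_piFinset]
    refine ⟨fun j => ?_, u, hu, rfl⟩
    obtain ⟨h1, h2⟩ := abs_le.1 (hB u hu j)
    have h3 : u j / ρ ≤ R / ρ := div_le_div_of_nonneg_right h2 hρ.le
    have h4 : -(R / ρ) ≤ u j / ρ := by
      rw [← neg_div]
      exact div_le_div_of_nonneg_right h1 hρ.le
    rw [Finset.mem_Icc]
    constructor
    · show -M ≤ ⌊u j / ρ⌋
      rw [Int.le_floor]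
      push_cast
      linarith
    · have h5 : ((⌊u j / ρ⌋ : ℤ) : ℝ) ≤ M := (Int.floor_le _).trans (h3.trans hM1)
      exact_mod_cast h5
  have hex : ∀ v : V, ∃ u ∈ B, g u = v.1 := fun v => (Finset.mem_filter.1 v.2).2
  choose rep hrep1 hrep2 using hex
  refine ⟨V.attach.image rep, ?_, ?_, ?_⟩
  · intro u hu
    obtain ⟨v, -, rfl⟩ := Finset.mem_image.1 hu
    exact hrep1 v
  · intro u hu
    refine ⟨rep ⟨g u, hgV u hu⟩, Finset.mem_image.2 ⟨_, Finset.mem_attach _ _, rfl⟩, ?_⟩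
    rw [dist_pi_le_iff hρ.le]
    intro j
    have h1 := congrFun (hrep2 ⟨g u, hgV u hu⟩) j
    have h2 : ⌊u j / ρ⌋ = ⌊rep ⟨g u, hgV u hu⟩ j / ρ⌋ := h1.symm
    have h3 := Int.abs_sub_lt_one_of_floor_eq_floor h2
    rw [← sub_div, abs_div, abs_of_pos hρ, div_lt_one hρ] at h3
    rw [Real.dist_eq]
    exact h3.le
  · have h1 : (V.attach.image rep).card ≤ (2 * M + 1).toNat ^ k := by
      refine Finset.card_image_le.trans ?_
      rw [Finset.card_attach]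
      refine (Finset.card_filter_le _ _).trans (le_of_eq ?_)
      rw [Fintype.card_piFinset, Finset.prod_const, Finset.card_univ, Fintype.card_fin, Int.card_Icc]
      congr 2
      ring
    have h2 : (((2 * M + 1).toNat : ℕ) : ℝ) ≤ 2 * R / ρ + 3 := by
      have h3 : (((2 * M + 1).toNat : ℕ) : ℤ) = 2 * M + 1 := Int.toNat_of_nonneg (by omega)
      have h4 : (((2 * M + 1).toNat : ℕ) : ℝ) = 2 * M + 1 := by exact_mod_cast h3
      rw [h4, mul_div_assoc]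
      linarith
    calc ((V.attach.image rep).card : ℝ) ≤ (((2 * M + 1).toNat ^ k : ℕ) : ℝ) := by exact_mod_cast h1
      _ = (((2 * M + 1).toNat : ℕ) : ℝ) ^ k := by push_cast; rfl
      _ ≤ _ := pow_le_pow_left₀ (Nat.cast_nonneg _) h2 k

theorem net {Ω : Type*} [MeasurableSpace Ω] {P : Measure Ω} {k : ℕ} {B : Set (Fin k → ℝ)} (hB : Bornology.IsBounded B)
    {bad bad' : ℕ → (Fin k → ℝ) → Set Ω} {Λ δ₀ C c δ : ℝ} (hΛ : 1 ≤ Λ) (hδ₀ : 0 < δ₀) (hC : 0 ≤ C) (hc : 0 < c) (hδ : 0 < δ)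
    {i₀ : ℕ}
    (h1 : ∀ i, i₀ ≤ i → ∀ u ∈ B, ∀ u' ∈ B, Λ ^ (2 ^ i : ℕ) * dist u u' ≤ δ₀ → bad i u ⊆ bad' i u')
    (h2 : ∀ i, i₀ ≤ i → ∀ u ∈ B, P (bad' i u) ≤ ENNReal.ofReal (C * Real.exp (-(c * (2 : ℝ) ^ ((1 + δ) * i))))) :
    ∀ᵐ ω ∂P, ∃ i₁ : ℕ, ∀ i ≥ i₁, ∀ u ∈ B, ω ∉ bad i u := by
  classical
  obtain ⟨R0, hR0⟩ := hB.subset_closedBall 0
  obtain ⟨R, hR, hBR⟩ : ∃ R : ℝ, 0 ≤ R ∧ ∀ u ∈ B, ∀ j, |u j| ≤ R := by
    refine ⟨max R0 0, le_max_right _ _, fun u hu j => ?_⟩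
    have h3 := hR0 hu
    rw [Metric.mem_closedBall, dist_zero_right] at h3
    have h4 := norm_le_pi_norm u j
    rw [Real.norm_eq_abs] at h4
    exact h4.trans (h3.trans (le_max_left _ _))
  have hΛi : ∀ i : ℕ, 1 ≤ Λ ^ (2 ^ i : ℕ) := fun i => one_le_pow₀ hΛ
  have hΛ0 : ∀ i : ℕ, 0 < Λ ^ (2 ^ i : ℕ) := fun i => lt_of_lt_of_le one_pos (hΛi i)
  have hcov := fun i : ℕ => cover34 hR hBR (div_pos hδ₀ (hΛ0 i))
  choose T hT1 hT2 hT3 using hcov
  -- the estimate of the measure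
  obtain ⟨K, hK⟩ : ∃ K : ℝ, K = 2 * R / δ₀ + 3 := ⟨_, rfl⟩
  have hK0 : 0 < K := by rw [hK]; positivity
  have hT4 : ∀ i, ((T i).card : ℝ) ≤ K ^ k * Real.exp (k * Real.log Λ * 2 ^ i) := by
    intro i
    refine (hT3 i).trans ?_
    have e1 : 2 * R / (δ₀ / Λ ^ (2 ^ i : ℕ)) + 3 ≤ K * Λ ^ (2 ^ i : ℕ) := by
      have e2 : 2 * R / (δ₀ / Λ ^ (2 ^ i : ℕ)) = 2 * R / δ₀ * Λ ^ (2 ^ i : ℕ) := by
        have := (hΛ0 i).ne'
        field_simp
      rw [e2, hK, add_mul]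
      have := hΛi i
      linarith
    have e3 : Real.exp (k * Real.log Λ * 2 ^ i) = (Λ ^ (2 ^ i : ℕ)) ^ k := by
      have hΛp : 0 < Λ := lt_of_lt_of_le one_pos hΛ
      rw [← pow_mul, ← Real.exp_log (pow_pos hΛp _), Real.log_pow]
      congr 1
      push_cast
      ring
    rw [e3, ← mul_pow]
    have e4 : 0 ≤ 2 * R / (δ₀ / Λ ^ (2 ^ i : ℕ)) + 3 := by
      have := hΛ0 i
      positivity
    exact pow_le_pow_left₀ e4 e1 k
  obtain ⟨i₁, hi₁⟩ : ∃ i₁ : ℕ, ∀ i, i₁ ≤ i → (k * Real.log Λ + 1) / c ≤ (2 : ℝ) ^ (δ * i) := by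
    have h3 : Tendsto (fun i : ℕ => ((2 : ℝ) ^ δ) ^ i) atTop atTop :=
      tendsto_pow_atTop_atTop_of_one_lt (Real.one_lt_rpow one_lt_two hδ)
    obtain ⟨i₁, h4⟩ := eventually_atTop.1 (h3.eventually_ge_atTop ((k * Real.log Λ + 1) / c))
    refine ⟨i₁, fun i hi => (h4 i hi).trans (le_of_eq ?_)⟩
    rw [← Real.rpow_natCast, ← Real.rpow_mul two_pos.le]
  let A : ℕ → Set Ω := fun i => if max i₀ i₁ ≤ i then ⋃ u ∈ T i, bad' i u else ∅
  have hA : ∀ i, P (A i) ≤ ENNReal.ofReal (K ^ k * C * Real.exp (-(i : ℝ))) := by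
    intro i
    by_cases hi : max i₀ i₁ ≤ i
    · have e1 : A i = ⋃ u ∈ T i, bad' i u := if_pos hi
      rw [e1]
      refine (measure_biUnion_finset_le _ _).trans ?_
      refine (Finset.sum_le_sum fun u hu => h2 i ((le_max_left _ _).trans hi) u (hT1 i u hu)).trans ?_
      rw [Finset.sum_const, nsmul_eq_mul, ← ENNReal.ofReal_natCast, ← ENNReal.ofReal_mul (Nat.cast_nonneg _)]
      refine ENNReal.ofReal_le_ofReal ?_
      have e2 := hi₁ i ((le_max_right _ _).trans hi)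
      rw [div_le_iff₀ hc] at e2
      have e3 : (2 : ℝ) ^ ((1 + δ) * i) = 2 ^ i * (2 : ℝ) ^ (δ * i) := by
        rw [add_mul, one_mul, Real.rpow_add two_pos, Real.rpow_natCast]
      have e4 : (i : ℝ) ≤ 2 ^ i := by exact_mod_cast (Nat.lt_two_pow_self (n := i)).le
      have e5 : k * Real.log Λ * 2 ^ i + -(c * (2 : ℝ) ^ ((1 + δ) * i)) ≤ -(i : ℝ) := by
        rw [e3]
        have e6 : (0 : ℝ) < 2 ^ i := by positivity
        nlinarith
      calc ((T i).card : ℝ) * (C * Real.exp (-(c * (2 : ℝ) ^ ((1 + δ) * i))))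
          ≤ K ^ k * Real.exp (k * Real.log Λ * 2 ^ i) *
            (C * Real.exp (-(c * (2 : ℝ) ^ ((1 + δ) * i)))) :=
              mul_le_mul_of_nonneg_right (hT4 i) (by positivity)
        _ = K ^ k * C * Real.exp (k * Real.log Λ * 2 ^ i + -(c * (2 : ℝ) ^ ((1 + δ) * i))) := by
              rw [Real.exp_add]; ring
        _ ≤ K ^ k * C * Real.exp (-(i : ℝ)) :=
              mul_le_mul_of_nonneg_left (Real.exp_le_exp.2 e5) (by positivity)
    · have e1 : A i = ∅ := if_neg hi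
      rw [e1, measure_empty]
      exact zero_le
  have hsum : ∑' i, P (A i) ≠ ∞ := by
    have h3 : Summable fun i : ℕ => K ^ k * C * Real.exp (-(i : ℝ)) :=
      Real.summable_exp_neg_nat.mul_left _
    exact ne_top_of_le_ne_top h3.tsum_ofReal_ne_top (ENNReal.tsum_le_tsum hA)
  filter_upwards [ae_eventually_notMem hsum] with ω hω
  obtain ⟨i₂, hi₂⟩ := eventually_atTop.1 hω
  refine ⟨max (max i₀ i₁) i₂, fun i hi u hu hbad => ?_⟩
  have hi3 : max i₀ i₁ ≤ i := (le_max_left _ _).trans hi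
  obtain ⟨u', hu', hd⟩ := hT2 i u hu
  apply hi₂ i ((le_max_right _ _).trans hi)
  have e1 : A i = ⋃ u ∈ T i, bad' i u := if_pos hi3
  rw [e1, Set.mem_iUnion₂]
  refine ⟨u', hu', h1 i ((le_max_left _ _).trans hi3) u hu u' (hT1 i u' hu') ?_ hbad⟩
  rw [le_div_iff₀ (hΛ0 i)] at hd
  linarith

end Pool.Agent.Helper46.QA
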