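import Pool.Agent.Helper46.QP.Rates

/-! Block QA-RATES: choice of the levels for `b < d/4`. As QP-RATES (`QP/Rates.lean`, helper34) with `2/d < τ`, `2 b τ < 1`: `N = 2^(L i + 3)` is between `2^(τ i)` and `C 2^(τ i)`, `N^d / 2^i ≥ c 2^((d τ - 1) i)`, `d τ - 1 > 1`; `ν = N^(-b)`, `2^i ν² ≥ c 2^((1 - 2 b τ) i)`; `δ = min`. -/

set_option autoImplicit false
open MeasureTheory Real Set Filter Topology

namespace Pool.Agent.Helper46.QA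

open Pool.Agent.Helper18.FD (NN rr)
open Pool.Agent.Helper46.QP

variable {d : ℕ} {D : Dat d}

private theorem nn34 (l : ℕ) : (NN l : ℝ) = (2 : ℝ) ^ ((l : ℝ) + 3) := by
  have h : ((l : ℝ) + 3) = ((l + 3 : ℕ) : ℝ) := by push_cast; ring
  rw [h, Real.rpow_natCast]
  unfold NN
  push_cast
  rfl

private theorem nb34 {τ : ℝ} (hτ : 0 < τ) (l₀ i : ℕ) :
    (2 : ℝ) ^ (τ * (i + 2) + l₀ + 3) ≤ NN (⌈τ * ((i : ℝ) + 2)⌉₊ + l₀) ∧
    (NN (⌈τ * ((i : ℝ) + 2)⌉₊ + l₀) : ℝ) ≤ (2 : ℝ) ^ (2 * τ + l₀ + 4) * (2 : ℝ) ^ (τ * i) := by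
  rw [nn34]
  have h0 : 0 ≤ τ * ((i : ℝ) + 2) := by positivity
  have h1 := Nat.le_ceil (τ * ((i : ℝ) + 2))
  have h2 := Nat.ceil_lt_add_one h0
  constructor
  · apply Real.rpow_le_rpow_of_exponent_le one_le_two
    push_cast
    linarith
  · rw [← Real.rpow_add two_pos]
    apply Real.rpow_le_rpow_of_exponent_le one_le_two
    push_cast
    linarith

private theorem geo34 {η : ℝ} (hη : 0 < η) : Summable fun i : ℕ => (2 : ℝ) ^ (-(η * i)) := by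
  have h : (fun i : ℕ => (2 : ℝ) ^ (-(η * i))) = fun i => ((2 : ℝ) ^ (-η)) ^ i := by
    funext i
    rw [← Real.rpow_natCast, ← Real.rpow_mul two_pos.le]
    congr 1
    ring
  rw [h]
  exact summable_geometric_of_lt_one (by positivity)
    (Real.rpow_lt_one_of_one_lt_of_neg one_lt_two (by linarith))

theorem ratesA (hD : D.Ok) (hb : D.b < d / 4)
    (hα : ∀ τ : ℝ, 1 / (d : ℝ) < τ → ∃ c : ℝ, 0 < c ∧ ∀ k : ℕ, 1 ≤ k → c * (k : ℝ) ^ (-τ) ≤ ‖k • D.α‖) :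
    ∃ (L : ℕ → ℕ) (C c δ : ℝ), 0 < C ∧ 0 < c ∧ 0 < δ ∧ (∀ i, D.iso (L i) (2 ^ (i + 2))) ∧
      Tendsto (fun i => (NN (L i) : ℝ) ^ (-D.b)) atTop (𝓝 0) ∧
      (∀ i, Real.log (1 / (NN (L i) : ℝ) ^ (-D.b)) ≤ C * (i + 1)) ∧
      (∀ i : ℕ, c * (2 : ℝ) ^ (δ * i) ≤ 2 ^ i * ((NN (L i) : ℝ) ^ (-D.b)) ^ 2) ∧
      (∀ i : ℕ, c * (2 : ℝ) ^ ((1 + δ) * i) ≤ (NN (L i) : ℝ) ^ d / 2 ^ i) := by
  have hd : (0 : ℝ) < d := by exact_mod_cast hD.hd
  have hb0 := hD.hb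
  obtain ⟨τ, hτ1, hτ2⟩ : ∃ τ : ℝ, 2 / (d : ℝ) < τ ∧ 2 * D.b * τ < 1 := by
    have h : 2 / (d : ℝ) < 1 / (2 * D.b) := by
      rw [div_lt_div_iff₀ hd (by positivity)]
      linarith
    obtain ⟨τ, h1, h2⟩ := exists_between h
    refine ⟨τ, h1, ?_⟩
    rw [lt_div_iff₀ (by positivity)] at h2
    linarith
  have hτ : 0 < τ := lt_trans (by positivity) hτ1
  have hdτ : 2 < d * τ := by
    rw [div_lt_iff₀ hd] at hτ1
    linarith
  obtain ⟨c, hc, hα'⟩ := hα τ (lt_trans (div_lt_div_of_pos_right one_lt_two hd) hτ1)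
  obtain ⟨l₀, hl₀⟩ := exists_pow_lt_of_lt_one hc (by norm_num : (1 / 2 : ℝ) < 1)
  obtain ⟨L, hL⟩ : ∃ L : ℕ → ℕ, ∀ i : ℕ, L i = ⌈τ * ((i : ℝ) + 2)⌉₊ + l₀ := ⟨_, fun _ => rfl⟩
  obtain ⟨M, hM⟩ : ∃ M : ℝ, M = (2 : ℝ) ^ (2 * τ + l₀ + 4) := ⟨_, rfl⟩
  have hM0 : 0 < M := by rw [hM]; positivity
  have hlow : ∀ i : ℕ, (2 : ℝ) ^ (τ * (i + 2) + l₀ + 3) ≤ NN (L i) := fun i => by
    rw [hL]; exact (nb34 hτ l₀ i).1
  have hup : ∀ i : ℕ, (NN (L i) : ℝ) ≤ M * (2 : ℝ) ^ (τ * i) := fun i => by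
    rw [hL, hM]; exact (nb34 hτ l₀ i).2
  have hN0 : ∀ i : ℕ, (0 : ℝ) < NN (L i) := fun i => lt_of_lt_of_le (by positivity) (hlow i)
  have hlow1 : ∀ i : ℕ, (2 : ℝ) ^ (τ * i) ≤ NN (L i) := fun i => by
    refine le_trans ?_ (hlow i)
    apply Real.rpow_le_rpow_of_exponent_le one_le_two
    have : (0 : ℝ) ≤ l₀ := Nat.cast_nonneg _
    linarith
  obtain ⟨a, ha⟩ : ∃ a : ℝ, a = M ^ (-D.b) := ⟨_, rfl⟩
  have ha0 : 0 < a := by rw [ha]; positivity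
  have hslow : ∀ i : ℕ, a * (2 : ℝ) ^ (-(D.b * τ * i)) ≤ (NN (L i) : ℝ) ^ (-D.b) := fun i => by
    have h1 := Real.rpow_le_rpow_of_nonpos (hN0 i) (hup i) (by linarith : -D.b ≤ 0)
    rw [Real.mul_rpow hM0.le (by positivity), ← Real.rpow_mul two_pos.le] at h1
    have e : τ * (i : ℝ) * -D.b = -(D.b * τ * i) := by ring
    rw [e] at h1
    rw [ha]
    exact h1
  have hsup : ∀ i : ℕ, (NN (L i) : ℝ) ^ (-D.b) ≤ (2 : ℝ) ^ (-(D.b * τ * i)) := fun i => by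
    have h1 := Real.rpow_le_rpow_of_nonpos (by positivity) (hlow1 i) (by linarith : -D.b ≤ 0)
    rw [← Real.rpow_mul two_pos.le] at h1
    have e : τ * (i : ℝ) * -D.b = -(D.b * τ * i) := by ring
    rw [e] at h1
    exact h1
  obtain ⟨δ, hδ⟩ : ∃ δ : ℝ, δ = min (1 - 2 * D.b * τ) (d * τ - 2) := ⟨_, rfl⟩
  have hδ0 : 0 < δ := by rw [hδ]; exact lt_min (by linarith) (by linarith)
  have hδ1 : δ ≤ 1 - 2 * D.b * τ := by rw [hδ]; exact min_le_left _ _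
  have hδ2 : δ ≤ d * τ - 2 := by rw [hδ]; exact min_le_right _ _
  refine ⟨L, |Real.log a| + D.b * τ * Real.log 2 + 1, min (a ^ 2) 1, δ, ?_, ?_, hδ0, ?_, ?_, ?_, ?_, ?_⟩
  · have := Real.log_pos (one_lt_two : (1 : ℝ) < 2)
    positivity
  · exact lt_min (by positivity) one_pos
  · intro i k hk1 hk2
    have hk0 : (0 : ℝ) < k := by exact_mod_cast hk1
    refine le_trans ?_ (hα' k hk1)
    have h1 : (k : ℝ) ≤ (2 : ℝ) ^ ((i : ℝ) + 2) := by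
      have e : (i : ℝ) + 2 = ((i + 2 : ℕ) : ℝ) := by push_cast; ring
      rw [e, Real.rpow_natCast]
      exact_mod_cast hk2.le
    have h2 := Real.rpow_le_rpow_of_nonpos hk0 h1 (by linarith : -τ ≤ 0)
    rw [← Real.rpow_mul two_pos.le] at h2
    have h3 : 2 / (NN (L i) : ℝ) ≤ c * (2 : ℝ) ^ (((i : ℝ) + 2) * -τ) := by
      rw [div_le_iff₀ (hN0 i)]
      have h4 := hlow i
      have e1 : (2 : ℝ) ^ (((i : ℝ) + 2) * -τ) * (2 : ℝ) ^ (τ * (i + 2) + l₀ + 3) = 8 * 2 ^ l₀ := by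
        rw [← Real.rpow_add two_pos]
        have e2 : ((i : ℝ) + 2) * -τ + (τ * (i + 2) + l₀ + 3) = ((3 + l₀ : ℕ) : ℝ) := by push_cast; ring
        rw [e2, Real.rpow_natCast, pow_add]
        norm_num
      have h5 : 1 ≤ c * 2 ^ l₀ := by
        rw [one_div, inv_pow, inv_lt_iff_one_lt_mul₀ (by positivity)] at hl₀
        linarith
      calc (2 : ℝ) ≤ 8 * (c * 2 ^ l₀) := by linarith
        _ = c * ((2 : ℝ) ^ (((i : ℝ) + 2) * -τ) * (2 : ℝ) ^ (τ * (i + 2) + l₀ + 3)) := by rw [e1]; ring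
        _ ≤ c * ((2 : ℝ) ^ (((i : ℝ) + 2) * -τ) * NN (L i)) := by gcongr
        _ = _ := by ring
    exact h3.trans (mul_le_mul_of_nonneg_left h2 hc.le)
  · exact squeeze_zero (fun i => by positivity) hsup
      (geo34 (η := D.b * τ) (by positivity)).tendsto_atTop_zero
  · intro i
    have h1 := Real.log_le_log (by positivity) (hslow i)
    rw [Real.log_mul ha0.ne' (by positivity), Real.log_rpow two_pos] at h1
    rw [one_div, Real.log_inv]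
    have h2 := neg_abs_le (Real.log a)
    have h3 := abs_nonneg (Real.log a)
    have h4 := Real.log_pos (one_lt_two : (1 : ℝ) < 2)
    have h5 : (0 : ℝ) ≤ i := Nat.cast_nonneg _
    have h6 : 0 ≤ D.b * τ * Real.log 2 := by positivity
    nlinarith [mul_nonneg h3 h5]
  · intro i
    have h1 : (a * (2 : ℝ) ^ (-(D.b * τ * i))) ^ 2 ≤ ((NN (L i) : ℝ) ^ (-D.b)) ^ 2 :=
      pow_le_pow_left₀ (by positivity) (hslow i) 2
    have e : a ^ 2 * (2 : ℝ) ^ ((1 - 2 * D.b * τ) * i) = 2 ^ i * (a * (2 : ℝ) ^ (-(D.b * τ * i))) ^ 2 := by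
      rw [mul_pow, ← Real.rpow_natCast ((2 : ℝ) ^ (-(D.b * τ * i))) 2, ← Real.rpow_mul two_pos.le,
        ← Real.rpow_natCast (2 : ℝ) i, mul_left_comm, ← Real.rpow_add two_pos]
      congr 2
      push_cast
      ring
    have h2 : (2 : ℝ) ^ (δ * i) ≤ (2 : ℝ) ^ ((1 - 2 * D.b * τ) * i) :=
      Real.rpow_le_rpow_of_exponent_le one_le_two
        (mul_le_mul_of_nonneg_right hδ1 (Nat.cast_nonneg _))
    calc min (a ^ 2) 1 * (2 : ℝ) ^ (δ * i) ≤ a ^ 2 * (2 : ℝ) ^ ((1 - 2 * D.b * τ) * i) :=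
          mul_le_mul (min_le_left _ _) h2 (by positivity) (by positivity)
      _ = 2 ^ i * (a * (2 : ℝ) ^ (-(D.b * τ * i))) ^ 2 := e
      _ ≤ _ := mul_le_mul_of_nonneg_left h1 (by positivity)
  · intro i
    rw [le_div_iff₀ (by positivity)]
    have h1 : (2 : ℝ) ^ (τ * i * d) ≤ (NN (L i) : ℝ) ^ d := by
      rw [Real.rpow_mul two_pos.le, Real.rpow_natCast]
      exact pow_le_pow_left₀ (by positivity) (hlow1 i) d
    refine le_trans ?_ h1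
    have h2 : min (a ^ 2) 1 * (2 : ℝ) ^ ((1 + δ) * i) * 2 ^ i ≤ 1 * (2 : ℝ) ^ ((1 + δ) * i) * 2 ^ i := by
      gcongr
      exact min_le_right _ _
    refine h2.trans ?_
    rw [one_mul, ← Real.rpow_natCast (2 : ℝ) i, ← Real.rpow_add two_pos]
    apply Real.rpow_le_rpow_of_exponent_le one_le_two
    have h3 : (0 : ℝ) ≤ i := Nat.cast_nonneg _
    nlinarith [mul_le_mul_of_nonneg_right hδ2 h3]

end Pool.Agent.Helper46.QA
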