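import Pool.Agent.Helper46.QA.Fam
import Pool.Agent.Helper46.QA.Mean
import Pool.Agent.Helper46.QA.Conc
import Pool.Agent.Helper46.QA.Lip
import Pool.Agent.Helper46.QA.Net
import Pool.Agent.Helper46.QA.RatesA

/-! Block QA-ALLG: growth of the derivative for all parameters at once.

As QA-ALLC with `gro u = volume.real {p | log nn (Mx .. n) < 2^(δ' i)} = ∫ θ, φ ω θ`, `φ ω θ = volume.real {z | log nn < t}`, `bad i u = {ω | ε < gro_u with t = 2^(δ' i)}`, `bad' i u = {ω | ε < gro_u with t = 2^(δ' i) + 1}` (`lip_orb`: the logarithms of two close parameters differ by at most one). Mean of `φ` under `wl l η`: Markov and `growW`: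
`vol {log nn < t} ≤ exp (2 t) ∫ (nn⁻¹)²`, `exp (2 t) C (1 - η' s²)^(n/8) → 0` uniformly in `u ∈ Bx k R` for `δ' = δ/2`. -/

set_option autoImplicit false
open MeasureTheory Real Set Filter Topology
open scoped ENNReal

namespace Pool.Agent.Helper46.QA

open Pool.Agent.Helper18.UC (nn)
open Pool.Agent.Helper18.FD (NN)
open Pool.Agent.Helper46.QP Pool.Agent.Helper46.QR

variable {d : ℕ} {D : Dat d} {k : ℕ} {e : Fin k → Td d → ℝ} {R : ℝ}

private theorem ArG_meas38 (hD : D.Ok) : Measurable fun p : Om d × Td d => Ar D p.1 p.2 := by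
  refine measurable_pi_lambda _ fun j => ?_
  have h1 : Measurable fun p : Om d × Td d => D.As p.1 p.2 j := (measurable_pi_apply j).comp (As_meas hD)
  unfold Ar ar
  exact Complex.measurable_ofReal.comp (Complex.measurable_re.comp h1)

private theorem nnG38 (hD : D.Ok) (n : ℕ) : Measurable fun q : (Om d × Td d) × TT =>
    nn (Mx (Ar D q.1.1 q.1.2) q.2 n) := by
  have h3 : Measurable fun q : (Om d × Td d) × TT => ((Ar D q.1.1 q.1.2, q.2) : (ℕ → ℂ) × TT) :=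
    ((ArG_meas38 hD).comp measurable_fst).prodMk measurable_snd
  exact (Mx_meas n).comp h3

/-- the measure of the points of the fibre with small norm -/
private noncomputable def ph38 (D : Dat d) (n : ℕ) (t : ℝ) (ω : Om d) (θ : Td d) : ℝ :=
  (volume : Measure TT).real {z | Real.log (nn (Mx (Ar D ω θ) z n)) < t}

private theorem ph38_nonneg (n : ℕ) (t : ℝ) (ω : Om d) (θ : Td d) : 0 ≤ ph38 D n t ω θ := measureReal_nonneg

private theorem ph38_le (n : ℕ) (t : ℝ) (ω : Om d) (θ : Td d) : ph38 D n t ω θ ≤ 1 :=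
  ENNReal.toReal_le_of_le_ofReal zero_le_one (by rw [ENNReal.ofReal_one]; exact prob_le_one)

private theorem ph38_meas (hD : D.Ok) (n : ℕ) (t : ℝ) :
    Measurable fun x : Om d × Td d => ph38 D n t x.1 x.2 := by
  have hS : MeasurableSet {q : (Om d × Td d) × TT | Real.log (nn (Mx (Ar D q.1.1 q.1.2) q.2 n)) < t} :=
    measurableSet_lt (nnG38 hD n).log measurable_const
  exact (measurable_measure_prodMk_left (ν := (volume : Measure TT)) hS).ennreal_toReal

private theorem gro38 (hD : D.Ok) (n : ℕ) (t : ℝ) (ω : Om d) :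
    (volume : Measure (Td d × TT)).real {p | Real.log (nn (Mx (Ar D ω p.1) p.2 n)) < t} =
      ∫ θ, ph38 D n t ω θ := by
  have hc : Measurable fun p : Td d × TT => (((ω, p.1), p.2) : (Om d × Td d) × TT) :=
    (measurable_const.prodMk measurable_fst).prodMk measurable_snd
  have hm : Measurable fun p : Td d × TT => nn (Mx (Ar D ω p.1) p.2 n) := by
    have h := (nnG38 hD n).comp hc
    simp only [Function.comp_def] at h
    exact h
  have hS : MeasurableSet {p : Td d × TT | Real.log (nn (Mx (Ar D ω p.1) p.2 n)) < t} :=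
    measurableSet_lt hm.log measurable_const
  have hφ : Measurable fun θ : Td d => volume (Prod.mk θ ⁻¹'
      {p : Td d × TT | Real.log (nn (Mx (Ar D ω p.1) p.2 n)) < t}) :=
    measurable_measure_prodMk_left (ν := (volume : Measure TT)) hS
  rw [measureReal_def, Measure.volume_eq_prod, Measure.prod_apply hS]
  exact (integral_toReal hφ.aemeasurable (Eventually.of_forall fun θ => measure_lt_top _ _)).symm

/-- Markov -/
private theorem markov38 (hD : D.Ok) (n : ℕ) (t : ℝ) (ω : Om d) (θ : Td d) :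
    (volume : Measure TT) {z | Real.log (nn (Mx (Ar D ω θ) z n)) < t} ≤
      ENNReal.ofReal (Real.exp (2 * t)) * ∫⁻ z : TT, ENNReal.ofReal ((nn (Mx (Ar D ω θ) z n))⁻¹ ^ 2) := by
  have hc : Measurable fun z : TT => (((ω, θ), z) : (Om d × Td d) × TT) :=
    measurable_const.prodMk measurable_id
  have hm : Measurable fun z : TT => nn (Mx (Ar D ω θ) z n) := by
    have h := (nnG38 hD n).comp hc
    simp only [Function.comp_def] at h
    exact h
  have hS : MeasurableSet {z : TT | Real.log (nn (Mx (Ar D ω θ) z n)) < t} :=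
    measurableSet_lt hm.log measurable_const
  have hmi : Measurable fun z : TT => ENNReal.ofReal ((nn (Mx (Ar D ω θ) z n))⁻¹ ^ 2) :=
    ENNReal.measurable_ofReal.comp (hm.inv.pow_const 2)
  rw [← lintegral_indicator_one hS, ← lintegral_const_mul _ hmi]
  refine lintegral_mono fun z => ?_
  by_cases hz : z ∈ {z : TT | Real.log (nn (Mx (Ar D ω θ) z n)) < t}
  · rw [indicator_of_mem hz]
    have h4 : Real.log (nn (Mx (Ar D ω θ) z n)) < t := hz
    have a3 : 0 < nn (Mx (Ar D ω θ) z n) := by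
      linarith [Pool.Agent.Helper95.PV.nn_ge_two (det_Mx (Ar D ω θ) z n)]
    have h5 : nn (Mx (Ar D ω θ) z n) ^ 2 ≤ Real.exp (2 * t) := by
      rw [← Real.exp_log a3, ← Real.exp_nat_mul]
      refine Real.exp_le_exp.2 ?_
      push_cast
      linarith
    rw [← ENNReal.ofReal_mul (Real.exp_pos _).le]
    show (1 : ℝ≥0∞) ≤ _
    rw [← ENNReal.ofReal_one]
    refine ENNReal.ofReal_le_ofReal ?_
    rw [inv_pow, ← div_eq_mul_inv, le_div_iff₀ (pow_pos a3 2), one_mul]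
    exact h5
  · rw [indicator_of_notMem hz]
    exact zero_le

private theorem mean38 (hD : D.Ok) (n : ℕ) (t : ℝ) (W : Measure (Om d)) [IsProbabilityMeasure W] {B : ℝ} (hB : 0 ≤ B)
    (θ : Td d) (h : ∫⁻ ω, (∫⁻ z : TT, ENNReal.ofReal ((nn (Mx (Ar D ω θ) z n))⁻¹ ^ 2)) ∂W ≤ ENNReal.ofReal B) :
    |∫ ω, ph38 D n t ω θ ∂W| ≤ Real.exp (2 * t) * B := by
  have hpm : Measurable fun ω : Om d => ((ω, θ) : Om d × Td d) := measurable_id.prodMk measurable_const
  have hm : Measurable fun ω : Om d => ph38 D n t ω θ := by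
    have h := (ph38_meas hD n t).comp hpm
    simp only [Function.comp_def] at h
    exact h
  have hc : Measurable fun q : Om d × TT => (((q.1, θ), q.2) : (Om d × Td d) × TT) :=
    (measurable_fst.prodMk measurable_const).prodMk measurable_snd
  have hmi : Measurable fun q : Om d × TT => ENNReal.ofReal ((nn (Mx (Ar D q.1 θ) q.2 n))⁻¹ ^ 2) := by
    have h0 : Measurable fun q : Om d × TT => nn (Mx (Ar D q.1 θ) q.2 n) := by
      have h := (nnG38 hD n).comp hc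
      simp only [Function.comp_def] at h
      exact h
    exact ENNReal.measurable_ofReal.comp (h0.inv.pow_const 2)
  have hmL : Measurable fun ω : Om d => ∫⁻ z : TT, ENNReal.ofReal ((nn (Mx (Ar D ω θ) z n))⁻¹ ^ 2) :=
    hmi.lintegral_prod_right'
  rw [abs_of_nonneg (integral_nonneg fun ω => ph38_nonneg n t ω θ),
    integral_eq_lintegral_of_nonneg_ae (Eventually.of_forall fun ω => ph38_nonneg n t ω θ)
      hm.aestronglyMeasurable]
  refine ENNReal.toReal_le_of_le_ofReal (mul_nonneg (Real.exp_pos _).le hB) ?_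
  rw [ENNReal.ofReal_mul (Real.exp_pos _).le]
  refine le_trans ?_ (mul_le_mul_right h _)
  rw [← lintegral_const_mul _ hmL]
  refine lintegral_mono fun ω => ?_
  refine le_trans (le_of_eq ?_) (markov38 hD n t ω θ)
  unfold ph38
  exact ENNReal.ofReal_toReal (measure_ne_top _ _)

/-- the numbers -/
private theorem num38 {C η c κ ε : ℝ} (hC : 0 < C) (hη : 0 < η) (hη1 : η ≤ 1) (hc : 0 < c) (hR : 1 ≤ R)
    (hκ : κ = η * c / (8 * R ^ 2)) (hε : 0 < ε) {i : ℕ} (hi : 3 ≤ i) {y s s' : ℝ}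
    (hs' : c * y ^ 2 ≤ 2 ^ i * s' ^ 2) (hs'0 : 0 ≤ s') (hss : s' / R ≤ s) (hs1 : s ≤ 1)
    (hy1 : 1 ≤ y) (hy2 : 5 / κ ≤ y) (hy3 : Real.log (C / ε) ≤ y) :
    Real.exp (2 * (y + 1)) * (C * (1 - η * s ^ 2) ^ (2 ^ i / 8)) ≤ ε := by
  have hR0 : 0 < R := lt_of_lt_of_le one_pos hR
  have hκ0 : 0 < κ := by rw [hκ]; positivity
  have hs0 : 0 ≤ s := le_trans (by positivity) hss
  have h0 : 0 ≤ 1 - η * s ^ 2 := by nlinarith [sq_nonneg s]
  have h1 : 1 - η * s ^ 2 ≤ Real.exp (-(η * s ^ 2)) := by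
    have := Real.add_one_le_exp (-(η * s ^ 2))
    linarith
  have h2 : (1 - η * s ^ 2) ^ (2 ^ i / 8) ≤ Real.exp (-(κ * y ^ 2)) := by
    refine (pow_le_pow_left₀ h0 h1 _).trans ?_
    rw [← Real.exp_nat_mul]
    refine Real.exp_le_exp.2 ?_
    have e1 : ((2 ^ i / 8 : ℕ) : ℝ) = 2 ^ i / 8 := by
      obtain ⟨j, rfl⟩ := Nat.exists_eq_add_of_le hi
      have e2 : 2 ^ (3 + j) / 8 = 2 ^ j := by
        rw [pow_add]
        exact Nat.mul_div_cancel_left _ (by norm_num)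
      rw [e2, pow_add]
      push_cast
      ring
    rw [e1]
    have h3 : (s' / R) ^ 2 ≤ s ^ 2 := pow_le_pow_left₀ (by positivity) hss 2
    have h4 : κ * y ^ 2 ≤ 2 ^ i / 8 * (η * (s' / R) ^ 2) := by
      rw [hκ, div_pow]
      have e3 : η * c / (8 * R ^ 2) * y ^ 2 = η / (8 * R ^ 2) * (c * y ^ 2) := by ring
      have e4 : (2 : ℝ) ^ i / 8 * (η * (s' ^ 2 / R ^ 2)) = η / (8 * R ^ 2) * (2 ^ i * s' ^ 2) := by
        field_simp
      rw [e3, e4]
      exact mul_le_mul_of_nonneg_left hs' (by positivity)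
    have h5 : (2 : ℝ) ^ i / 8 * (η * (s' / R) ^ 2) ≤ 2 ^ i / 8 * (η * s ^ 2) := by gcongr
    linarith
  have h6 : 2 * (y + 1) + -(κ * y ^ 2) ≤ -y := by
    rw [div_le_iff₀ hκ0] at hy2
    nlinarith
  calc Real.exp (2 * (y + 1)) * (C * (1 - η * s ^ 2) ^ (2 ^ i / 8))
      ≤ Real.exp (2 * (y + 1)) * (C * Real.exp (-(κ * y ^ 2))) := by gcongr
    _ = C * Real.exp (2 * (y + 1) + -(κ * y ^ 2)) := by rw [Real.exp_add]; ring
    _ ≤ C * Real.exp (-Real.log (C / ε)) := by gcongr; linarith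
    _ = ε := by
      rw [Real.exp_neg, Real.exp_log (by positivity)]
      field_simp

theorem all_gro (hD : D.Ok) (hb : D.b < d / 4)
    (hα : ∀ τ : ℝ, 1 / (d : ℝ) < τ → ∃ c : ℝ, 0 < c ∧ ∀ k : ℕ, 1 ≤ k → c * (k : ℝ) ^ (-τ) ≤ ‖k • D.α‖)
    (he : ∀ i, Continuous (e i)) (hR : 1 ≤ R) :
    ∃ δ : ℝ, 0 < δ ∧ ∀ ε : ℝ, 0 < ε → ∀ᵐ ω ∂law d, ∃ i₁ : ℕ, ∀ i ≥ i₁, ∀ u ∈ Bx k R,
      (volume : Measure (Td d × TT)).real
        {p | Real.log (nn (Mx (Ar (fam D e u) ω p.1) p.2 (2 ^ i))) < (2 : ℝ) ^ (δ * i)} ≤ ε := by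
  obtain ⟨L, C0, c, δ, hC0, hc, hδ, hiso, hlim, -, hr1, hr2⟩ := ratesA hD hb hα
  obtain ⟨K, hK0, hK⟩ := fam_bd hD he hR
  obtain ⟨K', hK'0, hK'⟩ := fam_lip (k := k) hD he
  obtain ⟨Λ, hΛ, hlip⟩ := lip_orb K hK0
  obtain ⟨C, η, hC, hη, hη1, hg⟩ := growW K hK0
  have hR0 : 0 < R := lt_of_lt_of_le one_pos hR
  refine ⟨δ / 2, by linarith, fun ε hε => ?_⟩
  obtain ⟨ε₁, hε₁⟩ : ∃ ε₁ : ℝ, ε₁ = min ε 1 := ⟨_, rfl⟩
  have hε0 : 0 < ε₁ := by rw [hε₁]; exact lt_min hε one_pos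
  have hεle : ε₁ ≤ ε := by rw [hε₁]; exact min_le_left _ _
  have hε1 : ε₁ ≤ 1 := by rw [hε₁]; exact min_le_right _ _
  obtain ⟨κ, hκ⟩ : ∃ κ : ℝ, κ = η * c / (8 * R ^ 2) := ⟨_, rfl⟩
  -- the level from which on everything is small
  have hyt : Tendsto (fun i : ℕ => (2 : ℝ) ^ (δ / 2 * i)) atTop atTop := by
    have h3 : Tendsto (fun i : ℕ => ((2 : ℝ) ^ (δ / 2)) ^ i) atTop atTop :=
      tendsto_pow_atTop_atTop_of_one_lt (Real.one_lt_rpow one_lt_two (by linarith))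
    refine h3.congr fun i => ?_
    rw [← Real.rpow_natCast, ← Real.rpow_mul two_pos.le]
  obtain ⟨i₀, hi₀⟩ : ∃ i₀ : ℕ, ∀ i, i₀ ≤ i → 3 ≤ i ∧ (NN (L i) : ℝ) ^ (-D.b) ≤ 1 / R ∧
      1 ≤ (2 : ℝ) ^ (δ / 2 * i) ∧ 5 / κ ≤ (2 : ℝ) ^ (δ / 2 * i) ∧
      Real.log (C / (ε₁ / 4)) ≤ (2 : ℝ) ^ (δ / 2 * i) := by
    have h1 := eventually_ge_atTop (α := ℕ) 3
    have h2 : ∀ᶠ i : ℕ in atTop, (NN (L i) : ℝ) ^ (-D.b) ≤ 1 / R := hlim.eventually_le_const (by positivity)
    have h3 := hyt.eventually_ge_atTop 1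
    have h4 := hyt.eventually_ge_atTop (5 / κ)
    have h5 := hyt.eventually_ge_atTop (Real.log (C / (ε₁ / 4)))
    exact eventually_atTop.1 (h1.and (h2.and (h3.and (h4.and h5))))
  have hs0 : ∀ i, 0 < (NN (L i) : ℝ) ^ (-D.b) := fun i => by
    have : (0 : ℝ) < (NN (L i) : ℝ) := Pool.Agent.Helper18.FD.NN_pos (L i)
    positivity
  have hu0 : ∀ u ∈ Bx k R, u 0 ≤ R := fun u hu => (le_abs_self _).trans ((norm_le_pi_norm u 0).trans hu.1)
  have hmain := net (P := law d) (Bx_bd k R) (Λ := Λ) (δ₀ := 1 / (K' + 1)) (C := 2)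
    (c := c * ε₁ ^ 2 / (32 * 4 ^ d)) (δ := δ) (i₀ := i₀)
    (bad := fun i u => {ω | ε₁ < (volume : Measure (Td d × TT)).real
      {p | Real.log (nn (Mx (Ar (fam D e u) ω p.1) p.2 (2 ^ i))) < (2 : ℝ) ^ (δ / 2 * i)}})
    (bad' := fun i u => {ω | ε₁ < |∫ θ, ph38 (fam D e u) (2 ^ i) ((2 : ℝ) ^ (δ / 2 * i) + 1) ω θ|})
    hΛ (by positivity) (by norm_num) (by positivity) hδ ?_ ?_
  · filter_upwards [hmain] with ω hω
    obtain ⟨i₁, hi₁⟩ := hω
    refine ⟨i₁, fun i hi u hu => ?_⟩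
    have h := not_lt.1 (hi₁ i hi u hu)
    exact h.trans hεle
  · -- two close parameters
    intro i _ u hu u' hu' hd ω hω
    have hω' : ε₁ < (volume : Measure (Td d × TT)).real
      {p | Real.log (nn (Mx (Ar (fam D e u) ω p.1) p.2 (2 ^ i))) < (2 : ℝ) ^ (δ / 2 * i)} := hω
    show ε₁ < |∫ θ, ph38 (fam D e u') (2 ^ i) ((2 : ℝ) ^ (δ / 2 * i) + 1) ω θ|
    rw [← gro38 (fam_ok hD he hR hu')]
    refine lt_of_lt_of_le (hω'.trans_le ?_) (le_abs_self _)
    refine measureReal_mono ?_ (measure_ne_top _ _)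
    intro p hp
    have hp' : Real.log (nn (Mx (Ar (fam D e u) ω p.1) p.2 (2 ^ i))) < (2 : ℝ) ^ (δ / 2 * i) := hp
    show Real.log (nn (Mx (Ar (fam D e u') ω p.1) p.2 (2 ^ i))) < (2 : ℝ) ^ (δ / 2 * i) + 1
    have hbd : ∀ v ∈ Bx k R, ∀ j, |ar (fam D e v) ω p.1 j| ≤ K := fun v hv j =>
      (Complex.abs_re_le_norm _).trans ((hK v hv).1 ω _)
    have hdd : ∀ j, |ar (fam D e u) ω p.1 j - ar (fam D e u') ω p.1 j| ≤ K' * dist u u' := by
      intro j
      have h1 := hK' u u' ω (p.1 + j • D.α)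
      refine le_trans ?_ h1
      refine le_trans (le_of_eq ?_) (Complex.abs_re_le_norm _)
      rw [Complex.sub_re]
      rfl
    have h2 := (hlip (ar (fam D e u) ω p.1) (ar (fam D e u') ω p.1) (K' * dist u u')
      (mul_nonneg hK'0 dist_nonneg) (hbd u hu) (hbd u' hu') hdd p.2 p.2
      (by rw [dist_self]; exact mul_nonneg hK'0 dist_nonneg) (2 ^ i)).2
    have h3 : Λ ^ (2 ^ i) * (K' * dist u u') ≤ 1 := by
      have h4 : K' * (Λ ^ (2 ^ i : ℕ) * dist u u') ≤ K' * (1 / (K' + 1)) := mul_le_mul_of_nonneg_left hd hK'0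
      have h5 : K' * (1 / (K' + 1)) ≤ 1 := by
        rw [mul_one_div, div_le_one (by positivity)]
        linarith
      calc Λ ^ (2 ^ i) * (K' * dist u u') = K' * (Λ ^ (2 ^ i : ℕ) * dist u u') := by ring
        _ ≤ 1 := h4.trans h5
    have h6 := (abs_le.1 (h2.trans h3)).1
    have h7 : Real.log (nn (Mx (Ar (fam D e u') ω p.1) p.2 (2 ^ i))) ≤
        Real.log (nn (Mx (Ar (fam D e u) ω p.1) p.2 (2 ^ i))) + 1 := by
      show Real.log (nn (Mx (fun j => ((ar (fam D e u') ω p.1 j : ℝ) : ℂ)) p.2 (2 ^ i))) ≤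
        Real.log (nn (Mx (fun j => ((ar (fam D e u) ω p.1 j : ℝ) : ℂ)) p.2 (2 ^ i))) + 1
      linarith
    linarith
  · -- the measure of the bad events
    intro i hi u hu
    obtain ⟨hi3, hiN, hy1, hy2, hy3⟩ := hi₀ i hi
    have hDu : (fam D e u).Ok := fam_ok hD he hR hu
    obtain ⟨M, β, hM, hNM, hβ⟩ := pts (fam D e u) hD.hd (L i) (2 ^ i) Nat.one_le_two_pow
    have hφm := ph38_meas hDu (2 ^ i) ((2 : ℝ) ^ (δ / 2 * i) + 1)
    have hloc : Loc (fam D e u) (L i) (2 ^ i)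
        fun ω θ => ph38 (fam D e u) (2 ^ i) ((2 : ℝ) ^ (δ / 2 * i) + 1) ω θ := by
      refine loc_of hDu (Φ := fun A _ => (volume : Measure TT).real
        {z | Real.log (nn (Mx A z (2 ^ i))) < (2 : ℝ) ^ (δ / 2 * i) + 1}) ?_
      intro _ A A' hA
      have h1 : ∀ (n : ℕ) (z : TT), (∀ j < n, A j = A' j) → orb A z n = orb A' z n ∧ Mx A z n = Mx A' z n := by
        intro n
        induction n with
        | zero => intro z _; exact ⟨rfl, rfl⟩
        | succ n ih =>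
          intro z h
          obtain ⟨h2, h3⟩ := ih z fun j hj => h j (Nat.lt_succ_of_lt hj)
          constructor
          · rw [orb_succ, orb_succ, h2, h n (Nat.lt_succ_self n)]
          · rw [Mx_succ, Mx_succ, h2, h3, h n (Nat.lt_succ_self n)]
      have h4 : ∀ z : TT, Mx A z (2 ^ i) = Mx A' z (2 ^ i) := fun z => (h1 _ z hA).2
      simp only [h4]
    have hset : MeasurableSet {ω : Om d | ε₁ < |∫ θ, ph38 (fam D e u) (2 ^ i) ((2 : ℝ) ^ (δ / 2 * i) + 1) ω θ|} := by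
      have h1 : Measurable fun ω : Om d =>
          ∫ θ, ph38 (fam D e u) (2 ^ i) ((2 : ℝ) ^ (δ / 2 * i) + 1) ω θ :=
        (hφm.stronglyMeasurable.integral_prod_right (ν := (volume : Measure (Td d)))).measurable
      exact measurableSet_lt measurable_const h1.abs
    refine wl_le (L i) hset fun η' => ?_
    have hprob : IsProbabilityMeasure (wl (d := d) (L i) η') := (wl_rs (L i) η').prob
    have hsu : (fam D e u).s (L i) = u 0 * (NN (L i) : ℝ) ^ (-D.b) := fam_s u (L i)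
    have hs1 : (fam D e u).s (L i) ≤ 1 := by
      rw [hsu]
      calc u 0 * (NN (L i) : ℝ) ^ (-D.b) ≤ R * (1 / R) :=
            mul_le_mul (hu0 u hu) hiN (hs0 i).le hR0.le
        _ = 1 := by field_simp
    have hss : (NN (L i) : ℝ) ^ (-D.b) / R ≤ (fam D e u).s (L i) := by
      rw [hsu]
      have h1 := mul_le_mul_of_nonneg_right hu.2 (hs0 i).le
      calc (NN (L i) : ℝ) ^ (-D.b) / R = 1 / R * (NN (L i) : ℝ) ^ (-D.b) := by ring
        _ ≤ _ := h1
    have hy4 : c * ((2 : ℝ) ^ (δ / 2 * i)) ^ 2 ≤ 2 ^ i * ((NN (L i) : ℝ) ^ (-D.b)) ^ 2 := by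
      have h1 : ((2 : ℝ) ^ (δ / 2 * i)) ^ 2 = (2 : ℝ) ^ (δ * i) := by
        rw [← Real.rpow_natCast, ← Real.rpow_mul two_pos.le]
        congr 1
        push_cast
        ring
      rw [h1]
      exact hr1 i
    have hi2 : (fam D e u).iso (L i) (2 ^ i) := fun j h1 h2 =>
      hiso i j h1 (h2.trans_le (Nat.pow_le_pow_right (by norm_num) (by omega)))
    have hs00 : 0 ≤ (fam D e u).s (L i) := le_trans (by have := hs0 i; positivity) hss
    have hB0 : 0 ≤ C * (1 - η * (fam D e u).s (L i) ^ 2) ^ (2 ^ i / 8) := by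
      have h1 : 0 ≤ 1 - η * (fam D e u).s (L i) ^ 2 := by nlinarith [sq_nonneg ((fam D e u).s (L i))]
      positivity
    have hmean : ∀ θ, |∫ ω, ph38 (fam D e u) (2 ^ i) ((2 : ℝ) ^ (δ / 2 * i) + 1) ω θ ∂wl (L i) η'| ≤ ε₁ / 4 := by
      intro θ
      have h1 := hg d (fam D e u) (wl (L i) η') (L i) (2 ^ i) hDu (hK u hu).2 (wl_rs (L i) η') hi2 hs1 θ
      refine (mean38 hDu (2 ^ i) _ (wl (L i) η') hB0 θ h1).trans ?_
      exact num38 hC hη hη1 hc hR hκ (by linarith) hi3 hy4 (hs0 i).le hss hs1 hy1 hy2 hy3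
    refine (conc_small hβ hM hφm hloc hε0 hε1 (fun ω θ => ?_) η' hmean).trans ?_
    · rw [abs_of_nonneg (ph38_nonneg _ _ _ _)]
      exact ph38_le _ _ _ _
    · refine ENNReal.ofReal_le_ofReal ?_
      refine mul_le_mul_of_nonneg_left (Real.exp_le_exp.2 (neg_le_neg ?_)) (by norm_num)
      have h1 := hr2 i
      rw [le_div_iff₀ (by positivity)] at h1
      have h2 : c * (2 : ℝ) ^ ((1 + δ) * i) * 2 ^ i ≤ M * (2 * 2 ^ i * 4 ^ d) := by
        refine h1.trans ?_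
        have h3 := hNM
        push_cast at h3
        exact h3
      have h4 : c * (2 : ℝ) ^ ((1 + δ) * i) ≤ M * (2 * 4 ^ d) := by
        have h5 : (0 : ℝ) < 2 ^ i := by positivity
        refine le_of_mul_le_mul_right ?_ h5
        calc c * (2 : ℝ) ^ ((1 + δ) * i) * 2 ^ i ≤ M * (2 * 2 ^ i * 4 ^ d) := h2
          _ = M * (2 * 4 ^ d) * 2 ^ i := by ring
      calc c * ε₁ ^ 2 / (32 * 4 ^ d) * (2 : ℝ) ^ ((1 + δ) * i)
          = ε₁ ^ 2 / (32 * 4 ^ d) * (c * (2 : ℝ) ^ ((1 + δ) * i)) := by ring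
        _ ≤ ε₁ ^ 2 / (32 * 4 ^ d) * (M * (2 * 4 ^ d)) := mul_le_mul_of_nonneg_left h4 (by positivity)
        _ = M * ε₁ ^ 2 / (16 * 1 ^ 2) := by field_simp; ring

end Pool.Agent.Helper46.QA
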