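import Pool.Agent.Helper46.QA.W
import Pool.Agent.Helper46.QR.DblR

/-! Block QA-TAIL: exponential tail of the loss at the junction, constants depend only on `K`.

As `dblR` (`QR/DblR.lean`) with `W` in the place of `law d` (only the three cells of the times `m-1, m, m+1` are resampled), and with the cut off `ρ = exp (-t/40)` chosen for each `t`: `12 ρ + 4 C (s ρ)⁻⁴ (16 V³)^(1/8) exp (-t/8) ≤ C' s⁻⁴ exp (-t/40)`.
`expW`: Jensen `exp (∫ z, los/80) ≤ ∫ z, exp (los/80)`, and `∫ exp (X/80) = 1 + ∫_0^∞ (1/80) exp (t/80) P(X > t) dt ≤ 1 + C s⁻⁴ ∫ exp (t/80 - t/40) dt/80`. -/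

set_option autoImplicit false
open MeasureTheory Real Set
open scoped ENNReal

namespace Pool.Agent.Helper46.QA

open Pool.Agent.Helper18.UC (nn)
open Pool.Agent.Helper46.QP Pool.Agent.Helper46.QR
open Pool.Agent.Helper95.PV (mv rp)
open Pool.Agent.Helper82.QR (sn cs sr vr act)

/-- the loss at the junction -/
noncomputable def los {d : ℕ} (D : Dat d) (m : ℕ) (ω : Om d) (θ : Td d) (z : TT) : ℝ :=
  Real.log (nn (Mx (Ar D ω θ) z m)) + Real.log (nn (Mx (Ar D ω (θ + m • D.α)) (orb (Ar D ω θ) z m) m)) -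
    Real.log (nn (Mx (Ar D ω θ) z (2 * m)))

private lemma nn_pos88 {A : ℕ → ℂ} {z : TT} {n : ℕ} : 0 < nn (Mx A z n) := by
  have := Pool.Agent.Helper95.PV.nn_ge_two (det_Mx A z n)
  linarith

theorem los_nonneg {d : ℕ} (D : Dat d) (m : ℕ) (ω : Om d) (θ : Td d) (z : TT) : 0 ≤ los D m ω θ z := by
  unfold los
  have h1 : Mx (Ar D ω θ) z (2 * m) = Mx (Ar D ω (θ + m • D.α)) (orb (Ar D ω θ) z m) m * Mx (Ar D ω θ) z m := by
    rw [two_mul, Mx_add, Ar_add]
  have h2 : nn (Mx (Ar D ω θ) z (2 * m)) ≤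
      nn (Mx (Ar D ω (θ + m • D.α)) (orb (Ar D ω θ) z m) m) * nn (Mx (Ar D ω θ) z m) := by
    rw [h1]
    exact Pool.Agent.Helper18.UC.nn_mul _ _
  have h3 := Real.log_le_log nn_pos88 h2
  rw [Real.log_mul nn_pos88.ne' nn_pos88.ne'] at h3
  linarith

private lemma Ar_bd88 {d : ℕ} {D : Dat d} {K : ℝ} (hK : ∀ ω θ, ‖D.A ω θ‖ ≤ K) (ω : Om d) (θ : Td d) (j : ℕ) :
    ‖Ar D ω θ j‖ ≤ K := by
  unfold Ar ar Dat.As
  rw [Complex.norm_real, Real.norm_eq_abs]
  exact (Complex.abs_re_le_norm _).trans (hK _ _)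

theorem los_le {d : ℕ} {D : Dat d} {K : ℝ} (hK0 : 0 ≤ K) (hK : ∀ ω θ, ‖D.A ω θ‖ ≤ K) (m : ℕ) (ω : Om d) (θ : Td d)
    (z : TT) : los D m ω θ z ≤ 2 * (Real.log 2 + m * Real.log (2 * π * K + 4)) := by
  unfold los
  have h1 := log_nn_le hK0 (Ar_bd88 hK ω θ) z m
  have h2 := log_nn_le hK0 (Ar_bd88 hK ω (θ + m • D.α)) (orb (Ar D ω θ) z m) m
  have h3 := log_nn_nonneg (Ar D ω θ) z (2 * m)
  linarith

private theorem ArJ88 {d : ℕ} {D : Dat d} (hD : D.Ok) : Measurable fun p : Om d × Td d => Ar D p.1 p.2 := by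
  refine measurable_pi_lambda _ fun j => ?_
  have h1 : Measurable fun p : Om d × Td d => D.As p.1 p.2 j := (measurable_pi_apply j).comp (As_meas hD)
  unfold Ar ar
  exact Complex.measurable_ofReal.comp (Complex.measurable_re.comp h1)

private theorem nnR0_88 {d : ℕ} {D : Dat d} (hD : D.Ok) (n : ℕ) : Measurable fun q : Om d × (Td d × TT) =>
    nn (Mx (Ar D q.1 q.2.1) q.2.2 n) := by
  have h2 : Measurable fun q : Om d × (Td d × TT) => ((q.1, q.2.1) : Om d × Td d) :=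
    measurable_fst.prodMk (measurable_fst.comp measurable_snd)
  have h3 : Measurable fun q : Om d × (Td d × TT) => ((Ar D q.1 q.2.1, q.2.2) : (ℕ → ℂ) × TT) :=
    ((ArJ88 hD).comp h2).prodMk (measurable_snd.comp measurable_snd)
  exact (Mx_meas n).comp h3

private theorem nnR88 {d : ℕ} {D : Dat d} (hD : D.Ok) (n m : ℕ) : Measurable fun q : Om d × (Td d × TT) =>
    nn (Mx (Ar D q.1 (q.2.1 + m • D.α)) (orb (Ar D q.1 q.2.1) q.2.2 m) n) := by
  have h1 : Measurable fun q : Om d × (Td d × TT) => ((q.1, q.2.1 + m • D.α) : Om d × Td d) :=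
    measurable_fst.prodMk ((measurable_fst.comp measurable_snd).add_const _)
  have h2 : Measurable fun q : Om d × (Td d × TT) => ((q.1, q.2.1) : Om d × Td d) :=
    measurable_fst.prodMk (measurable_fst.comp measurable_snd)
  have h3 : Measurable fun q : Om d × (Td d × TT) => ((Ar D q.1 q.2.1, q.2.2) : (ℕ → ℂ) × TT) :=
    ((ArJ88 hD).comp h2).prodMk (measurable_snd.comp measurable_snd)
  have h4 := (orb_meas m).comp h3
  simp only [Function.comp_def] at h4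
  have h5 : Measurable fun q : Om d × (Td d × TT) =>
      ((Ar D q.1 (q.2.1 + m • D.α), orb (Ar D q.1 q.2.1) q.2.2 m) : (ℕ → ℂ) × TT) :=
    ((ArJ88 hD).comp h1).prodMk h4
  exact (Mx_meas n).comp h5

theorem los_meas {d : ℕ} {D : Dat d} (hD : D.Ok) (m : ℕ) : Measurable fun x : Om d × (Td d × TT) => los D m x.1 x.2.1 x.2.2 := by
  unfold los
  exact ((Real.measurable_log.comp (nnR0_88 hD m)).add (Real.measurable_log.comp (nnR88 hD m m))).sub
    (Real.measurable_log.comp (nnR0_88 hD (2 * m)))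

section junction

variable {d : ℕ} {D : Dat d}

private lemma s_pos88 {d : ℕ} {D : Dat d} (hD : D.Ok) (l : ℕ) : 0 < D.s l := by
  unfold Dat.s
  have h : (0 : ℝ) < (Pool.Agent.Helper18.FD.NN l : ℝ) := by exact_mod_cast Pool.Agent.Helper18.FD.NN_pos l
  exact mul_pos hD.hq (Real.rpow_pos_of_pos h _)

private theorem orb_congr88 {A A' : ℕ → ℂ} (z : TT) {n : ℕ} (h : ∀ j < n, A j = A' j) : orb A z n = orb A' z n := by
  induction n with
  | zero => rfl
  | succ n ih => rw [orb_succ, orb_succ, ih fun j hj => h j (by omega), h n (by omega)]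

private theorem Mx_congr88 {A A' : ℕ → ℂ} (z : TT) {n : ℕ} (h : ∀ j < n, A j = A' j) : Mx A z n = Mx A' z n := by
  induction n with
  | zero => rfl
  | succ n ih =>
    rw [Mx_succ, Mx_succ, ih fun j hj => h j (by omega), h n (by omega),
      orb_congr88 z fun j hj => h j (by omega)]

private theorem iso_dist88 {l n : ℕ} (h : D.iso l n) (θ : Td d) {j k : ℕ} (hj : j < n) (hk : k < n) (hjk : j ≠ k) :
    2 / (Pool.Agent.Helper18.FD.NN l : ℝ) ≤ dist (θ + k • D.α) (θ + j • D.α) := by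
  rw [dist_add_left, dist_eq_norm]
  rcases lt_or_gt_of_ne hjk with h1 | h1
  · have e : k • D.α - j • D.α = (k - j) • D.α := by
      rw [sub_eq_iff_eq_add, ← add_nsmul]
      congr 1
      omega
    rw [e]
    exact h _ (by omega) (by omega)
  · have e : k • D.α - j • D.α = -((j - k) • D.α) := by
      rw [eq_neg_iff_add_eq_zero, sub_add_eq_add_sub, sub_eq_zero, ← add_nsmul]
      congr 1
      omega
    rw [e, norm_neg]
    exact h _ (by omega) (by omega)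
private theorem lm88 (i : Ix d) {F : Om d → ℝ≥0∞} (hF : Measurable F) :
    Measurable fun ω : Om d => ∫⁻ w, F (Function.update ω i w) ∂dl :=
  (hF.comp (measurable_upd88 i)).lintegral_prod_right'

private theorem resW88 {W : Measure (Om d)} {l : ℕ} (hW : Rs l W) (c : Fin d → ℕ) {F : Om d → ℝ≥0∞} (hF : Measurable F) :
    ∫⁻ ω, F ω ∂W = ∫⁻ ω, (∫⁻ w, F (Function.update ω (l, c) w) ∂dl) ∂W := by
  have hWp := hW.prob
  rw [← (hW.res c).lintegral_comp hF, lintegral_prod]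
  exact (hF.comp (measurable_upd88 (l, c))).aemeasurable

private theorem res388 {W : Measure (Om d)} {l : ℕ} (hW : Rs l W) (c0 c1 c2 : Fin d → ℕ) {F : Om d → ℝ≥0∞} (hF : Measurable F) :
    ∫⁻ ω, F ω ∂W = ∫⁻ ω, ∫⁻ w0, ∫⁻ w1, ∫⁻ w2,
      F (Function.update (Function.update (Function.update ω (l, c0) w0) (l, c1) w1) (l, c2) w2) ∂dl ∂dl ∂dl ∂W := by
  rw [resW88 hW c2 hF, resW88 hW c1 (lm88 (l, c2) hF), resW88 hW c0 (lm88 (l, c1) (lm88 (l, c2) hF))]

/-- three new values -/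
private noncomputable def up88 (D : Dat d) (l n : ℕ) (θ : Td d) (ω : Om d) (w0 w1 w2 : ℂ) : Om d :=
  Function.update (Function.update (Function.update ω (l, cl l (θ + (n + 1) • D.α)) w0)
    (l, cl l (θ + (n + 2) • D.α)) w1) (l, cl l (θ + (n + 3) • D.α)) w2

private theorem up_far88 (hD : D.Ok) {l n : ℕ} (hi : D.iso l (2 * (n + 2))) (θ : Td d) (ω : Om d) (w0 w1 w2 : ℂ) {j : ℕ}
    (hj : j < 2 * (n + 2)) (h0 : j ≠ n + 1) (h1 : j ≠ n + 2) (h2 : j ≠ n + 3) :
    Ar D (up88 D l n θ ω w0 w1 w2) θ j = Ar D ω θ j := by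
  unfold Ar ar Dat.As up88
  rcases Nat.eq_zero_or_pos n with hn | hn
  · subst hn
    have hj0 : j = 0 := by omega
    subst hj0
    rw [A_far hD (iso_dist88 hi θ hj (by omega) h2), A_far hD (iso_dist88 hi θ hj (by omega) h1),
      A_far hD (iso_dist88 hi θ hj (by omega) h0)]
  · rw [A_far hD (iso_dist88 hi θ hj (by omega) h2), A_far hD (iso_dist88 hi θ hj (by omega) h1),
      A_far hD (iso_dist88 hi θ hj (by omega) h0)]

private theorem up_near88 (hD : D.Ok) {l n : ℕ} (hi : D.iso l (2 * (n + 2))) (θ : Td d) (ω : Om d) {w0 w1 w2 : ℂ}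
    (c0 : clip w0 = w0) (c1 : clip w1 = w1) (c2 : clip w2 = w2) {j : ℕ} (hj : j < 3) :
    Ar D (up88 D l n θ ω w0 w1 w2) θ (j + (n + 1)) = am3 (fun i => arm D l ω θ (n + 1 + i)) (D.s l) w0 w1 w2 j := by
  have d01 := iso_dist88 hi θ (j := n + 2) (k := n + 1) (by omega) (by omega) (by omega)
  have d02 := iso_dist88 hi θ (j := n + 3) (k := n + 1) (by omega) (by omega) (by omega)
  have d12 := iso_dist88 hi θ (j := n + 3) (k := n + 2) (by omega) (by omega) (by omega)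
  have d10 := iso_dist88 hi θ (j := n + 1) (k := n + 2) (by omega) (by omega) (by omega)
  have d20 := iso_dist88 hi θ (j := n + 1) (k := n + 3) (by omega) (by omega) (by omega)
  have d21 := iso_dist88 hi θ (j := n + 2) (k := n + 3) (by omega) (by omega) (by omega)
  unfold Ar ar am3 arm Dat.As Dat.Ams up88
  interval_cases j
  · simp only [if_true, zero_add, add_zero]
    rw [A_far hD d20, A_far hD d10, A_own hD, c0]
    norm_num
  · simp only [one_ne_zero, if_false, if_true]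
    rw [show 1 + (n + 1) = n + 2 by omega, show n + 1 + 1 = n + 2 by omega]
    rw [A_far hD d21, A_own hD, Am_far hD d01, c1]
    norm_num
  · have e1 : (2 : ℕ) ≠ 0 := by norm_num
    have e2 : (2 : ℕ) ≠ 1 := by norm_num
    simp only [if_neg e1, if_neg e2]
    rw [show 2 + (n + 1) = n + 3 by omega, show n + 1 + 2 = n + 3 by omega]
    rw [A_own hD, Am_far hD d12, Am_far hD d02, c2]
    norm_num

/-- the event for a sequence of amplitudes -/
private def Ev88 (n : ℕ) (i j : Fin 2) (ρ ε : ℝ) (a : ℕ → ℂ) (z : TT) : Prop :=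
  ρ ≤ |sn (orb a z (n + 1)).1| ∧ ρ ≤ |cs (orb a z (n + 1)).1| ∧ ρ ≤ |sn (orb a z (n + 2)).1| ∧
  ρ ≤ |sn (orb a z (n + 3)).1| ∧ ρ ≤ |cs (orb a z (n + 3)).1| ∧
  |dot2 (rw2 (Mx (fun k => a (k + (n + 4))) (orb a z (n + 4)) n) i)
    (act (Mx (fun k => a (k + (n + 1))) (orb a z (n + 1)) 3) (cl2 (Mx a z (n + 1)) j))| < ε

private theorem pt_meas88 (m : ℕ) :
    Measurable fun p : (ℕ → ℂ) × TT => (((fun j => p.1 (j + m)), orb p.1 p.2 m) : (ℕ → ℂ) × TT) :=
  (measurable_pi_lambda _ fun j => (measurable_pi_apply (j + m)).comp measurable_fst).prodMk (orb_meas m)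

private theorem rw2_meas88 {Y : Type*} [MeasurableSpace Y] {R : Y → Matrix (Fin 2) (Fin 2) ℝ} (hR : ∀ i j, Measurable fun y => R y i j)
    (i : Fin 2) : Measurable fun y => rw2 (R y) i := by
  unfold rw2
  have h1 : Measurable fun y => √(R y i 0 ^ 2 + R y i 1 ^ 2) :=
    (((hR i 0).pow_const 2).add ((hR i 1).pow_const 2)).sqrt
  exact ((hR i 0).div h1).prodMk ((hR i 1).div h1)

private theorem cl2_meas88 {Y : Type*} [MeasurableSpace Y] {R : Y → Matrix (Fin 2) (Fin 2) ℝ} (hR : ∀ i j, Measurable fun y => R y i j)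
    (j : Fin 2) : Measurable fun y => cl2 (R y) j := by
  unfold cl2
  have h1 : Measurable fun y => √(R y 0 j ^ 2 + R y 1 j ^ 2) :=
    (((hR 0 j).pow_const 2).add ((hR 1 j).pow_const 2)).sqrt
  exact ((hR 0 j).div h1).prodMk ((hR 1 j).div h1)

private theorem mD_meas88 (n k : ℕ) (i j : Fin 2) : Measurable fun p : (ℕ → ℂ) × TT =>
    |dot2 (rw2 (Mx (fun k => p.1 (k + (n + 4))) (orb p.1 p.2 (n + 4)) n) i)
      (act (Mx (fun k => p.1 (k + (n + 1))) (orb p.1 p.2 (n + 1)) k) (cl2 (Mx p.1 p.2 (n + 1)) j))| := by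
  have mR : Measurable fun p : (ℕ → ℂ) × TT => rw2 (Mx (fun k => p.1 (k + (n + 4))) (orb p.1 p.2 (n + 4)) n) i :=
    rw2_meas88 (R := fun p : (ℕ → ℂ) × TT => Mx (fun k => p.1 (k + (n + 4))) (orb p.1 p.2 (n + 4)) n)
      (fun a b => (Mx_meas' n a b).comp (pt_meas88 (n + 4))) i
  have mK : ∀ a b, Measurable fun p : (ℕ → ℂ) × TT => Mx (fun k => p.1 (k + (n + 1))) (orb p.1 p.2 (n + 1)) k a b :=
    fun a b => (Mx_meas' k a b).comp (pt_meas88 (n + 1))
  have mL : Measurable fun p : (ℕ → ℂ) × TT => cl2 (Mx p.1 p.2 (n + 1)) j :=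
    cl2_meas88 (R := fun p : (ℕ → ℂ) × TT => Mx p.1 p.2 (n + 1)) (fun a b => Mx_meas' (n + 1) a b) j
  have l1 := measurable_fst.comp mL
  have l2 := measurable_snd.comp mL
  have a1 := ((mK 0 0).mul l1).add ((mK 0 1).mul l2)
  have a2 := ((mK 1 0).mul l1).add ((mK 1 1).mul l2)
  have r1 := measurable_fst.comp mR
  have r2 := measurable_snd.comp mR
  have := ((r1.mul a1).add (r2.mul a2)).norm
  simp only [Function.comp_def, Real.norm_eq_abs] at this
  unfold dot2 act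
  exact this

private theorem Ev_meas88 (n : ℕ) (i j : Fin 2) (ρ ε : ℝ) : MeasurableSet {p : (ℕ → ℂ) × TT | Ev88 n i j ρ ε p.1 p.2} := by
  have ms : ∀ k : ℕ, Measurable fun p : (ℕ → ℂ) × TT => |sn (orb p.1 p.2 k).1| := by
    intro k
    have := (Pool.Agent.Helper82.QR.sn_meas.comp (measurable_fst.comp (orb_meas k))).norm
    simp only [Function.comp_def, Real.norm_eq_abs] at this
    exact this
  have mc : ∀ k : ℕ, Measurable fun p : (ℕ → ℂ) × TT => |cs (orb p.1 p.2 k).1| := by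
    intro k
    have := (Pool.Agent.Helper82.QR.cs_meas.comp (measurable_fst.comp (orb_meas k))).norm
    simp only [Function.comp_def, Real.norm_eq_abs] at this
    exact this
  have s1 : MeasurableSet {p : (ℕ → ℂ) × TT | ρ ≤ |sn (orb p.1 p.2 (n + 1)).1|} := measurableSet_le measurable_const (ms _)
  have s2 : MeasurableSet {p : (ℕ → ℂ) × TT | ρ ≤ |cs (orb p.1 p.2 (n + 1)).1|} := measurableSet_le measurable_const (mc _)
  have s3 : MeasurableSet {p : (ℕ → ℂ) × TT | ρ ≤ |sn (orb p.1 p.2 (n + 2)).1|} := measurableSet_le measurable_const (ms _)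
  have s4 : MeasurableSet {p : (ℕ → ℂ) × TT | ρ ≤ |sn (orb p.1 p.2 (n + 3)).1|} := measurableSet_le measurable_const (ms _)
  have s5 : MeasurableSet {p : (ℕ → ℂ) × TT | ρ ≤ |cs (orb p.1 p.2 (n + 3)).1|} := measurableSet_le measurable_const (mc _)
  have s6 := measurableSet_lt (mD_meas88 n 3 i j) (measurable_const (a := ε))
  have s := s1.inter (s2.inter (s3.inter (s4.inter (s5.inter s6))))
  unfold Ev88
  exact s

private theorem unit88 {x y : ℝ} (h : x ^ 2 + y ^ 2 ≠ 0) :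
    1 ≤ (x / √(x ^ 2 + y ^ 2)) ^ 2 + (y / √(x ^ 2 + y ^ 2)) ^ 2 := by
  rw [div_pow, div_pow, Real.sq_sqrt (by positivity), ← add_div, div_self h]

private theorem rw_unit88 {R : Matrix (Fin 2) (Fin 2) ℝ} (h : R.det = 1) (i : Fin 2) :
    1 ≤ (rw2 R i).1 ^ 2 + (rw2 R i).2 ^ 2 := by
  refine unit88 fun h0 => ?_
  have hx : R i 0 = 0 := by nlinarith [sq_nonneg (R i 0), sq_nonneg (R i 1)]
  have hy : R i 1 = 0 := by nlinarith [sq_nonneg (R i 0), sq_nonneg (R i 1)]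
  rw [Matrix.det_fin_two] at h
  fin_cases i <;> simp at hx hy <;> rw [hx, hy] at h <;> norm_num at h

private theorem cl_unit88 {R : Matrix (Fin 2) (Fin 2) ℝ} (h : R.det = 1) (j : Fin 2) :
    1 ≤ (cl2 R j).1 ^ 2 + (cl2 R j).2 ^ 2 := by
  refine unit88 fun h0 => ?_
  have hx : R 0 j = 0 := by nlinarith [sq_nonneg (R 0 j), sq_nonneg (R 1 j)]
  have hy : R 1 j = 0 := by nlinarith [sq_nonneg (R 0 j), sq_nonneg (R 1 j)]
  rw [Matrix.det_fin_two] at h
  fin_cases j <;> simp at hx hy <;> rw [hx, hy] at h <;> norm_num at h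

/-- frozen noise -/
private theorem froz88 (hD : D.Ok) {W : Measure (Om d)} {K : ℝ} (hK : ∀ l ω θ, ‖D.Am l ω θ‖ ≤ K) {C : ℝ}
    (hcore : ∀ (s ρ ε : ℝ) (A : ℕ → ℝ) (z : TT) (p : ℝ × ℝ) (q : TT → ℝ × ℝ),
      0 < s → s ≤ 1 → 0 < ρ → ρ ≤ 1 → 0 < ε → (∀ j, |A j| ≤ K) → Measurable q → 1 ≤ p.1 ^ 2 + p.2 ^ 2 →
      (∀ y, 1 ≤ (q y).1 ^ 2 + (q y).2 ^ 2) → ρ ≤ |sn z.1| → ρ ≤ |cs z.1| →
      ∫⁻ w0, ∫⁻ w1, ∫⁻ w2, {w : ℂ | bad3 A s ρ ε z p q w0 w1 w}.indicator 1 w2 ∂dl ∂dl ∂dl ≤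
        ENNReal.ofReal (C * (s * ρ)⁻¹ ^ 4 * ε ^ ((1 : ℝ) / 8)))
    {l n : ℕ} (hW : Rs l W) (hi : D.iso l (2 * (n + 2))) (hs : D.s l ≤ 1) (θ : Td d) (i j : Fin 2) {ρ ε : ℝ} (hρ : 0 < ρ) (hρ1 : ρ ≤ 1)
    (hε : 0 < ε) (z : TT) :
    ∫⁻ ω, {ω : Om d | Ev88 n i j ρ ε (Ar D ω θ) z}.indicator 1 ω ∂W ≤
      ENNReal.ofReal (C * (D.s l * ρ)⁻¹ ^ 4 * ε ^ ((1 : ℝ) / 8)) := by
  have hWp := hW.prob
  have hArm : Measurable fun ω : Om d => Ar D ω θ := by
    refine measurable_pi_lambda _ fun j => ?_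
    have h1 : Measurable fun ω : Om d => D.As ω θ j :=
      (measurable_pi_apply j).comp ((As_meas hD).comp (measurable_id.prodMk measurable_const))
    unfold Ar ar
    exact Complex.measurable_ofReal.comp (Complex.measurable_re.comp h1)
  have hms : MeasurableSet {ω : Om d | Ev88 n i j ρ ε (Ar D ω θ) z} :=
    (hArm.prodMk measurable_const) (Ev_meas88 n i j ρ ε)
  have hF : Measurable ({ω : Om d | Ev88 n i j ρ ε (Ar D ω θ) z}.indicator (1 : Om d → ℝ≥0∞)) :=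
    measurable_one.indicator hms
  rw [res388 hW (cl l (θ + (n + 1) • D.α)) (cl l (θ + (n + 2) • D.α)) (cl l (θ + (n + 3) • D.α)) hF]
  have key : ∀ ω : Om d, ∫⁻ w0, ∫⁻ w1, ∫⁻ w2,
      {ω : Om d | Ev88 n i j ρ ε (Ar D ω θ) z}.indicator (1 : Om d → ℝ≥0∞) (up88 D l n θ ω w0 w1 w2) ∂dl ∂dl ∂dl ≤
      ENNReal.ofReal (C * (D.s l * ρ)⁻¹ ^ 4 * ε ^ ((1 : ℝ) / 8)) := by
    intro ω
    -- the frozen data
    obtain ⟨z0, hz0⟩ : ∃ z0, z0 = orb (Ar D ω θ) z (n + 1) := ⟨_, rfl⟩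
    obtain ⟨p, hp⟩ : ∃ p, p = cl2 (Mx (Ar D ω θ) z (n + 1)) j := ⟨_, rfl⟩
    obtain ⟨q, hq⟩ : ∃ q : TT → ℝ × ℝ, q = fun y => rw2 (Mx (fun k => Ar D ω θ (k + (n + 4))) y n) i := ⟨_, rfl⟩
    have hEv : ∀ {w0 w1 w2 : ℂ}, clip w0 = w0 → clip w1 = w1 → clip w2 = w2 →
        Ev88 n i j ρ ε (Ar D (up88 D l n θ ω w0 w1 w2) θ) z →
        ρ ≤ |sn z0.1| ∧ ρ ≤ |cs z0.1| ∧ bad3 (fun i => arm D l ω θ (n + 1 + i)) (D.s l) ρ ε z0 p q w0 w1 w2 := by
      intro w0 w1 w2 c0 c1 c2 he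
      obtain ⟨e1, e2, e3, e4, e5, e6⟩ := he
      set a' := Ar D (up88 D l n θ ω w0 w1 w2) θ with ha'
      have f0 : ∀ k < n + 1, a' k = Ar D ω θ k := fun k hk =>
        up_far88 hD hi θ ω w0 w1 w2 (by omega) (by omega) (by omega) (by omega)
      have o0 : orb a' z (n + 1) = z0 := by rw [hz0]; exact orb_congr88 z f0
      have m0 : Mx a' z (n + 1) = Mx (Ar D ω θ) z (n + 1) := Mx_congr88 z f0
      have f1 : ∀ k < 3, (fun k => a' (k + (n + 1))) k = am3 (fun i => arm D l ω θ (n + 1 + i)) (D.s l) w0 w1 w2 k :=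
        fun k hk => up_near88 hD hi θ ω c0 c1 c2 hk
      have o1 : ∀ r ≤ 3, orb a' z (n + 1 + r) = orb (am3 (fun i => arm D l ω θ (n + 1 + i)) (D.s l) w0 w1 w2) z0 r := by
        intro r hr
        rw [orb_add, o0]
        exact orb_congr88 z0 fun k hk => f1 k (by omega)
      have m1 : Mx (fun k => a' (k + (n + 1))) z0 3 = Mx (am3 (fun i => arm D l ω θ (n + 1 + i)) (D.s l) w0 w1 w2) z0 3 :=
        Mx_congr88 z0 f1
      have f2 : ∀ k < n, (fun k => a' (k + (n + 4))) k = (fun k => Ar D ω θ (k + (n + 4))) k := fun k hk =>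
        up_far88 hD hi θ ω w0 w1 w2 (by omega) (by omega) (by omega) (by omega)
      have m2 : ∀ y, Mx (fun k => a' (k + (n + 4))) y n = Mx (fun k => Ar D ω θ (k + (n + 4))) y n :=
        fun y => Mx_congr88 y f2
      rw [o0] at e1 e2
      have g1 := o1 1 (by norm_num)
      have g2 := o1 2 (by norm_num)
      have g3 := o1 3 (by norm_num)
      rw [show n + 1 + 1 = n + 2 by omega] at g1
      rw [show n + 1 + 2 = n + 3 by omega] at g2
      rw [show n + 1 + 3 = n + 4 by omega] at g3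
      rw [g1] at e3
      rw [g2] at e4 e5
      rw [o0, m0, m1, m2, g3, ← hp] at e6
      refine ⟨e1, e2, e3, e4, e5, ?_⟩
      rw [hq]
      exact e6
    by_cases hc : ρ ≤ |sn z0.1| ∧ ρ ≤ |cs z0.1|
    · have hqm : Measurable q := by
        rw [hq]
        refine rw2_meas88 (R := fun y => Mx (fun k => Ar D ω θ (k + (n + 4))) y n) (fun a b => ?_) i
        exact (Mx_meas' n a b).comp (measurable_const.prodMk measurable_id)
      refine le_trans ?_ (hcore (D.s l) ρ ε (fun i => arm D l ω θ (n + 1 + i)) z0 p q (s_pos88 hD l) hs hρ hρ1 hε ?_ hqm ?_ ?_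
        hc.1 hc.2)
      · refine lintegral_mono_ae ?_
        filter_upwards [clip_ae] with w0 c0
        refine lintegral_mono_ae ?_
        filter_upwards [clip_ae] with w1 c1
        refine lintegral_mono_ae ?_
        filter_upwards [clip_ae] with w2 c2
        by_cases he : Ev88 n i j ρ ε (Ar D (up88 D l n θ ω w0 w1 w2) θ) z
        · rw [indicator_of_mem (show up88 D l n θ ω w0 w1 w2 ∈ {ω : Om d | Ev88 n i j ρ ε (Ar D ω θ) z} from he),
            indicator_of_mem (show w2 ∈ {w : ℂ | bad3 (fun i => arm D l ω θ (n + 1 + i)) (D.s l) ρ ε z0 p q w0 w1 w} from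
              (hEv c0 c1 c2 he).2.2)]
          rfl
        · rw [indicator_of_notMem (show up88 D l n θ ω w0 w1 w2 ∉ {ω : Om d | Ev88 n i j ρ ε (Ar D ω θ) z} from he)]
          exact zero_le
      · intro k
        unfold arm Dat.Ams
        exact (Complex.abs_re_le_norm _).trans (hK _ _ _)
      · rw [hp]
        exact cl_unit88 (det_Mx _ _ _) j
      · intro y
        rw [hq]
        exact rw_unit88 (det_Mx _ _ _) i
    · refine le_trans (le_of_eq ?_) zero_le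
      rw [← lintegral_zero (μ := dl)]
      refine lintegral_congr_ae ?_
      filter_upwards [clip_ae] with w0 c0
      rw [← lintegral_zero (μ := dl)]
      refine lintegral_congr_ae ?_
      filter_upwards [clip_ae] with w1 c1
      rw [← lintegral_zero (μ := dl)]
      refine lintegral_congr_ae ?_
      filter_upwards [clip_ae] with w2 c2
      apply indicator_of_notMem
      intro he
      obtain ⟨h1, h2, -⟩ := hEv c0 c1 c2 he
      exact hc ⟨h1, h2⟩
  calc _ ≤ ∫⁻ _ : Om d, ENNReal.ofReal (C * (D.s l * ρ)⁻¹ ^ 4 * ε ^ ((1 : ℝ) / 8)) ∂W := lintegral_mono key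
    _ = _ := by rw [lintegral_const, measure_univ, mul_one]

private theorem va_le88 {a : ℂ} {K : ℝ} (ha : ‖a‖ ≤ K) (x : UnitAddCircle) : nn (mv (va a x)) ≤ 2 * π * K + 4 := by
  rw [Pool.Agent.Helper95.PV.nn_mv]
  have h1 : |(a * ee x).re| ≤ K := by
    refine (Complex.abs_re_le_norm _).trans ?_
    rw [norm_mul, norm_ee, mul_one]
    exact ha
  unfold va
  have h2 := abs_add_le (2 : ℝ) (2 * π * (a * ee x).re)
  rw [abs_two, abs_mul, abs_of_pos (by positivity : (0 : ℝ) < 2 * π)] at h2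
  have := mul_le_mul_of_nonneg_left h1 (by positivity : (0 : ℝ) ≤ 2 * π)
  linarith

/-- the loss for a sequence of amplitudes -/
private noncomputable def ls88 (a : ℕ → ℂ) (z : TT) (m : ℕ) : ℝ :=
  Real.log (nn (Mx a z m)) + Real.log (nn (Mx (fun j => a (j + m)) (orb a z m) m)) - Real.log (nn (Mx a z (2 * m)))

private theorem ls_ev88 {a : ℕ → ℂ} {K : ℝ} (hK0 : 0 ≤ K) (ha : ∀ j, ‖a j‖ ≤ K) (z : TT) (n : ℕ) {t : ℝ}
    (ht : t < ls88 a z (n + 2)) : ∃ i j : Fin 2,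
    |dot2 (rw2 (Mx (fun k => a (k + (n + 4))) (orb a z (n + 4)) n) i)
      (act (Mx (fun k => a (k + (n + 1))) (orb a z (n + 1)) 3) (cl2 (Mx a z (n + 1)) j))| <
      16 * (2 * π * K + 4) ^ 3 * Real.exp (-t) := by
  obtain ⟨V, hV⟩ : ∃ V : ℝ, V = 2 * π * K + 4 := ⟨_, rfl⟩
  rw [← hV]
  have hV0 : 0 < V := by rw [hV]; positivity
  obtain ⟨R, hR⟩ : ∃ R, R = Mx (fun k => a (k + (n + 4))) (orb a z (n + 4)) n := ⟨_, rfl⟩
  obtain ⟨M, hM⟩ : ∃ M, M = Mx (fun k => a (k + (n + 1))) (orb a z (n + 1)) 3 := ⟨_, rfl⟩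
  obtain ⟨L, hL⟩ : ∃ L, L = Mx a z (n + 1) := ⟨_, rfl⟩
  rw [← hR, ← hM, ← hL]
  have e1 : Mx a z (2 * (n + 2)) = R * (M * L) := by
    rw [show 2 * (n + 2) = (n + 4) + n by ring, Mx_add, ← hR]
    congr 1
    rw [show n + 4 = (n + 1) + 3 by ring, Mx_add, ← hM, ← hL]
  have hdR : R.det = 1 := by rw [hR]; exact det_Mx _ _ _
  have hdL : L.det = 1 := by rw [hL]; exact det_Mx _ _ _
  have hdP : (R * (M * L)).det = 1 := by rw [← e1]; exact det_Mx _ _ _
  have pR := Pool.Agent.Helper95.PV.nn_ge_two hdR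
  have pL := Pool.Agent.Helper95.PV.nn_ge_two hdL
  have pP := Pool.Agent.Helper95.PV.nn_ge_two hdP
  have e2 : nn (Mx a z (n + 2)) ≤ V * nn L := by
    rw [show n + 2 = (n + 1) + 1 by ring, Mx_succ, ← hL]
    refine (Pool.Agent.Helper18.UC.nn_mul _ _).trans ?_
    have := va_le88 (ha (n + 1)) (orb a z (n + 1)).1
    rw [← hV] at this
    exact mul_le_mul_of_nonneg_right this (by linarith)
  have e3 : nn (Mx (fun j => a (j + (n + 2))) (orb a z (n + 2)) (n + 2)) ≤ nn R * (V * V) := by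
    rw [show n + 2 = 2 + n by ring, Mx_add]
    have e4 : (fun j => (fun j => a (j + (2 + n))) (j + 2)) = fun k => a (k + (n + 4)) := by
      funext j
      simp only
      congr 1
      ring
    have e5 : orb (fun j => a (j + (2 + n))) (orb a z (2 + n)) 2 = orb a z (n + 4) := by
      rw [← orb_add]
      congr 1
      ring
    rw [e4, e5, ← hR]
    refine (Pool.Agent.Helper18.UC.nn_mul _ _).trans ?_
    refine mul_le_mul_of_nonneg_left ?_ (by linarith)
    rw [Mx_succ, Mx_succ]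
    have e6 : Mx (fun j => a (j + (2 + n))) (orb a z (2 + n)) 0 = 1 := rfl
    rw [e6, Matrix.mul_one]
    refine (Pool.Agent.Helper18.UC.nn_mul _ _).trans ?_
    have h0 := va_le88 (ha (0 + (2 + n))) (orb (fun j => a (j + (2 + n))) (orb a z (2 + n)) 0).1
    have h1 := va_le88 (ha (0 + 1 + (2 + n))) (orb (fun j => a (j + (2 + n))) (orb a z (2 + n)) (0 + 1)).1
    rw [← hV] at h0 h1
    exact mul_le_mul h1 h0 (Pool.Agent.Helper18.UC.nn_nonneg _) hV0.le
  have q2 := Pool.Agent.Helper95.PV.nn_ge_two (det_Mx a z (n + 2))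
  have q3 := Pool.Agent.Helper95.PV.nn_ge_two (det_Mx (fun j => a (j + (n + 2))) (orb a z (n + 2)) (n + 2))
  obtain ⟨i, j, hij⟩ := ent R M L
  refine ⟨i, j, ?_⟩
  by_contra hc
  rw [not_lt] at hc
  have h4 : nn R * nn L * (V ^ 3 * Real.exp (-t)) ≤ nn (R * (M * L)) := by
    have : nn R * nn L * (16 * V ^ 3 * Real.exp (-t)) ≤ 16 * nn (R * (M * L)) :=
      (mul_le_mul_of_nonneg_left hc (by positivity)).trans hij
    linarith
  have h5 := Real.log_le_log (by positivity) h4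
  rw [Real.log_mul (by positivity) (by positivity), Real.log_mul (by positivity) (by positivity),
    Real.log_mul (by positivity) (by positivity), Real.log_exp, Real.log_pow] at h5
  have h6 := Real.log_le_log (by linarith) e2
  have h7 := Real.log_le_log (by linarith) e3
  rw [Real.log_mul (by positivity) (by positivity)] at h6
  rw [Real.log_mul (by positivity) (by positivity), Real.log_mul (by positivity) (by positivity)] at h7
  unfold ls88 at ht
  rw [e1] at ht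
  push_cast at h5
  linarith
private theorem Ar_meas88 (hD : D.Ok) (θ : Td d) : Measurable fun ω : Om d => Ar D ω θ := by
  refine measurable_pi_lambda _ fun j => ?_
  have h1 : Measurable fun ω : Om d => D.As ω θ j :=
    (measurable_pi_apply j).comp ((As_meas hD).comp (measurable_id.prodMk measurable_const))
  unfold Ar ar
  exact Complex.measurable_ofReal.comp (Complex.measurable_re.comp h1)

private theorem ls_meas88 (m : ℕ) : Measurable fun p : (ℕ → ℂ) × TT => ls88 p.1 p.2 m := by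
  unfold ls88
  have h1 := Real.measurable_log.comp (Mx_meas m)
  have h2 := Real.measurable_log.comp ((Mx_meas m).comp (pt_meas88 m))
  have h3 := Real.measurable_log.comp (Mx_meas (2 * m))
  exact (h1.add h2).sub h3

/-- the cut off sets -/
private theorem cutE88 (hD : D.Ok) {W : Measure (Om d)} [IsProbabilityMeasure W] (θ : Td d) (k : ℕ) {g : UnitAddCircle → ℝ} (hg : Measurable g) {ρ : ℝ}
    (hc : volume {x : UnitAddCircle | |g x| < ρ} ≤ ENNReal.ofReal (2 * ρ)) :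
    (W.prod (volume : Measure TT)) {p : Om d × TT | |g (orb (Ar D p.1 θ) p.2 k).1| < ρ} ≤ ENNReal.ofReal (2 * ρ) := by
  have hm0 : MeasurableSet {x : UnitAddCircle | |g x| < ρ} := measurableSet_lt hg.norm measurable_const
  have hm1 : Measurable fun p : Om d × TT => |g (orb (Ar D p.1 θ) p.2 k).1| := by
    have h1 : Measurable fun p : Om d × TT => ((Ar D p.1 θ, p.2) : (ℕ → ℂ) × TT) :=
      ((Ar_meas88 hD θ).comp measurable_fst).prodMk measurable_snd
    have h2 := (hg.comp (measurable_fst.comp ((orb_meas k).comp h1))).norm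
    exact h2
  have hm : MeasurableSet {p : Om d × TT | |g (orb (Ar D p.1 θ) p.2 k).1| < ρ} := measurableSet_lt hm1 measurable_const
  rw [Measure.prod_apply hm]
  have key : ∀ ω : Om d, (volume : Measure TT) (Prod.mk ω ⁻¹' {p : Om d × TT | |g (orb (Ar D p.1 θ) p.2 k).1| < ρ}) ≤ ENNReal.ofReal (2 * ρ) := by
    intro ω
    have e1 : Prod.mk ω ⁻¹' {p : Om d × TT | |g (orb (Ar D p.1 θ) p.2 k).1| < ρ} =
        (fun z => orb (Ar D ω θ) z k) ⁻¹' ({x : UnitAddCircle | |g x| < ρ} ×ˢ univ) := by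
      ext z
      simp only [mem_preimage, mem_ofPred_eq, mem_prod, mem_univ, and_true]
    rw [e1, (orb_mp (Ar D ω θ) k).measure_preimage (hm0.prod MeasurableSet.univ).nullMeasurableSet,
      Measure.volume_eq_prod, Measure.prod_prod, measure_univ, mul_one]
    exact hc
  calc _ ≤ ∫⁻ _ : Om d, ENNReal.ofReal (2 * ρ) ∂W := lintegral_mono key
    _ = _ := by rw [lintegral_const, measure_univ, mul_one]

private theorem ev_bd88 (hD : D.Ok) {W : Measure (Om d)} {K V C : ℝ} (hK0 : 0 ≤ K) (hKm : ∀ l ω θ, ‖D.Am l ω θ‖ ≤ K) (hV : V = 2 * π * K + 4)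
    (hV4 : 4 ≤ V) (hC0 : 0 < C)
    (hcore : ∀ (s ρ ε : ℝ) (A : ℕ → ℝ) (z : TT) (p : ℝ × ℝ) (q : TT → ℝ × ℝ),
      0 < s → s ≤ 1 → 0 < ρ → ρ ≤ 1 → 0 < ε → (∀ j, |A j| ≤ K) → Measurable q → 1 ≤ p.1 ^ 2 + p.2 ^ 2 →
      (∀ y, 1 ≤ (q y).1 ^ 2 + (q y).2 ^ 2) → ρ ≤ |sn z.1| → ρ ≤ |cs z.1| →
      ∫⁻ w0, ∫⁻ w1, ∫⁻ w2, {w : ℂ | bad3 A s ρ ε z p q w0 w1 w}.indicator 1 w2 ∂dl ∂dl ∂dl ≤
        ENNReal.ofReal (C * (s * ρ)⁻¹ ^ 4 * ε ^ ((1 : ℝ) / 8)))
    {l n : ℕ} (hW : Rs l W) (hi : D.iso l (2 * (n + 2))) (hs : D.s l ≤ 1) (θ : Td d) (hAr : ∀ ω : Om d, ∀ j, ‖Ar D ω θ j‖ ≤ K)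
    {ρ : ℝ} (hρ0 : 0 < ρ) (hρ1 : ρ ≤ 1) (t : ℝ) :
    (W.prod (volume : Measure TT)) {p : Om d × TT | t < ls88 (Ar D p.1 θ) p.2 (n + 2)} ≤
      ENNReal.ofReal (10 * ρ + (4 * C + 1) * (D.s l * ρ)⁻¹ ^ 4 * (16 * V ^ 3) ^ ((1 : ℝ) / 8) * Real.exp (-(1 / 8 * t))) := by
  have hWp := hW.prob
  have hs0 := s_pos88 hD l
  have hsρ : 0 < D.s l * ρ := mul_pos hs0 hρ0
  have hpm : Measurable fun p : Om d × TT => ((Ar D p.1 θ, p.2) : (ℕ → ℂ) × TT) :=
    ((Ar_meas88 hD θ).comp measurable_fst).prodMk measurable_snd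
  obtain ⟨ε, hε⟩ : ∃ ε : ℝ, ε = 16 * V ^ 3 * Real.exp (-t) := ⟨_, rfl⟩
  have hε0 : 0 < ε := by rw [hε]; positivity
  have hEm : ∀ i j : Fin 2, MeasurableSet {p : Om d × TT | Ev88 n i j ρ ε (Ar D p.1 θ) p.2} := fun i j =>
    hpm (Ev_meas88 n i j ρ ε)
  have hE : ∀ i j : Fin 2, (W.prod (volume : Measure TT)) {p : Om d × TT | Ev88 n i j ρ ε (Ar D p.1 θ) p.2} ≤
      ENNReal.ofReal (C * (D.s l * ρ)⁻¹ ^ 4 * ε ^ ((1 : ℝ) / 8)) := by
    intro i j
    rw [Measure.prod_apply_symm (hEm i j)]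
    have h1 : ∀ z : TT, W ((fun ω => (ω, z)) ⁻¹' {p : Om d × TT | Ev88 n i j ρ ε (Ar D p.1 θ) p.2}) ≤
        ENNReal.ofReal (C * (D.s l * ρ)⁻¹ ^ 4 * ε ^ ((1 : ℝ) / 8)) := by
      intro z
      have h2 := froz88 hD hKm hcore hW hi hs θ i j hρ0 hρ1 hε0 z
      have hms : MeasurableSet {ω : Om d | Ev88 n i j ρ ε (Ar D ω θ) z} :=
        ((Ar_meas88 hD θ).prodMk measurable_const) (Ev_meas88 n i j ρ ε)
      rw [lintegral_indicator_one hms] at h2
      exact h2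
    calc _ ≤ ∫⁻ _ : TT, ENNReal.ofReal (C * (D.s l * ρ)⁻¹ ^ 4 * ε ^ ((1 : ℝ) / 8)) := lintegral_mono h1
      _ = _ := by rw [lintegral_const, measure_univ, mul_one]
  obtain ⟨cs1, cs2⟩ := cut hρ0.le
  have c1 := cutE88 (W := W) hD θ (n + 1) Pool.Agent.Helper82.QR.sn_meas cs1
  have c2 := cutE88 (W := W) hD θ (n + 1) Pool.Agent.Helper82.QR.cs_meas cs2
  have c3 := cutE88 (W := W) hD θ (n + 2) Pool.Agent.Helper82.QR.sn_meas cs1
  have c4 := cutE88 (W := W) hD θ (n + 3) Pool.Agent.Helper82.QR.sn_meas cs1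
  have c5 := cutE88 (W := W) hD θ (n + 3) Pool.Agent.Helper82.QR.cs_meas cs2
  have hsub : {p : Om d × TT | t < ls88 (Ar D p.1 θ) p.2 (n + 2)} ⊆
      {p : Om d × TT | |sn (orb (Ar D p.1 θ) p.2 (n + 1)).1| < ρ} ∪
      ({p : Om d × TT | |cs (orb (Ar D p.1 θ) p.2 (n + 1)).1| < ρ} ∪
      ({p : Om d × TT | |sn (orb (Ar D p.1 θ) p.2 (n + 2)).1| < ρ} ∪
      ({p : Om d × TT | |sn (orb (Ar D p.1 θ) p.2 (n + 3)).1| < ρ} ∪
      ({p : Om d × TT | |cs (orb (Ar D p.1 θ) p.2 (n + 3)).1| < ρ} ∪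
      ({p : Om d × TT | Ev88 n 0 0 ρ ε (Ar D p.1 θ) p.2} ∪ ({p : Om d × TT | Ev88 n 0 1 ρ ε (Ar D p.1 θ) p.2} ∪
      ({p : Om d × TT | Ev88 n 1 0 ρ ε (Ar D p.1 θ) p.2} ∪ {p : Om d × TT | Ev88 n 1 1 ρ ε (Ar D p.1 θ) p.2}))))))) := by
    intro p hp
    simp only [mem_union, mem_ofPred_eq]
    simp only [mem_ofPred_eq] at hp
    by_contra hcon
    simp only [not_or, not_lt] at hcon
    obtain ⟨d1, d2, d3, d4, d5, f1, f2, f3, f4⟩ := hcon
    obtain ⟨i, j, hij⟩ := ls_ev88 hK0 (hAr p.1) p.2 n hp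
    rw [← hV, ← hε] at hij
    have hev : Ev88 n i j ρ ε (Ar D p.1 θ) p.2 := ⟨d1, d2, d3, d4, d5, hij⟩
    have hall : ∀ i j : Fin 2, ¬ Ev88 n i j ρ ε (Ar D p.1 θ) p.2 := by
      intro i j
      fin_cases i <;> fin_cases j
      · exact f1
      · exact f2
      · exact f3
      · exact f4
    exact hall i j hev
  refine (measure_mono hsub).trans ?_
  have hX0 : 0 ≤ C * (D.s l * ρ)⁻¹ ^ 4 * ε ^ ((1 : ℝ) / 8) := by positivity
  have hρ2 : 0 ≤ 2 * ρ := by positivity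
  have e8 : ε ^ ((1 : ℝ) / 8) = (16 * V ^ 3) ^ ((1 : ℝ) / 8) * Real.exp (-(1 / 8 * t)) := by
    rw [hε, Real.mul_rpow (by positivity) (Real.exp_pos _).le, ← Real.exp_mul]
    congr 2
    ring
  refine (measure_union_le _ _).trans ((add_le_add c1 ((measure_union_le _ _).trans (add_le_add c2
    ((measure_union_le _ _).trans (add_le_add c3 ((measure_union_le _ _).trans (add_le_add c4
    ((measure_union_le _ _).trans (add_le_add c5 ((measure_union_le _ _).trans (add_le_add (hE 0 0)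
    ((measure_union_le _ _).trans (add_le_add (hE 0 1) ((measure_union_le _ _).trans
    (add_le_add (hE 1 0) (hE 1 1)))))))))))))))).trans ?_)
  rw [← ENNReal.ofReal_add hX0 hX0, ← ENNReal.ofReal_add hX0 (by positivity), ← ENNReal.ofReal_add hX0 (by positivity),
    ← ENNReal.ofReal_add hρ2 (by positivity), ← ENNReal.ofReal_add hρ2 (by positivity),
    ← ENNReal.ofReal_add hρ2 (by positivity), ← ENNReal.ofReal_add hρ2 (by positivity),
    ← ENNReal.ofReal_add hρ2 (by positivity)]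
  apply ENNReal.ofReal_le_ofReal
  have hq : 0 ≤ (D.s l * ρ)⁻¹ ^ 4 * ((16 * V ^ 3) ^ ((1 : ℝ) / 8) * Real.exp (-(1 / 8 * t))) := by positivity
  rw [e8]
  nlinarith [hq]

private theorem lsA_meas88 (hD : D.Ok) (θ : Td d) (m : ℕ) : Measurable fun p : Om d × TT => ls88 (Ar D p.1 θ) p.2 m := by
  have hpm : Measurable fun p : Om d × TT => ((Ar D p.1 θ, p.2) : (ℕ → ℂ) × TT) :=
    ((Ar_meas88 hD θ).comp measurable_fst).prodMk measurable_snd
  have h := (ls_meas88 m).comp hpm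
  simp only [Function.comp_def] at h
  exact h

end junction

/-- exponential moment from an exponential tail -/
private lemma exp_mom88 {X : Type*} [MeasurableSpace X] {P : Measure X} [IsProbabilityMeasure P] {f : X → ℝ}
    (hf : Measurable f) (h0 : ∀ x, 0 ≤ f x) {C : ℝ} (hC : 0 ≤ C)
    (h : ∀ t : ℝ, 0 < t → P {x | t < f x} ≤ ENNReal.ofReal (C * Real.exp (-(t / 40)))) :
    ∫⁻ x, ENNReal.ofReal (Real.exp (f x / 80)) ∂P ≤ ENNReal.ofReal (C + 1) := by
  have hder : ∀ x : ℝ, ∫ t in (0 : ℝ)..x, (1 / 80) * Real.exp (t / 80) = Real.exp (x / 80) - 1 := by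
    intro x
    have hd : ∀ t ∈ Set.uIcc 0 x, HasDerivAt (fun t : ℝ => Real.exp (t / 80)) ((1 / 80) * Real.exp (t / 80)) t := by
      intro t _
      have h1 : HasDerivAt (fun t : ℝ => t / 80) (1 / 80) t := (hasDerivAt_id t).div_const 80
      have h2 := h1.exp
      rw [mul_comm] at h2
      exact h2
    rw [intervalIntegral.integral_eq_sub_of_hasDerivAt hd]
    · norm_num
    · exact (Continuous.intervalIntegrable (by fun_prop) _ _)
  have h1 := lintegral_comp_eq_lintegral_meas_lt_mul (g := fun t : ℝ => (1 / 80) * Real.exp (t / 80)) P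
    (Filter.Eventually.of_forall h0) hf.aemeasurable
    (fun t _ => Continuous.intervalIntegrable (by fun_prop) _ _)
    (Filter.Eventually.of_forall fun t => by positivity)
  have h2 : ∀ x, ENNReal.ofReal (Real.exp (f x / 80)) =
      ENNReal.ofReal (∫ t in (0 : ℝ)..f x, (1 / 80) * Real.exp (t / 80)) + 1 := by
    intro x
    rw [hder, ← ENNReal.ofReal_one, ← ENNReal.ofReal_add _ zero_le_one]
    · congr 1; ring
    · have := Real.one_le_exp (div_nonneg (h0 x) (by norm_num : (0:ℝ) ≤ 80))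
      linarith
  have hI : ∫⁻ t in Ioi (0 : ℝ), ENNReal.ofReal ((1 / 80) * Real.exp (-(t / 80))) = 1 := by
    have h3 : ∫ t in Ioi (0 : ℝ), (1 / 80) * Real.exp (-(t / 80)) = 1 := by
      have h4 := integral_exp_mul_Ioi (a := -(1 / 80 : ℝ)) (by norm_num) 0
      rw [integral_const_mul]
      have h5 : (fun t : ℝ => Real.exp (-(t / 80))) = fun t : ℝ => Real.exp (-(1 / 80) * t) := by
        funext t; congr 1; ring
      rw [h5, h4]
      norm_num
    rw [← ofReal_integral_eq_lintegral_ofReal, h3, ENNReal.ofReal_one]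
    · have h5 := integrableOn_exp_mul_Ioi (a := -(1 / 80 : ℝ)) (by norm_num) 0
      have h6 : (fun t : ℝ => (1 / 80) * Real.exp (-(t / 80))) = fun t : ℝ => (1 / 80) * Real.exp (-(1 / 80) * t) := by
        funext t; congr 2; ring
      rw [h6]
      exact h5.const_mul _
    · exact Filter.Eventually.of_forall fun t => by positivity
  calc ∫⁻ x, ENNReal.ofReal (Real.exp (f x / 80)) ∂P
      = ∫⁻ x, (ENNReal.ofReal (∫ t in (0 : ℝ)..f x, (1 / 80) * Real.exp (t / 80)) + 1) ∂P := lintegral_congr h2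
    _ = (∫⁻ t in Ioi (0 : ℝ), P {x | t < f x} * ENNReal.ofReal ((1 / 80) * Real.exp (t / 80))) + 1 := by
        rw [lintegral_add_right _ measurable_const, h1, lintegral_const, measure_univ, one_mul]
    _ ≤ (∫⁻ t in Ioi (0 : ℝ), ENNReal.ofReal C * ENNReal.ofReal ((1 / 80) * Real.exp (-(t / 80)))) + 1 := by
        gcongr ?_ + 1
        refine setLIntegral_mono' measurableSet_Ioi fun t ht => ?_
        refine (mul_le_mul_left (h t ht) _).trans ?_
        rw [← ENNReal.ofReal_mul (by positivity), ← ENNReal.ofReal_mul hC]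
        apply ENNReal.ofReal_le_ofReal
        refine le_of_eq ?_
        have e : Real.exp (-(t / 80)) = Real.exp (-(t / 40)) * Real.exp (t / 80) := by
          rw [← Real.exp_add]; congr 1; ring
        rw [e]; ring
    _ = ENNReal.ofReal C * 1 + 1 := by
        rw [lintegral_const_mul _ (by fun_prop), hI]
    _ = ENNReal.ofReal (C + 1) := by
        rw [mul_one, ENNReal.ofReal_add hC zero_le_one, ENNReal.ofReal_one]

/-- the loss is the loss of the sequence of amplitudes -/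
private lemma los_eq88 {d : ℕ} (D : Dat d) (m : ℕ) (ω : Om d) (θ : Td d) (z : TT) : los D m ω θ z = ls88 (Ar D ω θ) z m := by
  unfold los ls88
  rw [Ar_add]

theorem tailW (K : ℝ) (hK : 0 ≤ K) : ∃ C : ℝ, 0 < C ∧ ∀ (d : ℕ) (D : Dat d) (W : Measure (Om d)) (l m : ℕ), D.Ok →
    (∀ ω θ, ‖D.A ω θ‖ ≤ K) → (∀ l ω θ, ‖D.Am l ω θ‖ ≤ K) → Rs l W → 2 ≤ m → D.iso l (2 * m) → D.s l ≤ 1 →
    ∀ (θ : Td d) (t : ℝ), 0 < t → (W.prod volume) {x : Om d × TT | t < los D m x.1 θ x.2} ≤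
      ENNReal.ofReal (C * (D.s l)⁻¹ ^ 4 * Real.exp (-(t / 40))) := by
  obtain ⟨C, hC0, hcore⟩ := core K hK
  obtain ⟨V, hV⟩ : ∃ V : ℝ, V = 2 * π * K + 4 := ⟨_, rfl⟩
  have hV4 : 4 ≤ V := by
    rw [hV]
    have : 0 ≤ 2 * π * K := by positivity
    linarith
  refine ⟨10 + (4 * C + 1) * (16 * V ^ 3) ^ ((1 : ℝ) / 8), by positivity, ?_⟩
  intro d D W l m hD hA hAm hW hm hi hs θ t ht
  obtain ⟨n, rfl⟩ : ∃ n, m = n + 2 := ⟨m - 2, by omega⟩
  have hs0 := s_pos88 hD l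
  obtain ⟨ρ, hρ⟩ : ∃ ρ : ℝ, ρ = Real.exp (-(t / 40)) := ⟨_, rfl⟩
  have hρ0 : 0 < ρ := by rw [hρ]; exact Real.exp_pos _
  have hρ1 : ρ ≤ 1 := by
    rw [hρ]
    exact Real.exp_le_one_iff.2 (by linarith)
  have h1 := ev_bd88 hD hK hAm hV hV4 hC0 hcore hW hi hs θ (Ar_bd88 hA · θ) hρ0 hρ1 t
  have e1 : {x : Om d × TT | t < los D (n + 2) x.1 θ x.2} = {x : Om d × TT | t < ls88 (Ar D x.1 θ) x.2 (n + 2)} := by
    ext x
    rw [mem_ofPred_eq, mem_ofPred_eq, los_eq88]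
  rw [e1]
  refine h1.trans (ENNReal.ofReal_le_ofReal ?_)
  have hsi : 1 ≤ (D.s l)⁻¹ := (one_le_inv₀ hs0).2 hs
  have hs4 : 1 ≤ (D.s l)⁻¹ ^ 4 := one_le_pow₀ hsi
  have e2 : (D.s l * ρ)⁻¹ ^ 4 * Real.exp (-(1 / 8 * t)) = (D.s l)⁻¹ ^ 4 * ρ := by
    rw [mul_inv, mul_pow, hρ, ← Real.exp_neg, ← Real.exp_nat_mul, mul_assoc, ← Real.exp_add]
    congr 2
    push_cast
    ring
  have e3 : (4 * C + 1) * (D.s l * ρ)⁻¹ ^ 4 * (16 * V ^ 3) ^ ((1 : ℝ) / 8) * Real.exp (-(1 / 8 * t)) =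
      (4 * C + 1) * (16 * V ^ 3) ^ ((1 : ℝ) / 8) * ((D.s l)⁻¹ ^ 4 * ρ) := by
    rw [← e2]
    ring
  rw [e3, ← hρ]
  have h5 : ρ ≤ (D.s l)⁻¹ ^ 4 * ρ := le_mul_of_one_le_left hρ0.le hs4
  have h6 : (10 + (4 * C + 1) * (16 * V ^ 3) ^ ((1 : ℝ) / 8)) * (D.s l)⁻¹ ^ 4 * ρ =
      10 * ((D.s l)⁻¹ ^ 4 * ρ) + (4 * C + 1) * (16 * V ^ 3) ^ ((1 : ℝ) / 8) * ((D.s l)⁻¹ ^ 4 * ρ) := by ring
  rw [h6]
  linarith

/-- Jensen -/
private lemma jen88 {f : TT → ℝ} (hf : Measurable f) {B : ℝ} (h0 : ∀ z, 0 ≤ f z) (hB : ∀ z, f z ≤ B) :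
    ENNReal.ofReal (Real.exp ((∫ z, f z) / 80)) ≤ ∫⁻ z, ENNReal.ofReal (Real.exp (f z / 80)) := by
  have hbd : ∀ z, ‖f z / 80‖ ≤ B := by
    intro z
    have h2 := h0 z
    have h3 := hB z
    rw [Real.norm_eq_abs, abs_of_nonneg (div_nonneg h2 (by norm_num))]
    linarith
  have hint1 : Integrable (fun z : TT => f z / 80) :=
    Integrable.of_bound (hf.div_const 80).aestronglyMeasurable _ (Filter.Eventually.of_forall hbd)
  have hint2 : Integrable (fun z : TT => Real.exp (f z / 80)) := by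
    refine Integrable.of_bound (Real.measurable_exp.comp (hf.div_const 80)).aestronglyMeasurable (Real.exp B) ?_
    refine Filter.Eventually.of_forall fun z => ?_
    rw [Real.norm_eq_abs, abs_of_pos (Real.exp_pos _)]
    exact Real.exp_le_exp.2 ((le_abs_self _).trans (hbd z))
  have h4 := ConvexOn.map_integral_le (μ := (volume : Measure TT)) (s := Set.univ) (g := Real.exp)
    (f := fun z : TT => f z / 80) convexOn_exp Real.continuous_exp.continuousOn isClosed_univ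
    (Filter.Eventually.of_forall fun _ => mem_univ _) hint1 hint2
  rw [integral_div] at h4
  refine (ENNReal.ofReal_le_ofReal h4).trans (le_of_eq ?_)
  exact ofReal_integral_eq_lintegral_ofReal hint2 (Filter.Eventually.of_forall fun z => (Real.exp_pos _).le)

/-- exponential moment of the mean over the second variable -/
private lemma jenI88 {d : ℕ} {W : Measure (Om d)} [IsProbabilityMeasure W] {f : Om d × TT → ℝ} (hf : Measurable f) {B : ℝ}
    (h0 : ∀ x, 0 ≤ f x) (hB : ∀ x, f x ≤ B) :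
    ∫⁻ ω, ENNReal.ofReal (Real.exp ((∫ z, f (ω, z)) / 80)) ∂W ≤
      ∫⁻ x, ENNReal.ofReal (Real.exp (f x / 80)) ∂(W.prod (volume : Measure TT)) := by
  have hE := ENNReal.measurable_ofReal.comp (Real.measurable_exp.comp (hf.div_const 80))
  simp only [Function.comp_def] at hE
  rw [lintegral_prod _ hE.aemeasurable]
  refine lintegral_mono fun ω => ?_
  exact jen88 (hf.comp (measurable_const.prodMk measurable_id)) (fun z => h0 _) (fun z => hB _)

theorem expW (K : ℝ) (hK : 0 ≤ K) : ∃ C : ℝ, 1 ≤ C ∧ ∀ (d : ℕ) (D : Dat d) (W : Measure (Om d)) (l m : ℕ), D.Ok →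
    (∀ ω θ, ‖D.A ω θ‖ ≤ K) → (∀ l ω θ, ‖D.Am l ω θ‖ ≤ K) → Rs l W → 2 ≤ m → D.iso l (2 * m) → D.s l ≤ 1 → ∀ θ : Td d,
    ∫⁻ ω, ENNReal.ofReal (Real.exp ((∫ z, los D m ω θ z) / 80)) ∂W ≤ ENNReal.ofReal (C * (D.s l)⁻¹ ^ 4) := by
  obtain ⟨C, hC, h⟩ := tailW K hK
  refine ⟨C + 1, by linarith, fun d D W l m hD hA hAm hW hm hi hs θ => ?_⟩
  have hWp := hW.prob
  have hs0 := s_pos88 hD l
  have hg : Measurable (fun x : Om d × TT => ((x.1, (θ, x.2)) : Om d × (Td d × TT))) :=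
    measurable_fst.prodMk (measurable_const.prodMk measurable_snd)
  have hX := (los_meas hD m).comp hg
  simp only [Function.comp_def] at hX
  have hsi : 1 ≤ (D.s l)⁻¹ := (one_le_inv₀ hs0).2 hs
  have hs4 : 1 ≤ (D.s l)⁻¹ ^ 4 := one_le_pow₀ hsi
  have h1 := exp_mom88 (P := W.prod (volume : Measure TT)) hX (fun x => los_nonneg D m x.1 θ x.2)
    (C := C * (D.s l)⁻¹ ^ 4) (mul_nonneg hC.le (zero_le_one.trans hs4)) (fun t ht => h d D W l m hD hA hAm hW hm hi hs θ t ht)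
  have h2 := jenI88 (W := W) hX (fun x => los_nonneg D m x.1 θ x.2) (fun x => los_le hK hA m x.1 θ x.2)
  refine h2.trans (h1.trans ?_)
  apply ENNReal.ofReal_le_ofReal
  have h3 : (C + 1) * (D.s l)⁻¹ ^ 4 = C * (D.s l)⁻¹ ^ 4 + (D.s l)⁻¹ ^ 4 := by ring
  rw [h3]
  linarith

end Pool.Agent.Helper46.QA
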