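import Pool.Agent.Helper46.QA.Fam
import Pool.Agent.Helper46.QA.Tail
import Pool.Agent.Helper46.QA.Conc
import Pool.Agent.Helper46.QA.Lip
import Pool.Agent.Helper46.QA.Net
import Pool.Agent.Helper46.QA.RatesA

/-! Block QA-ALLL: the loss at the junction for all parameters at once.

`m = 2^i`, `φ ω θ = ∫ z, los D_u m ω θ z ≥ 0`, local for the orbits of length `2 m` (`los` is a function of the amplitudes of the times `< 2 m`: `Ar_add`, `loc_of`). `expW` (for `wl l η`, `wl_rs`): the mean of `exp (φ / 80)` is at most `E = C s⁻⁴ ≤ C R⁴ NN^(4b)`, `log E ≤ C' (i + 1)`. `conc_exp` with `lam = 1/80` and the `M` points of `pts` (`n = 2m`), Markov: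
`wl l η {ω | 80 (log E + 1) < ∫ θ, φ ω θ} ≤ exp (- M (log E + 1)) E^M = exp (-M)`, `M ≥ c 2^((1+δ) i)`. `net` with `bad i u = {ω | 80 (log E + 1) + 1 < ∫ φ_u}`: `|los_u - los_u'| ≤ 3 Λ^(2m) K' |u - u'| + ...` by `lip_orb` (three logarithms; in the second one the starting point `orb .. z m` moves by `Λ^m δ`: `lip_orb` allows different starting points). A larger `Λ` is harmless. -/

set_option autoImplicit false
open MeasureTheory Real Set Filter Topology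
open scoped ENNReal

namespace Pool.Agent.Helper46.QA

open Pool.Agent.Helper18.UC (nn)
open Pool.Agent.Helper18.FD (NN rr)
open Pool.Agent.Helper46.QP Pool.Agent.Helper46.QR

variable {d : ℕ} {D : Dat d} {k : ℕ} {e : Fin k → Td d → ℝ} {R : ℝ}

private theorem orb_cg57 {A A' : ℕ → ℂ} (z : TT) {n : ℕ} (h : ∀ j < n, A j = A' j) : orb A z n = orb A' z n := by
  induction n with
  | zero => rfl
  | succ n ih =>
    rw [orb_succ, orb_succ, ih fun j hj => h j (Nat.lt_succ_of_lt hj), h n (Nat.lt_succ_self n)]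

private theorem Mx_cg57 {A A' : ℕ → ℂ} (z : TT) {n : ℕ} (h : ∀ j < n, A j = A' j) : Mx A z n = Mx A' z n := by
  induction n with
  | zero => rfl
  | succ n ih =>
    rw [Mx_succ, Mx_succ, ih fun j hj => h j (Nat.lt_succ_of_lt hj), h n (Nat.lt_succ_self n),
      orb_cg57 z fun j hj => h j (Nat.lt_succ_of_lt hj)]

/-- the mean of the loss over the fibre -/
private noncomputable def ph57 (D : Dat d) (m : ℕ) (ω : Om d) (θ : Td d) : ℝ := ∫ z, los D m ω θ z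

private theorem ph_loc57 (hD : D.Ok) (l m : ℕ) : Loc D l (2 * m) (ph57 D m) := by
  have h := loc_of (l := l) (n := 2 * m) hD (Φ := fun A _ => ∫ z, (Real.log (nn (Mx A z m)) +
    Real.log (nn (Mx (fun j => A (j + m)) (orb A z m) m)) - Real.log (nn (Mx A z (2 * m))))) ?_
  · intro θ ω ω' hω
    have h1 := h θ ω ω' hω
    unfold ph57 los
    rw [← Ar_add, ← Ar_add]
    exact h1
  · intro θ A A' hA
    show (∫ z, _) = ∫ z, _
    congr 1
    funext z
    rw [Mx_cg57 z (A := A) (A' := A') (n := m) fun j hj => hA j (by omega),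
      orb_cg57 z (A := A) (A' := A') (n := m) fun j hj => hA j (by omega),
      Mx_cg57 z (A := A) (A' := A') (n := 2 * m) hA,
      Mx_cg57 (orb A' z m) (A := fun j => A (j + m)) (A' := fun j => A' (j + m)) (n := m) fun j hj => hA _ (by omega)]

private theorem ph_meas57 (hD : D.Ok) (m : ℕ) : Measurable fun x : Om d × Td d => ph57 D m x.1 x.2 := by
  have h1 := los_meas hD m
  have h2 : StronglyMeasurable (Function.uncurry fun (x : Om d × Td d) (z : TT) => los D m x.1 x.2 z) := by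
    apply Measurable.stronglyMeasurable
    exact h1.comp (g := fun y : Om d × (Td d × TT) => los D m y.1 y.2.1 y.2.2)
      (f := fun y : (Om d × Td d) × TT => (y.1.1, (y.1.2, y.2))) (by fun_prop)
  exact (h2.integral_prod_right (ν := volume)).measurable

private theorem ph_bd57 {K : ℝ} (hK0 : 0 ≤ K) (hK : ∀ ω θ, ‖D.A ω θ‖ ≤ K) (m : ℕ) (ω : Om d) (θ : Td d) :
    |ph57 D m ω θ| ≤ 2 * (Real.log 2 + m * Real.log (2 * π * K + 4)) := by
  have h0 : 0 ≤ ph57 D m ω θ := integral_nonneg fun z => los_nonneg D m ω θ z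
  rw [abs_of_nonneg h0]
  have h1 : ph57 D m ω θ ≤ ∫ _z : TT, 2 * (Real.log 2 + m * Real.log (2 * π * K + 4)) :=
    integral_mono_of_nonneg (ae_of_all _ fun z => los_nonneg D m ω θ z) (integrable_const _)
      (ae_of_all _ fun z => los_le hK0 hK m ω θ z)
  simpa using h1

private theorem int_sub57 {X : Type*} [MeasurableSpace X] {μ : Measure X} [IsProbabilityMeasure μ] {f g : X → ℝ}
    (hf : Measurable f) (hg : Measurable g) {B ε : ℝ} (hfB : ∀ x, |f x| ≤ B) (hgB : ∀ x, |g x| ≤ B)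
    (h : ∀ x, |f x - g x| ≤ ε) : |∫ x, f x ∂μ - ∫ x, g x ∂μ| ≤ ε := by
  have h1 : Integrable f μ := Integrable.of_bound hf.aestronglyMeasurable B (ae_of_all _ hfB)
  have h2 : Integrable g μ := Integrable.of_bound hg.aestronglyMeasurable B (ae_of_all _ hgB)
  rw [← integral_sub h1 h2]
  have h3 := norm_integral_le_of_norm_le_const (μ := μ) (f := fun x => f x - g x) (C := ε) (ae_of_all _ h)
  simpa using h3

private theorem los_lip57 {K K' Λ : ℝ} (hK' : 0 ≤ K') (hΛ1 : 1 ≤ Λ)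
    (hΛ : ∀ (A A' : ℕ → ℝ) (δ : ℝ), 0 ≤ δ → (∀ j, |A j| ≤ K) → (∀ j, |A' j| ≤ K) →
      (∀ j, |A j - A' j| ≤ δ) → ∀ (z z' : TT), dist z z' ≤ δ → ∀ n : ℕ,
      dist (orb (fun j => (A j : ℂ)) z n) (orb (fun j => (A' j : ℂ)) z' n) ≤ Λ ^ n * δ ∧
      |Real.log (nn (Mx (fun j => (A j : ℂ)) z n)) - Real.log (nn (Mx (fun j => (A' j : ℂ)) z' n))| ≤ Λ ^ n * δ)
    {u u' : Fin (k + 1) → ℝ} (hu : ∀ ω θ, ‖(fam D e u).A ω θ‖ ≤ K) (hu' : ∀ ω θ, ‖(fam D e u').A ω θ‖ ≤ K)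
    (hd : ∀ ω θ, ‖(fam D e u).A ω θ - (fam D e u').A ω θ‖ ≤ K' * dist u u') (m : ℕ) (ω : Om d) (θ : Td d) (z : TT) :
    |los (fam D e u) m ω θ z - los (fam D e u') m ω θ z| ≤ 3 * (Λ ^ (2 * m) * (K' * dist u u')) := by
  obtain ⟨δ, hδ⟩ : ∃ δ : ℝ, δ = K' * dist u u' := ⟨_, rfl⟩
  rw [← hδ] at hd ⊢
  have hδ0 : 0 ≤ δ := by rw [hδ]; positivity
  have hΛm : 1 ≤ Λ ^ m := one_le_pow₀ hΛ1
  have a1 : ∀ θ j, |ar (fam D e u) ω θ j| ≤ K := fun θ j => (Complex.abs_re_le_norm _).trans (hu ω _)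
  have a2 : ∀ θ j, |ar (fam D e u') ω θ j| ≤ K := fun θ j => (Complex.abs_re_le_norm _).trans (hu' ω _)
  have a3 : ∀ θ j, |ar (fam D e u) ω θ j - ar (fam D e u') ω θ j| ≤ δ := by
    intro θ j
    have h1 := hd ω (θ + j • D.α)
    refine le_trans ?_ h1
    have h2 := Complex.abs_re_le_norm ((fam D e u).A ω (θ + j • D.α) - (fam D e u').A ω (θ + j • D.α))
    rw [Complex.sub_re] at h2
    exact h2
  have b1 := hΛ (ar (fam D e u) ω θ) (ar (fam D e u') ω θ) δ hδ0 (a1 θ) (a2 θ) (a3 θ) z z (by rw [dist_self]; exact hδ0) m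
  have b3 := hΛ (ar (fam D e u) ω θ) (ar (fam D e u') ω θ) δ hδ0 (a1 θ) (a2 θ) (a3 θ) z z (by rw [dist_self]; exact hδ0) (2 * m)
  have hδ2 : δ ≤ Λ ^ m * δ := le_mul_of_one_le_left hδ0 hΛm
  have b2 := hΛ (ar (fam D e u) ω (θ + m • D.α)) (ar (fam D e u') ω (θ + m • D.α)) (Λ ^ m * δ) (hδ0.trans hδ2)
    (a1 _) (a2 _) (fun j => (a3 _ j).trans hδ2) _ _ b1.1 m
  have c1 := abs_le.1 b1.2
  have c2 := abs_le.1 b2.2
  have c3 := abs_le.1 b3.2
  have e2 : Λ ^ (2 * m) = Λ ^ m * Λ ^ m := by rw [two_mul, pow_add]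
  rw [e2] at c3 ⊢
  have e3 : Λ ^ m * δ ≤ Λ ^ m * Λ ^ m * δ := by
    rw [mul_assoc]
    exact le_mul_of_one_le_left (hδ0.trans hδ2) hΛm
  have e4 : Λ ^ m * (Λ ^ m * δ) = Λ ^ m * Λ ^ m * δ := by ring
  rw [e4] at c2
  have hlos : ∀ v : Fin (k + 1) → ℝ, los (fam D e v) m ω θ z =
      Real.log (nn (Mx (fun j => ((ar (fam D e v) ω θ j : ℝ) : ℂ)) z m)) +
      Real.log (nn (Mx (fun j => ((ar (fam D e v) ω (θ + m • D.α) j : ℝ) : ℂ))
        (orb (fun j => ((ar (fam D e v) ω θ j : ℝ) : ℂ)) z m) m)) -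
      Real.log (nn (Mx (fun j => ((ar (fam D e v) ω θ j : ℝ) : ℂ)) z (2 * m))) := fun v => rfl
  rw [hlos u, hlos u', abs_le]
  constructor
  · linarith [c1.1, c2.1, c3.2]
  · linarith [c1.2, c2.2, c3.1]

/-- one parameter, one level -/
private theorem one57 {K C₀ : ℝ} (hK0 : 0 ≤ K)
    (hE : ∀ (d : ℕ) (D : Dat d) (W : Measure (Om d)) (l m : ℕ), D.Ok →
    (∀ ω θ, ‖D.A ω θ‖ ≤ K) → (∀ l ω θ, ‖D.Am l ω θ‖ ≤ K) → Rs l W → 2 ≤ m → D.iso l (2 * m) → D.s l ≤ 1 → ∀ θ : Td d,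
    ∫⁻ ω, ENNReal.ofReal (Real.exp ((∫ z, los D m ω θ z) / 80)) ∂W ≤ ENNReal.ofReal (C₀ * (D.s l)⁻¹ ^ 4))
    {d : ℕ} {D : Dat d} (hD : D.Ok) (hK : ∀ ω θ, ‖D.A ω θ‖ ≤ K) (hKm : ∀ l ω θ, ‖D.Am l ω θ‖ ≤ K) {l m : ℕ}
    (hm : 2 ≤ m) (hi : D.iso l (2 * m)) (hs : D.s l ≤ 1) {M : ℕ} {β : Fin M → Td d} (hM : 1 ≤ M) (hβ : Sep D l (2 * m) M β)
    {E : ℝ} (hE1 : 0 < E) (hE2 : C₀ * (D.s l)⁻¹ ^ 4 ≤ E) :
    law d {ω | 80 * (Real.log E + 1) < ∫ θ, ph57 D m ω θ} ≤ ENNReal.ofReal (Real.exp (-(M : ℝ))) := by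
  have hmeas := ph_meas57 hD m
  have hX : Measurable fun ω : Om d => ∫ θ, ph57 D m ω θ := by
    have h2 : StronglyMeasurable (Function.uncurry fun (ω : Om d) (θ : Td d) => ph57 D m ω θ) := hmeas.stronglyMeasurable
    exact (h2.integral_prod_right (ν := volume)).measurable
  refine wl_le l (measurableSet_lt measurable_const hX) fun η => ?_
  have h1 := conc_exp hβ hM hmeas (ph_loc57 hD l m) (ph_bd57 hK0 hK m) η (lam := 1 / 80) hE1.le fun θ => by
    refine le_trans (le_of_eq ?_) ((hE d D (wl l η) l m hD hK hKm (wl_rs l η) hm hi hs θ).trans (ENNReal.ofReal_le_ofReal hE2))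
    refine lintegral_congr fun ω => ?_
    rw [one_div_mul_eq_div]
    rfl
  obtain ⟨x, hx⟩ : ∃ x : ℝ, x = Real.exp (M * (Real.log E + 1)) := ⟨_, rfl⟩
  have hx0 : 0 < x := by rw [hx]; exact Real.exp_pos _
  have hM0 : (0 : ℝ) < M := by exact_mod_cast hM
  have h2 := meas_ge_le_lintegral_div (μ := wl l η)
    (f := fun ω => ENNReal.ofReal (Real.exp (1 / 80 * M * ∫ θ, ph57 D m ω θ))) (ε := ENNReal.ofReal x)
    ((Real.measurable_exp.comp (hX.const_mul (1 / 80 * (M : ℝ)))).ennreal_ofReal.aemeasurable)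
    (by rw [Ne, ENNReal.ofReal_eq_zero, not_le]; exact hx0) ENNReal.ofReal_ne_top
  refine (measure_mono ?_).trans (h2.trans ?_)
  · intro ω hω
    rw [Set.mem_ofPred_eq] at hω ⊢
    apply ENNReal.ofReal_le_ofReal
    rw [hx]
    apply Real.exp_le_exp.2
    have h3 := mul_le_mul_of_nonneg_left hω.le (by positivity : (0 : ℝ) ≤ 1 / 80 * M)
    linarith
  · refine (ENNReal.div_le_div_right h1 _).trans ?_
    rw [← ENNReal.ofReal_div_of_pos hx0]
    apply ENNReal.ofReal_le_ofReal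
    rw [div_le_iff₀ hx0, hx, ← Real.exp_add]
    have h4 : E ^ M = Real.exp (M * Real.log E) := by
      rw [← Real.log_pow, Real.exp_log (pow_pos hE1 M)]
    rw [h4]
    apply Real.exp_le_exp.2
    linarith

theorem all_los (hD : D.Ok) (hb : D.b < d / 4)
    (hα : ∀ τ : ℝ, 1 / (d : ℝ) < τ → ∃ c : ℝ, 0 < c ∧ ∀ k : ℕ, 1 ≤ k → c * (k : ℝ) ^ (-τ) ≤ ‖k • D.α‖)
    (he : ∀ i, Continuous (e i)) (hR : 1 ≤ R) :
    ∃ C : ℝ, 0 < C ∧ ∀ᵐ ω ∂law d, ∃ i₁ : ℕ, ∀ i ≥ i₁, ∀ u ∈ Bx k R,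
      ∫ p : Td d × TT, los (fam D e u) (2 ^ i) ω p.1 p.2 ≤ C * (i + 1) := by
  obtain ⟨L, C1, c, δ, hC1, hc, hδ, hiso, htend, hlog, -, hN⟩ := ratesA hD hb hα
  obtain ⟨K, hK0, hKb⟩ := fam_bd (D := D) (k := k) (e := e) hD he hR
  obtain ⟨K', hK'0, hKl⟩ := fam_lip (D := D) (k := k) (e := e) hD he
  obtain ⟨C₀, hC₀, hE⟩ := expW K hK0
  obtain ⟨Λ, hΛ1, hΛ⟩ := lip_orb K hK0
  have hR0 : 0 < R := lt_of_lt_of_le one_pos hR
  obtain ⟨x, hx⟩ : ∃ x : ℕ → ℝ, ∀ i, x i = (NN (L i) : ℝ) ^ (-D.b) := ⟨_, fun _ => rfl⟩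
  have hNN0 : ∀ l : ℕ, (0 : ℝ) < NN l := by
    intro l
    have : 0 < NN l := by
      unfold Pool.Agent.Helper18.FD.NN
      positivity
    exact_mod_cast this
  have hx0 : ∀ i, 0 < x i := fun i => by rw [hx]; exact Real.rpow_pos_of_pos (hNN0 _) _
  simp only [← hx] at htend hlog
  obtain ⟨E, hEd⟩ : ∃ E : ℕ → ℝ, ∀ i, E i = C₀ * (R * (x i)⁻¹) ^ 4 := ⟨_, fun _ => rfl⟩
  have hE0 : ∀ i, 0 < E i := fun i => by
    rw [hEd]
    have := hx0 i
    positivity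
  have hlogE : ∀ i : ℕ, Real.log (E i) ≤ (|Real.log C₀| + 4 * |Real.log R| + 4 * C1) * (i + 1) := by
    intro i
    have h1 := hlog i
    rw [one_div] at h1
    have hxi : 0 < (x i)⁻¹ := inv_pos.2 (hx0 i)
    rw [hEd, Real.log_mul (by positivity) (by positivity), Real.log_pow, Real.log_mul hR0.ne' hxi.ne']
    have h2 := le_abs_self (Real.log C₀)
    have h3 := le_abs_self (Real.log R)
    have h4 : (1 : ℝ) ≤ i + 1 := by
      have := Nat.cast_nonneg (α := ℝ) i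
      linarith
    have h5 : |Real.log C₀| ≤ |Real.log C₀| * (i + 1) := le_mul_of_one_le_right (abs_nonneg _) h4
    have h6 : |Real.log R| ≤ |Real.log R| * (i + 1) := le_mul_of_one_le_right (abs_nonneg _) h4
    push_cast
    nlinarith
  -- the points
  have hp := fun i : ℕ => pts D hD.hd (L i) (2 * 2 ^ i) (by
    have : 1 ≤ 2 ^ i := Nat.one_le_two_pow
    omega)
  choose M β hM1 hM2 hM3 using hp
  -- the level from which on the noise is small
  obtain ⟨i₀, hi₀⟩ : ∃ i₀ : ℕ, ∀ i ≥ i₀, R * x i ≤ 1 := by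
    have h1 : Tendsto (fun i => R * x i) atTop (𝓝 (R * 0)) := htend.const_mul R
    rw [mul_zero] at h1
    have h2 := h1.eventually (gt_mem_nhds one_pos)
    obtain ⟨i₀, h3⟩ := eventually_atTop.1 h2
    exact ⟨i₀, fun i hi => (h3 i hi).le⟩
  obtain ⟨bd, hbd⟩ : ∃ bd : ℕ → (Fin (k + 1) → ℝ) → Om d → ℝ, ∀ i u ω, bd i u ω = ∫ θ, ph57 (fam D e u) (2 ^ i) ω θ :=
    ⟨_, fun _ _ _ => rfl⟩
  have hnet := net (P := law d) (Bx_bd k R) (bad := fun i u => {ω | 80 * (Real.log (E i) + 1) + 1 < bd i u ω})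
    (bad' := fun i u => {ω | 80 * (Real.log (E i) + 1) < bd i u ω}) (Λ := Λ ^ 2) (δ₀ := 1 / (3 * (K' + 1))) (C := 1)
    (c := c / (4 * 4 ^ d)) (δ := δ) (i₀ := max i₀ 1) (one_le_pow₀ hΛ1) (by positivity) zero_le_one (by positivity) hδ ?_ ?_
  · refine ⟨80 * ((|Real.log C₀| + 4 * |Real.log R| + 4 * C1) + 1) + 1, by positivity, ?_⟩
    filter_upwards [hnet] with ω hω
    obtain ⟨i₁, hi₁⟩ := hω
    refine ⟨i₁, fun i hi u hu => ?_⟩
    have h1 := hi₁ i hi u hu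
    rw [not_lt, hbd] at h1
    have hok := fam_ok (D := D) (k := k) (e := e) hD he hR hu
    have hmeas := los_meas hok (2 ^ i)
    have h2 : ∫ p : Td d × TT, los (fam D e u) (2 ^ i) ω p.1 p.2 = ∫ θ, ph57 (fam D e u) (2 ^ i) ω θ := by
      unfold ph57
      rw [Measure.volume_eq_prod]
      refine integral_prod (μ := (volume : Measure (Td d))) (ν := (volume : Measure TT))
        (fun p : Td d × TT => los (fam D e u) (2 ^ i) ω p.1 p.2) ?_
      refine Integrable.of_bound (C := 2 * (Real.log 2 + (2 ^ i : ℕ) * Real.log (2 * π * K + 4))) ?_ (ae_of_all _ fun p => ?_)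
      · exact (hmeas.comp (g := fun y : Om d × (Td d × TT) => los (fam D e u) (2 ^ i) y.1 y.2.1 y.2.2)
          (f := fun y : Td d × TT => (ω, y)) (by fun_prop)).aestronglyMeasurable
      · rw [Real.norm_eq_abs, abs_of_nonneg (los_nonneg _ _ _ _ _)]
        exact los_le hK0 (hKb u hu).1 _ ω p.1 p.2
    rw [h2]
    refine h1.trans ?_
    have h3 := hlogE i
    have h4 : (1 : ℝ) ≤ i + 1 := by
      have := Nat.cast_nonneg (α := ℝ) i
      linarith
    nlinarith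
  · intro i _ u hu u' hu' hdist ω hω
    rw [Set.mem_ofPred_eq] at hω ⊢
    have hok := fam_ok (D := D) (k := k) (e := e) hD he hR hu
    have hok' := fam_ok (D := D) (k := k) (e := e) hD he hR hu'
    have hlip : ∀ θ z, |los (fam D e u) (2 ^ i) ω θ z - los (fam D e u') (2 ^ i) ω θ z| ≤ 1 := by
      intro θ z
      refine (los_lip57 hK'0 hΛ1 hΛ (hKb u hu).1 (hKb u' hu').1 (fun ω θ => hKl u u' ω θ) (2 ^ i) ω θ z).trans ?_
      rw [← pow_mul, le_div_iff₀ (by positivity)] at hdist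
      have h1 : 0 ≤ Λ ^ (2 * 2 ^ i) * dist u u' := by positivity
      nlinarith
    have hB : ∀ v ∈ Bx k R, ∀ θ z, |los (fam D e v) (2 ^ i) ω θ z| ≤ 2 * (Real.log 2 + (2 ^ i : ℕ) * Real.log (2 * π * K + 4)) := by
      intro v hv θ z
      rw [abs_of_nonneg (los_nonneg _ _ _ _ _)]
      exact los_le hK0 (hKb v hv).1 _ ω θ z
    have hmz : ∀ v ∈ Bx k R, ∀ θ, Measurable fun z => los (fam D e v) (2 ^ i) ω θ z := by
      intro v hv θ
      exact (los_meas (fam_ok (D := D) (k := k) (e := e) hD he hR hv) (2 ^ i)).comp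
        (g := fun y : Om d × (Td d × TT) => los (fam D e v) (2 ^ i) y.1 y.2.1 y.2.2)
        (f := fun z : TT => (ω, (θ, z))) (by fun_prop)
    have h1 : ∀ θ, |ph57 (fam D e u) (2 ^ i) ω θ - ph57 (fam D e u') (2 ^ i) ω θ| ≤ 1 := fun θ =>
      int_sub57 (μ := (volume : Measure TT)) (hmz u hu θ) (hmz u' hu' θ) (hB u hu θ) (hB u' hu' θ) (hlip θ)
    have hmθ : ∀ v ∈ Bx k R, Measurable fun θ => ph57 (fam D e v) (2 ^ i) ω θ := by
      intro v hv
      exact (ph_meas57 (fam_ok (D := D) (k := k) (e := e) hD he hR hv) (2 ^ i)).comp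
        (g := fun y : Om d × Td d => ph57 (fam D e v) (2 ^ i) y.1 y.2) (f := fun θ : Td d => (ω, θ)) (by fun_prop)
    have h2 : |bd i u ω - bd i u' ω| ≤ 1 := by
      rw [hbd, hbd]
      exact int_sub57 (μ := (volume : Measure (Td d))) (hmθ u hu) (hmθ u' hu')
        (fun θ => ph_bd57 hK0 (hKb u hu).1 (2 ^ i) ω θ) (fun θ => ph_bd57 hK0 (hKb u' hu').1 (2 ^ i) ω θ) h1
    have h3 := (abs_le.1 h2).2
    linarith
  · intro i hi u hu
    have hi0 : i₀ ≤ i := (le_max_left _ _).trans hi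
    have hi1 : 1 ≤ i := (le_max_right _ _).trans hi
    have hok := fam_ok (D := D) (k := k) (e := e) hD he hR hu
    have hu0 : 0 < u 0 := lt_of_lt_of_le (by positivity) hu.2
    have huR : u 0 ≤ R := (le_abs_self _).trans ((norm_le_pi_norm u 0).trans hu.1)
    have hm : 2 ≤ 2 ^ i := by
      calc 2 = 2 ^ 1 := rfl
        _ ≤ 2 ^ i := Nat.pow_le_pow_right (by norm_num) hi1
    have his : (fam D e u).iso (L i) (2 * 2 ^ i) := by
      rw [fam_iso]
      intro j hj1 hj2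
      refine hiso i j hj1 (hj2.trans_le ?_)
      rw [pow_add]
      omega
    have hs : (fam D e u).s (L i) ≤ 1 := by
      rw [fam_s, ← hx]
      exact (mul_le_mul_of_nonneg_right huR (hx0 i).le).trans (hi₀ i hi0)
    have hEi : C₀ * ((fam D e u).s (L i))⁻¹ ^ 4 ≤ E i := by
      rw [fam_s, ← hx, hEd]
      have h1 : (u 0 * x i)⁻¹ ≤ R * (x i)⁻¹ := by
        rw [mul_inv]
        apply mul_le_mul_of_nonneg_right _ (inv_pos.2 (hx0 i)).le
        have h2 := hu.2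
        rw [div_le_iff₀ hR0] at h2
        rw [inv_le_iff_one_le_mul₀ hu0]
        linarith
      have h3 : 0 ≤ (u 0 * x i)⁻¹ := by
        have := hx0 i
        positivity
      exact mul_le_mul_of_nonneg_left (pow_le_pow_left₀ h3 h1 4) (by linarith)
    have h1 := one57 hK0 hE hok (hKb u hu).1 (hKb u hu).2 hm his hs (hM1 i) (hM3 i) (hE0 i) hEi
    simp only [hbd]
    refine h1.trans (ENNReal.ofReal_le_ofReal ?_)
    rw [one_mul]
    apply Real.exp_le_exp.2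
    apply neg_le_neg
    have h2 := hN i
    have h3 := hM2 i
    have h4 : (0 : ℝ) < 2 ^ i := by positivity
    rw [le_div_iff₀ h4] at h2
    push_cast at h3
    rw [div_mul_eq_mul_div, div_le_iff₀ (by positivity)]
    have h5 : c * (2 : ℝ) ^ ((1 + δ) * i) * 2 ^ i ≤ (M i * (4 * 4 ^ d)) * 2 ^ i := by
      refine h2.trans (h3.trans (le_of_eq ?_))
      ring
    exact le_of_mul_le_mul_right h5 h4

end Pool.Agent.Helper46.QA
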