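import Pool.Agent.Helper46.QA.DetE
import Pool.Agent.Helper46.QA.Tail
import Pool.Agent.Helper46.QR.ErgR
import Pool.Agent.Helper46.QR.LyaR
import Pool.Agent.Helper46.QR.MainR

/-! Block QA-DET: the deterministic ends, for a fixed noise.

`det_fib`, `det_erg` are in `QA/DetE.lean`. `det_lya`: `soft` (`QP/Soft.lean`) for the map `Fr D ω` as in `QR/LyaR.lean` (helper38), `e = los D (2^i) ω`, `∫ e ≤ C (i+1) ≤ C (i+1)^3`. -/

set_option autoImplicit false
open MeasureTheory Real Set Filter Topology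
open scoped ENNReal

namespace Pool.Agent.Helper46.QA

open Pool.Agent.Helper18.UC (nn)
open Pool.Agent.Helper46.QP Pool.Agent.Helper46.QR

variable {d : ℕ} {D : Dat d}

/-- the cocycle of the logarithms -/
private noncomputable def gR12 (D : Dat d) (ω : Om d) (n : ℕ) (p : Td d × TT) : ℝ :=
  if n = 0 then 0 else Real.log (nn (Mx (Ar D ω p.1) p.2 n))

private theorem gR12_pos {ω : Om d} {n : ℕ} (hn : n ≠ 0) (p : Td d × TT) :
    gR12 D ω n p = Real.log (nn (Mx (Ar D ω p.1) p.2 n)) := by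
  unfold gR12; rw [if_neg hn]

private theorem Ar_meas12 (hD : D.Ok) : Measurable fun p : Om d × Td d => Ar D p.1 p.2 := by
  refine measurable_pi_lambda _ fun j => ?_
  have h1 : Measurable fun p : Om d × Td d => D.As p.1 p.2 j := (measurable_pi_apply j).comp (As_meas hD)
  unfold Ar ar
  exact Complex.measurable_ofReal.comp (Complex.measurable_re.comp h1)

private theorem nnR12 (hD : D.Ok) (n : ℕ) : Measurable fun q : Om d × (Td d × TT) =>
    nn (Mx (Ar D q.1 q.2.1) q.2.2 n) := by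
  have h2 : Measurable fun q : Om d × (Td d × TT) => ((q.1, q.2.1) : Om d × Td d) :=
    measurable_fst.prodMk (measurable_fst.comp measurable_snd)
  have h3 : Measurable fun q : Om d × (Td d × TT) => ((Ar D q.1 q.2.1, q.2.2) : (ℕ → ℂ) × TT) :=
    ((Ar_meas12 hD).comp h2).prodMk (measurable_snd.comp measurable_snd)
  exact (Mx_meas n).comp h3

theorem det_lya (hD : D.Ok) (ω : Om d) {δ C : ℝ} (hδ : 0 < δ)
    (hgro : ∀ ε : ℝ, 0 < ε → ∃ i₀ : ℕ, ∀ i ≥ i₀, (volume : Measure (Td d × TT)).real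
      {p | Real.log (nn (Mx (Ar D ω p.1) p.2 (2 ^ i))) < (2 : ℝ) ^ (δ * i)} ≤ ε)
    (hlos : ∃ i₁ : ℕ, ∀ i ≥ i₁, ∫ p : Td d × TT, los D (2 ^ i) ω p.1 p.2 ≤ C * (i + 1)) :
    ∃ G : Td d × TT → ℝ, Measurable G ∧ (∀ᵐ p, 0 < G p) ∧
      ∀ᵐ p : Td d × TT, Tendsto (fun n : ℕ => Real.log (nn (Mx (Ar D ω p.1) p.2 n)) / n) atTop (𝓝 (G p)) := by
  obtain ⟨K, hK0, hK⟩ := A_bd hD
  obtain ⟨i₁, hi₁⟩ := hlos
  have hpair : Measurable fun p : Td d × TT => ((ω, p) : Om d × (Td d × TT)) :=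
    measurable_const.prodMk measurable_id
  have hnn : ∀ n, Measurable fun p : Td d × TT => nn (Mx (Ar D ω p.1) p.2 n) := by
    intro n
    have h := (nnR12 hD n).comp hpair
    simp only [Function.comp_def] at h
    exact h
  have hgm : ∀ n, Measurable (gR12 D ω n) := by
    intro n
    by_cases hn : n = 0
    · have e : gR12 D ω n = fun _ => (0 : ℝ) := by
        funext p; unfold gR12; rw [if_pos hn]
      rw [e]; exact measurable_const
    · have e : gR12 D ω n = fun p => Real.log (nn (Mx (Ar D ω p.1) p.2 n)) := by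
        funext p; exact gR12_pos hn p
      rw [e]
      exact (hnn n).log
  have hlK : ∀ (n : ℕ) (p : Td d × TT), Real.log (nn (Mx (Ar D ω p.1) p.2 n)) ≤
      Real.log 2 + n * Real.log (2 * π * K + 4) := by
    intro n p
    refine log_nn_le hK0 (fun j => ?_) p.2 n
    unfold Ar ar
    rw [Complex.norm_real]
    exact (Complex.abs_re_le_norm _).trans (hK ω _)
  have hg0 : ∀ n p, 0 ≤ gR12 D ω n p := by
    intro n p
    unfold gR12
    split_ifs
    · exact le_rfl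
    · exact log_nn_nonneg _ _ _
  have hC1 : ∀ n p, |gR12 D ω n p| ≤ (Real.log 2 + Real.log (2 * π * K + 4)) * n := by
    intro n p
    rw [abs_of_nonneg (hg0 n p)]
    by_cases hn : n = 0
    · subst hn
      unfold gR12
      simp
    · rw [gR12_pos hn]
      refine (hlK n p).trans ?_
      have hn1 : (1 : ℝ) ≤ n := by exact_mod_cast Nat.one_le_iff_ne_zero.2 hn
      have h3 : 0 ≤ Real.log 2 := Real.log_nonneg one_le_two
      nlinarith
  have hsub : ∀ n m p, gR12 D ω (n + m) p ≤ gR12 D ω n p + gR12 D ω m ((Fr D ω)^[n] p) := by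
    intro n m p
    by_cases hn : n = 0
    · subst hn
      simp [gR12]
    by_cases hm : m = 0
    · subst hm
      simp [gR12]
    obtain ⟨θ, z⟩ := p
    have hnm : n + m ≠ 0 := by omega
    rw [gR12_pos hn, gR12_pos hm, gR12_pos hnm, Fr_iter]
    show Real.log (nn (Mx (Ar D ω θ) z (n + m))) ≤ Real.log (nn (Mx (Ar D ω θ) z n)) +
      Real.log (nn (Mx (Ar D ω (θ + n • D.α)) (orb (Ar D ω θ) z n) m))
    have a1 : 0 < nn (Mx (Ar D ω θ) z n) := by
      linarith [Pool.Agent.Helper95.PV.nn_ge_two (det_Mx (Ar D ω θ) z n)]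
    have a2 : 0 < nn (Mx (Ar D ω (θ + n • D.α)) (orb (Ar D ω θ) z n) m) := by
      linarith [Pool.Agent.Helper95.PV.nn_ge_two (det_Mx (Ar D ω (θ + n • D.α)) (orb (Ar D ω θ) z n) m)]
    have a3 : 0 < nn (Mx (Ar D ω θ) z (n + m)) := by
      linarith [Pool.Agent.Helper95.PV.nn_ge_two (det_Mx (Ar D ω θ) z (n + m))]
    rw [← Real.log_mul a1.ne' a2.ne']
    refine Real.log_le_log a3 ?_
    rw [Mx_add, Ar_add, mul_comm (nn (Mx (Ar D ω θ) z n))]
    exact Pool.Agent.Helper18.UC.nn_mul _ _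
  have hDD : ∀ i : ℕ, i₁ ≤ i → ∃ e : Td d × TT → ℝ, Integrable e volume ∧ (∀ x, 0 ≤ e x) ∧
      ∫ x, e x ≤ max C 0 * ((i : ℝ) + 1) ^ 3 ∧
      ∀ x, gR12 D ω (2 ^ i) x + gR12 D ω (2 ^ i) ((Fr D ω)^[2 ^ i] x) ≤ gR12 D ω (2 ^ (i + 1)) x + e x := by
    intro i hi
    refine ⟨fun p => los D (2 ^ i) ω p.1 p.2, ?_, fun p => los_nonneg D (2 ^ i) ω p.1 p.2, ?_, ?_⟩
    · have hm : Measurable fun p : Td d × TT => los D (2 ^ i) ω p.1 p.2 := by
        have h := (los_meas hD (2 ^ i)).comp hpair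
        simp only [Function.comp_def] at h
        exact h
      refine Integrable.of_bound hm.aestronglyMeasurable
        (2 * (Real.log 2 + ((2 ^ i : ℕ) : ℝ) * Real.log (2 * π * K + 4)))
        (Eventually.of_forall fun p => ?_)
      rw [Real.norm_eq_abs, abs_of_nonneg (los_nonneg D (2 ^ i) ω p.1 p.2)]
      exact los_le hK0 hK (2 ^ i) ω p.1 p.2
    · refine (hi₁ i hi).trans ?_
      have h0 : (0 : ℝ) ≤ i := Nat.cast_nonneg i
      have h1 : (1 : ℝ) ≤ (i : ℝ) + 1 := by linarith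
      have h2 : ((i : ℝ) + 1) ≤ ((i : ℝ) + 1) ^ 3 := le_self_pow₀ h1 (by norm_num)
      calc C * ((i : ℝ) + 1) ≤ max C 0 * ((i : ℝ) + 1) :=
            mul_le_mul_of_nonneg_right (le_max_left _ _) (by linarith)
        _ ≤ max C 0 * ((i : ℝ) + 1) ^ 3 := mul_le_mul_of_nonneg_left h2 (le_max_right _ _)
    · rintro ⟨θ, z⟩
      have hne : 2 ^ i ≠ 0 := by positivity
      have hne2 : 2 ^ (i + 1) ≠ 0 := by positivity
      rw [gR12_pos hne, gR12_pos hne, gR12_pos hne2, Fr_iter, pow_succ, mul_comm (2 ^ i) 2]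
      unfold los
      simp only
      linarith
  have hGG : ∀ ε : ℝ, 0 < ε → ∃ i₀ : ℕ, ∀ i ≥ i₀,
      (volume : Measure (Td d × TT)).real {x | gR12 D ω (2 ^ i) x < (2 : ℝ) ^ (δ * i)} ≤ ε := by
    intro ε hε
    obtain ⟨i₀, hi₀⟩ := hgro ε hε
    refine ⟨i₀, fun i hi => ?_⟩
    have hne : 2 ^ i ≠ 0 := by positivity
    have e : {x : Td d × TT | gR12 D ω (2 ^ i) x < (2 : ℝ) ^ (δ * i)} =
        {p | Real.log (nn (Mx (Ar D ω p.1) p.2 (2 ^ i))) < (2 : ℝ) ^ (δ * i)} := by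
      ext p
      show gR12 D ω (2 ^ i) p < (2 : ℝ) ^ (δ * i) ↔ _
      rw [gR12_pos hne]
      exact Iff.rfl
    rw [e]
    exact hi₀ i hi
  obtain ⟨G, hGm, hGp, hGt⟩ := soft (Fr_mp hD ω) hgm hδ hC1 hg0 hsub hDD hGG
  refine ⟨G, hGm, hGp, ?_⟩
  filter_upwards [hGt] with p hp
  refine hp.congr fun n => ?_
  by_cases hn : n = 0
  · subst hn; simp
  · rw [gR12_pos hn]

end Pool.Agent.Helper46.QA
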