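import Pool.Agent.Helper46.QA.AllCN
import Pool.Agent.Helper46.QA.DetM
import Pool.Agent.Helper82.QR.FinA

/-! Project QA (MP_9ee088_an): the final theorem with relative mixing, all parameters at once. -/

set_option autoImplicit false
open MeasureTheory Real Set Filter Topology

namespace Pool.Agent.Helper46.QA

open Pool.Agent.Helper18.UC (nn)
open Pool.Agent.Helper46
open Pool.Agent.Helper46.QP
open Pool.Agent.Helper46.QR (Fr Ar std_eq)
open Pool.Agent.Helper82.QR (Good lf allU law_neg nz_neg cont_mean hgapT)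

variable {d : ℕ}

/-- mixing relative to the base -/
def Mix (α : Fin d → UnitAddCircle) (a : (Fin d → UnitAddCircle) → ℝ) : Prop :=
  ∀ φ ψ : (Fin d → UnitAddCircle) × (UnitAddCircle × UnitAddCircle) → ℝ,
    MemLp φ 2 volume → MemLp ψ 2 volume → (∀ᵐ θ : Fin d → UnitAddCircle, ∫ z, ψ (θ, z) = 0) →
    Tendsto (fun n : ℕ => ∫ p, φ ((QRO.skew α a)^[n] p) * ψ p) atTop (𝓝 0)

/-- ergodic, mixing relative to the base, positive exponent -/
def GoodM (α : Fin d → UnitAddCircle) (a : (Fin d → UnitAddCircle) → ℝ) : Prop :=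
  Ergodic (QRO.skew α a) volume ∧ Mix α a ∧
  ∃ L : ℝ, 0 < L ∧ ∀ᵐ θ : Fin d → UnitAddCircle, ∀ᵐ z : ℝ × ℝ,
    Tendsto (fun n : ℕ => Real.log ‖fderiv ℝ (QRO.liftn α a θ n) z‖ / n) atTop (𝓝 L)

theorem goodM_of {α : Fin d → UnitAddCircle} {a : (Fin d → UnitAddCircle) → ℝ} (h : Good α a) (h' : Mix α a) :
    GoodM α a := ⟨h.1, h', h.2.2⟩

theorem allM {D : Dat d} (hD : D.Ok) (hb : D.b < d / 4)
    (hα : ∀ τ : ℝ, 1 / (d : ℝ) < τ → ∃ c : ℝ, 0 < c ∧ ∀ k : ℕ, 1 ≤ k → c * (k : ℝ) ^ (-τ) ≤ ‖k • D.α‖)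
    {k : ℕ} {e : Fin k → Td d → ℝ} (he : ∀ i, Continuous (e i)) {R : ℝ} (hR : 1 ≤ R) :
    ∀ᵐ ω ∂law d, ∀ u ∈ Bx k R, Mix D.α fun θ => (∑ i : Fin k, u i.succ * e i θ) + u 0 * (nz D.χ D.b ω θ).re := by
  obtain ⟨S, hSc, hSd⟩ := TopologicalSpace.exists_countable_dense C(Td d × TT, ℝ)
  have hc : ∀ᵐ ω ∂law d, ∀ g ∈ S, ∀ g' ∈ S, ∀ m : ℕ, ∃ n₁ : ℕ, ∀ n ≥ n₁, ∀ u ∈ Bx k R,
      |∫ p, g ((Fr (fam D e u) ω)^[n] p) * (g' p - ∫ z, g' (p.1, z))| ≤ 1 / ((m : ℝ) + 1) := by
    rw [ae_ball_iff hSc]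
    intro g hg
    rw [ae_ball_iff hSc]
    intro g' hg'
    rw [ae_all_iff]
    intro m
    refine all_corn hD hb hgapT hα he hR (G := g) (Ψ := fun p => g' p - ∫ z, g' (p.1, z)) g.continuous
      (cont_mean g') (fun θ => ?_) (by positivity)
    have hi : Integrable (fun z : TT => g' (θ, z)) volume :=
      (g'.continuous.comp (continuous_const.prodMk continuous_id)).integrable_of_hasCompactSupport
        (HasCompactSupport.of_compactSpace _)
    show ∫ z : TT, (g' (θ, z) - ∫ z', g' (θ, z')) = 0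
    rw [integral_sub hi (integrable_const _), integral_const]
    simp
  filter_upwards [hc] with ω h1 u hu
  have hok := fam_ok hD he hR hu
  have hcor : ∀ g ∈ S, ∀ g' ∈ S, Tendsto (fun n : ℕ => ∫ p, g ((Fr (fam D e u) ω)^[n] p) *
      (g' p - ∫ z, g' (p.1, z))) atTop (𝓝 0) := by
    intro g hg g' hg'
    rw [Metric.tendsto_atTop]
    intro ε hε
    obtain ⟨m, hm⟩ := exists_nat_one_div_lt hε
    obtain ⟨n₁, hn₁⟩ := h1 g hg g' hg' m
    refine ⟨n₁, fun n hn => ?_⟩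
    rw [Real.dist_eq, sub_zero]
    exact (hn₁ n hn u hu).trans_lt hm
  have hsk : QRO.skew D.α (fun θ => (∑ i : Fin k, u i.succ * e i θ) + u 0 * (nz D.χ D.b ω θ).re) =
      Fr (fam D e u) ω := by
    funext p
    have e1 : ((fam D e u).A ω p.1).re = (∑ i : Fin k, u i.succ * e i p.1) + u 0 * (nz D.χ D.b ω p.1).re := by
      show (((∑ i : Fin k, u i.succ * e i p.1 : ℝ) : ℂ) + ((u 0 : ℝ) : ℂ) * nz D.χ D.b ω p.1).re = _
      rw [Complex.add_re, Complex.ofReal_re, Complex.re_ofReal_mul]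
    unfold QRO.skew Fr
    show (p.1 + D.α, QRO.std ((∑ i : Fin k, u i.succ * e i p.1) + u 0 * (nz D.χ D.b ω p.1).re) p.2) =
      (p.1 + D.α, stp (((fam D e u).A ω p.1).re : ℝ) p.2)
    rw [← e1, std_eq]
  intro φ ψ hφ hψ h0
  rw [hsk]
  exact det_mix hok ω hSd hcor hφ hψ h0

/-! ### the final form -/

theorem exAM (d r : ℕ) (hr : 4 * r < d) :
    ∃ (Ω : Type) (_ : MeasurableSpace Ω) (P : Measure Ω) (N : Ω → (Fin d → UnitAddCircle) → ℝ),
      IsProbabilityMeasure P ∧ (∀ θ, Measurable fun ω => N ω θ) ∧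
      (∀ ω, ContDiff ℝ r (lf (N ω)) ∧ ∀ k : ℕ, k ≤ r → ∀ x, ‖iteratedFDeriv ℝ k (lf (N ω)) x‖ ≤ 1) ∧
      ∀ᵐ α : Fin d → UnitAddCircle, ∀ e : ℕ → (Fin d → UnitAddCircle) → ℝ, (∀ i, Continuous (e i)) →
        ∀ᵐ ω ∂P, ∀ (k : ℕ) (c : ℕ → ℝ) (q : ℝ), q ≠ 0 →
          GoodM α fun θ => (∑ i ∈ Finset.range k, c i * e i θ) + q * N ω θ := by
  have hd : 0 < d := by omega
  -- the bump
  set φ : ContDiffBump (0 : ℝ) := ⟨1 / 2, 1, by norm_num, by norm_num⟩ with hφ
  have hφs : ∀ n : ℕ, ContDiff ℝ n (fun t : ℝ => φ t) := fun n => φ.contDiff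
  have hφ1 : ∀ t : ℝ, |t| ≤ 1 / 2 → φ t = 1 := fun t ht => φ.one_of_mem_closedBall (by
    rw [mem_closedBall_zero_iff, Real.norm_eq_abs]; exact ht)
  have hφ0 : ∀ t : ℝ, 1 ≤ |t| → φ t = 0 := fun t ht => φ.zero_of_le_dist (by
    rw [dist_zero_right, Real.norm_eq_abs]; exact ht)
  -- the exponent
  obtain ⟨β, hrβ, hβ4⟩ : ∃ β : ℝ, (r : ℝ) < β ∧ β < d / 4 := by
    refine exists_between ?_
    have : ((4 * r : ℕ) : ℝ) < d := by exact_mod_cast hr
    push_cast at this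
    linarith
  have hβ0 : 0 < β := lt_of_le_of_lt (Nat.cast_nonneg r) hrβ
  obtain ⟨K, hK0, hK⟩ := nz_bd (d := d) (hφs r) hφ0 hrβ
  set q₀ : ℝ := 1 / (K + 1) with hq
  have hq0 : 0 < q₀ := by positivity
  have hqK : q₀ * K ≤ 1 := by
    rw [hq, div_mul_eq_mul_div, div_le_iff₀ (by positivity)]
    linarith
  refine ⟨Om d, inferInstance, law d, fun ω θ => q₀ * (nz (fun t => φ t) β ω θ).re, inferInstance, ?_, ?_, ?_⟩
  · intro θ
    set D₀ : Dat d := { α := 0, A0 := fun _ => 0, q := 1, b := β, χ := fun t => φ t } with hD₀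
    have hDk : D₀.Ok := ⟨hd, continuous_const, one_pos, hβ0, (hφs 0).continuous, hφ1, hφ0⟩
    have h1 := (A_meas hDk).comp (measurable_prodMk_right (y := θ))
    have e : (fun ω : Om d => q₀ * (nz (fun t => φ t) β ω θ).re) = fun ω : Om d => q₀ * (D₀.A ω θ).re := by
      funext ω
      unfold Dat.A
      simp [hD₀]
    rw [e]
    exact (Complex.measurable_re.comp h1).const_mul q₀
  · intro ω
    have hs := nz_smooth (hφs r) hφ0 hrβ ω
    have hs2 : ContDiff ℝ r (fun x : Fin d → ℝ => (nz (fun t => φ t) β ω fun m => (x m : UnitAddCircle)).re) :=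
      Complex.reCLM.contDiff.comp hs
    refine ⟨contDiff_const.mul hs2, fun k hk x => ?_⟩
    have e : lf (fun θ => q₀ * (nz (fun t => φ t) β ω θ).re) =
        (q₀ • Complex.reCLM) ∘ fun x : Fin d → ℝ => nz (fun t => φ t) β ω fun m => (x m : UnitAddCircle) := by
      funext x
      simp [lf]
    rw [e, ContinuousLinearMap.iteratedFDeriv_comp_left _ hs.contDiffAt (by exact_mod_cast hk)]
    refine (ContinuousLinearMap.norm_compContinuousMultilinearMap_le _ _).trans ?_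
    have h1 : ‖q₀ • Complex.reCLM‖ ≤ q₀ := by
      rw [norm_smul, Real.norm_of_nonneg hq0.le, Complex.reCLM_norm, mul_one]
    exact (mul_le_mul h1 (hK ω k hk x) (norm_nonneg _) hq0.le).trans hqK
  · filter_upwards [Pool.Agent.Helper82.QP.dio_ae hd, Pool.Agent.Helper82.QP.ind_ae] with α hα hind e he
    set D : Dat d := { α := α, A0 := fun _ => 0, q := 1, b := β, χ := fun t => φ t } with hDdef
    have hD : D.Ok := ⟨hd, continuous_const, one_pos, hβ0, (hφs 0).continuous, hφ1, hφ0⟩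
    have hP : ∀ᵐ ω ∂law d, ∀ k R : ℕ, ∀ u ∈ Bx k ((R : ℝ) + 1),
        GoodM α fun θ => (∑ i : Fin k, u i.succ * e i θ) + u 0 * (nz (fun t => φ t) β ω θ).re := by
      rw [ae_all_iff]
      intro k
      rw [ae_all_iff]
      intro R
      have hR1 : (1 : ℝ) ≤ (R : ℝ) + 1 := by
        have : (0 : ℝ) ≤ R := Nat.cast_nonneg R
        linarith
      filter_upwards [allU hD hβ4 hα hind (e := fun i : Fin k => e i) (fun i => he i) hR1,
        allM hD hβ4 hα (e := fun i : Fin k => e i) (fun i => he i) hR1] with ω h1 h2 u hu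
      exact goodM_of (h1 u hu) (h2 u hu)
    have hQ := (law_neg d).quasiMeasurePreserving.ae hP
    have key : ∀ ω : Om d, (∀ k R : ℕ, ∀ u ∈ Bx k ((R : ℝ) + 1),
        GoodM α fun θ => (∑ i : Fin k, u i.succ * e i θ) + u 0 * (nz (fun t => φ t) β ω θ).re) →
        ∀ (k : ℕ) (c : ℕ → ℝ) (q : ℝ), 0 < q →
          GoodM α fun θ => (∑ i ∈ Finset.range k, c i * e i θ) + q * (q₀ * (nz (fun t => φ t) β ω θ).re) := by
      intro ω h k c q hq'
      set u : Fin (k + 1) → ℝ := Fin.cons (q * q₀) fun i : Fin k => c i with hu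
      have hu0 : u 0 = q * q₀ := by rw [hu, Fin.cons_zero]
      have hus : ∀ i : Fin k, u i.succ = c i := fun i => by rw [hu, Fin.cons_succ]
      have hup : 0 < u 0 := by rw [hu0]; positivity
      obtain ⟨R, hR⟩ := exists_nat_gt (max ‖u‖ (1 / u 0))
      have hm : u ∈ Bx k ((R : ℝ) + 1) := by
        refine ⟨(le_max_left _ _).trans (hR.le.trans (by linarith)), ?_⟩
        have h1 : 1 / u 0 ≤ (R : ℝ) + 1 := (le_max_right _ _).trans (hR.le.trans (by linarith))
        have h2 : (0 : ℝ) < (R : ℝ) + 1 := by positivity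
        rw [div_le_iff₀ h2]
        rw [div_le_iff₀ hup] at h1
        linarith
      have h1 := h k R u hm
      have e1 : (fun θ => (∑ i ∈ Finset.range k, c i * e i θ) + q * (q₀ * (nz (fun t => φ t) β ω θ).re)) =
          fun θ => (∑ i : Fin k, u i.succ * e i θ) + u 0 * (nz (fun t => φ t) β ω θ).re := by
        funext θ
        rw [Finset.sum_range, hu0, mul_assoc]
        simp only [hus]
      rw [e1]
      exact h1
    filter_upwards [hP, hQ] with ω h1 h2 k c q hq'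
    rcases lt_or_gt_of_ne hq' with hn | hp
    · have h3 := key (-ω) h2 k c (-q) (by linarith)
      have e1 : (fun θ => (∑ i ∈ Finset.range k, c i * e i θ) + q * (q₀ * (nz (fun t => φ t) β ω θ).re)) =
          fun θ => (∑ i ∈ Finset.range k, c i * e i θ) + -q * (q₀ * (nz (fun t => φ t) β (-ω) θ).re) := by
        funext θ
        rw [nz_neg, Complex.neg_re]
        ring
      rw [e1]
      exact h3
    · exact key ω h1 k c q hp

end Pool.Agent.Helper46.QA
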