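import Pool.Agent.Helper46.QA.Fam
import Pool.Agent.Helper46.QA.Mean
import Pool.Agent.Helper46.QA.Conc
import Pool.Agent.Helper46.QA.Lip
import Pool.Agent.Helper46.QA.Net
import Pool.Agent.Helper46.QA.RatesA
import Pool.Agent.Helper46.QR.ErgR

/-! Block QA-ALLC: correlations are small for all parameters at once.

`n = 2^i`, `l = L i` (`ratesA`), `D_u = fam D e u`, `bad i u = {ω | ε < |cor_u|}`, `bad' i u = {ω | ε/2 < |cor_u|}`, `cor_u ω = ∫ p, G ((Fr D_u ω)^[n] p) * Ψ p = ∫ θ, φ ω θ`, `φ ω θ = ∫ z, G (θ + n α, orb (Ar D_u ω θ) z n) * Ψ (θ, z)` (`Fr_iter`, Fubini).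
* `h1` of `net`: `G` is uniformly continuous (compact space): if `Λ^n K' |u - u'| ≤ δ₀` then the orbits are closer than the modulus of `G` for `ε / (2 sup |Ψ|)` (`lip_orb`, `fam_lip`); `Λ` may be enlarged.
* `h2`: `wl_le`: it is enough to bound `wl l η (bad' i u)` for all `η`. `conc_small` with the points of `pts`, `loc_of`, `|φ| ≤ sup |G| sup |Ψ|`; the mean of `φ ω θ` under `wl l η` is at most `sup |G| sup |Ψ| (1 - η' s²)^(n/3)^(1/2)` (`corW`, `wl_rs`), `s = u 0 * NN^(-b) ≥ NN^(-b)/R`, which tends to zero uniformly in `u ∈ Bx k R` (`ratesA`); `M ≥ N^d / (2 n 4^d) ≥ c 2^((1+δ) i)`. -/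

set_option autoImplicit false
open MeasureTheory Real Set Filter Topology
open scoped ENNReal

namespace Pool.Agent.Helper46.QA

open Pool.Agent.Helper18.UC (nn)
open Pool.Agent.Helper18.FD (NN)
open Pool.Agent.Helper46.QP Pool.Agent.Helper46.QR

variable {d : ℕ} {D : Dat d} {k : ℕ} {e : Fin k → Td d → ℝ} {R : ℝ}

/-! ### measurability and Fubini -/

private theorem iter_meas63 (hD : D.Ok) (n : ℕ) :
    Measurable fun p : Om d × (Td d × TT) => (Fr D p.1)^[n] p.2 := by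
  induction n with
  | zero => exact measurable_snd
  | succ n ih =>
    have h : Measurable fun p : Om d × (Td d × TT) =>
        ((p.1, (Fr D p.1)^[n] p.2) : Om d × (Td d × TT)) := measurable_fst.prodMk ih
    have h1 := (Fr_meas hD).comp h
    simp only [Function.comp_def] at h1
    simpa only [Function.iterate_succ_apply'] using h1

private theorem int_meas63 (hD : D.Ok) {G Ψ : Td d × TT → ℝ} (hG : Measurable G) (hΨ : Measurable Ψ)
    (n : ℕ) : Measurable fun p : Om d × (Td d × TT) => G ((Fr D p.1)^[n] p.2) * Ψ p.2 :=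
  (hG.comp (iter_meas63 hD n)).mul (hΨ.comp measurable_snd)

/-- the correlation on one fibre -/
private noncomputable def ph63 (D : Dat d) (G Ψ : Td d × TT → ℝ) (n : ℕ) (A : ℕ → ℂ) (θ : Td d) : ℝ :=
  ∫ z, G (θ + n • D.α, orb A z n) * Ψ (θ, z)

private theorem orb_congr63 (A A' : ℕ → ℂ) (z : TT) (n : ℕ) (h : ∀ j < n, A j = A' j) : orb A z n = orb A' z n := by
  induction n with
  | zero => rfl
  | succ n ih =>
    rw [orb_succ, orb_succ, ih fun j hj => h j (Nat.lt_succ_of_lt hj), h n (Nat.lt_succ_self n)]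

private theorem ph_eq63 (D : Dat d) (G Ψ : Td d × TT → ℝ) (n : ℕ) (ω : Om d) (θ : Td d) :
    ph63 D G Ψ n (Ar D ω θ) θ = ∫ z, G ((Fr D ω)^[n] (θ, z)) * Ψ (θ, z) := by
  unfold ph63
  refine integral_congr_ae (Filter.Eventually.of_forall fun z => ?_)
  simp only [Fr_iter]

private theorem ph_meas63 (hD : D.Ok) {G Ψ : Td d × TT → ℝ} (hG : Measurable G) (hΨ : Measurable Ψ) (n : ℕ) :
    Measurable fun x : Om d × Td d => ph63 D G Ψ n (Ar D x.1 x.2) x.2 := by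
  have h1 : Measurable fun q : (Om d × Td d) × TT => G ((Fr D q.1.1)^[n] (q.1.2, q.2)) * Ψ (q.1.2, q.2) := by
    have h2 : Measurable fun q : (Om d × Td d) × TT => ((q.1.1, (q.1.2, q.2)) : Om d × (Td d × TT)) :=
      (measurable_fst.comp measurable_fst).prodMk
        ((measurable_snd.comp measurable_fst).prodMk measurable_snd)
    have h5 := (int_meas63 hD hG hΨ n).comp h2
    simp only [Function.comp_def] at h5
    exact h5
  have h3 : (fun x : Om d × Td d => ph63 D G Ψ n (Ar D x.1 x.2) x.2) =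
      fun x : Om d × Td d => ∫ z, G ((Fr D x.1)^[n] (x.2, z)) * Ψ (x.2, z) := by
    funext x
    exact ph_eq63 D G Ψ n x.1 x.2
  rw [h3]
  exact (h1.stronglyMeasurable.integral_prod_right').measurable

private theorem ph_bd63 {G Ψ : Td d × TT → ℝ} {B : ℝ} (hB : ∀ p, |G p| ≤ B) (hB' : ∀ p, |Ψ p| ≤ B) (n : ℕ)
    (A : ℕ → ℂ) (θ : Td d) : |ph63 D G Ψ n A θ| ≤ B * B := by
  unfold ph63
  rw [← Real.norm_eq_abs]
  refine (norm_integral_le_of_norm_le_const (C := B * B) (Filter.Eventually.of_forall fun z => ?_)).trans ?_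
  · rw [norm_mul]
    exact mul_le_mul (hB _) (hB' _) (abs_nonneg _) ((abs_nonneg _).trans (hB (θ, z)))
  · simp

private theorem int63 (hD : D.Ok) {G Ψ : Td d × TT → ℝ} (hG : Measurable G) (hΨ : Measurable Ψ) {B : ℝ}
    (hB : ∀ p, |G p| ≤ B) (hB' : ∀ p, |Ψ p| ≤ B) (ω : Om d) (n : ℕ) :
    Integrable (fun p : Td d × TT => G ((Fr D ω)^[n] p) * Ψ p) volume := by
  have h2 : Measurable fun p : Td d × TT => ((ω, p) : Om d × (Td d × TT)) := measurable_const.prodMk measurable_id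
  have hm := (int_meas63 hD hG hΨ n).comp h2
  simp only [Function.comp_def] at hm
  refine Integrable.mono' (integrable_const (B * B)) hm.aestronglyMeasurable
    (Filter.Eventually.of_forall fun p => ?_)
  rw [norm_mul]
  exact mul_le_mul (hB _) (hB' _) (abs_nonneg _) ((abs_nonneg _).trans (hB p))

private theorem fub63 (hD : D.Ok) {G Ψ : Td d × TT → ℝ} (hG : Measurable G) (hΨ : Measurable Ψ) {B : ℝ}
    (hB : ∀ p, |G p| ≤ B) (hB' : ∀ p, |Ψ p| ≤ B) (ω : Om d) (n : ℕ) :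
    ∫ p, G ((Fr D ω)^[n] p) * Ψ p = ∫ θ, ph63 D G Ψ n (Ar D ω θ) θ := by
  have h := integral_prod (μ := (volume : Measure (Td d))) (ν := (volume : Measure TT))
    (fun p : Td d × TT => G ((Fr D ω)^[n] p) * Ψ p) (int63 hD hG hΨ hB hB' ω n)
  rw [Measure.volume_eq_prod]
  rw [h]
  refine integral_congr_ae (Filter.Eventually.of_forall fun θ => ?_)
  exact (ph_eq63 D G Ψ n ω θ).symm

/-! ### elementary estimates -/

private theorem pw63 {η s x R c₀ : ℝ} {n : ℕ} (hη : 0 < η) (hη1 : η ≤ 1) (hs : s ≤ 1) (hR : 1 ≤ R) (hx : 0 < x)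
    (hsx : x / R ≤ s) (hn : 4 ≤ n) (hc : c₀ ≤ n * x ^ 2) :
    (1 - η * s ^ 2) ^ (n / 3) ≤ Real.exp (-(η / (6 * R ^ 2) * c₀)) := by
  have hR0 : 0 < R := one_pos.trans_le hR
  have hs0 : 0 < s := lt_of_lt_of_le (div_pos hx hR0) hsx
  have hs2 : s ^ 2 ≤ 1 := by nlinarith
  have h0 : 0 ≤ 1 - η * s ^ 2 := by nlinarith [sq_nonneg s]
  have h1 : 1 - η * s ^ 2 ≤ Real.exp (-(η * s ^ 2)) := by
    have := Real.add_one_le_exp (-(η * s ^ 2))
    linarith
  refine (pow_le_pow_left₀ h0 h1 _).trans ?_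
  rw [← Real.exp_nat_mul]
  apply Real.exp_le_exp.2
  have h2 : (n : ℝ) / 6 ≤ ((n / 3 : ℕ) : ℝ) := by
    have h3 : n ≤ 6 * (n / 3) := by omega
    have h4 : (n : ℝ) ≤ 6 * ((n / 3 : ℕ) : ℝ) := by exact_mod_cast h3
    linarith
  have h5 : x ^ 2 / R ^ 2 ≤ s ^ 2 := by
    rw [← div_pow]
    exact pow_le_pow_left₀ (div_pos hx hR0).le hsx 2
  have h6 : η / (6 * R ^ 2) * c₀ ≤ ((n / 3 : ℕ) : ℝ) * (η * s ^ 2) := by
    calc η / (6 * R ^ 2) * c₀ ≤ η / (6 * R ^ 2) * (n * x ^ 2) :=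
          mul_le_mul_of_nonneg_left hc (by positivity)
      _ = (n : ℝ) / 6 * (η * (x ^ 2 / R ^ 2)) := by field_simp
      _ ≤ ((n / 3 : ℕ) : ℝ) * (η * s ^ 2) :=
          mul_le_mul h2 (mul_le_mul_of_nonneg_left h5 hη.le) (by positivity) (by positivity)
  linarith

private theorem tend63 {κ δ : ℝ} (hκ : 0 < κ) (hδ : 0 < δ) (B : ℝ) :
    Tendsto (fun i : ℕ => B * √(Real.exp (-(κ * (2 : ℝ) ^ (δ * i))))) atTop (𝓝 0) := by
  have h1 : Tendsto (fun i : ℕ => (2 : ℝ) ^ (δ * i)) atTop atTop := by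
    have h3 : Tendsto (fun i : ℕ => ((2 : ℝ) ^ δ) ^ i) atTop atTop :=
      tendsto_pow_atTop_atTop_of_one_lt (Real.one_lt_rpow one_lt_two hδ)
    refine h3.congr fun i => ?_
    rw [← Real.rpow_natCast, ← Real.rpow_mul two_pos.le]
  have h2 : Tendsto (fun i : ℕ => Real.exp (-(κ * (2 : ℝ) ^ (δ * i)))) atTop (𝓝 0) :=
    Real.tendsto_exp_neg_atTop_nhds_zero.comp (h1.const_mul_atTop hκ)
  have h3 := (Real.continuous_sqrt.tendsto 0).comp h2
  rw [Real.sqrt_zero] at h3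
  have h4 := h3.const_mul B
  rw [mul_zero] at h4
  exact h4

/-! ### the theorem -/

theorem all_cor (hD : D.Ok) (hb : D.b < d / 4) (hgap : ∀ K, ∃ η, 0 < η ∧ η ≤ 1 ∧ GapT K η)
    (hα : ∀ τ : ℝ, 1 / (d : ℝ) < τ → ∃ c : ℝ, 0 < c ∧ ∀ k : ℕ, 1 ≤ k → c * (k : ℝ) ^ (-τ) ≤ ‖k • D.α‖)
    (he : ∀ i, Continuous (e i)) (hR : 1 ≤ R) {G Ψ : Td d × TT → ℝ} (hG : Continuous G) (hΨ : Continuous Ψ)
    (h0 : ∀ θ, ∫ z, Ψ (θ, z) = 0) {ε : ℝ} (hε : 0 < ε) :
    ∀ᵐ ω ∂law d, ∃ i₁ : ℕ, ∀ i ≥ i₁, ∀ u ∈ Bx k R, |∫ p, G ((Fr (fam D e u) ω)^[2 ^ i] p) * Ψ p| ≤ ε := by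
  -- constants
  obtain ⟨K, hK0, hK⟩ := fam_bd hD he hR
  obtain ⟨K', hK'0, hK'⟩ := fam_lip hD he
  obtain ⟨B, hB1, hBG, hBΨ⟩ : ∃ B : ℝ, 1 ≤ B ∧ (∀ p, |G p| ≤ B) ∧ ∀ p, |Ψ p| ≤ B := by
    obtain ⟨B1, h1⟩ := (isCompact_univ (X := Td d × TT)).exists_bound_of_continuousOn hG.continuousOn
    obtain ⟨B2, h2⟩ := (isCompact_univ (X := Td d × TT)).exists_bound_of_continuousOn hΨ.continuousOn
    exact ⟨max 1 (max B1 B2), le_max_left _ _,
      fun p => (h1 p (mem_univ p)).trans ((le_max_left _ _).trans (le_max_right _ _)),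
      fun p => (h2 p (mem_univ p)).trans ((le_max_right _ _).trans (le_max_right _ _))⟩
  have hB0 : 0 < B := one_pos.trans_le hB1
  obtain ⟨Λ, hΛ1, hΛ⟩ := lip_orb K hK0
  obtain ⟨L, C, c, δ, hC, hc, hδ, hiso, hx0, hlog, hr1, hr2⟩ := ratesA hD hb hα
  obtain ⟨η, hη, hη1, hgapK⟩ := hgap K
  have hR0 : 0 < R := one_pos.trans_le hR
  -- uniform continuity
  obtain ⟨ρ, hρ, huc⟩ : ∃ ρ : ℝ, 0 < ρ ∧ ∀ p p' : Td d × TT, dist p p' < ρ → |G p - G p'| ≤ ε / (2 * B) := by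
    have h1 := Metric.uniformContinuous_iff.1 (CompactSpace.uniformContinuous_of_continuous hG)
      (ε / (2 * B)) (by positivity)
    obtain ⟨ρ, hρ, h2⟩ := h1
    exact ⟨ρ, hρ, fun p p' h => (h2 h).le⟩
  obtain ⟨δ₀, hδ₀, hδ₀2⟩ : ∃ δ₀ : ℝ, 0 < δ₀ ∧ K' * δ₀ < ρ := by
    refine ⟨ρ / (2 * (K' + 1)), by positivity, ?_⟩
    rw [mul_div_assoc', div_lt_iff₀ (by positivity)]
    nlinarith
  -- constants of the concentration
  obtain ⟨Kc, hKc⟩ : ∃ Kc : ℝ, Kc = B * B + ε := ⟨_, rfl⟩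
  have hKc0 : 0 < Kc := by rw [hKc]; positivity
  obtain ⟨c₂, hc₂⟩ : ∃ c₂ : ℝ, c₂ = c / (2 * 4 ^ d) * ((ε / 2) ^ 2 / (16 * Kc ^ 2)) := ⟨_, rfl⟩
  have hc₂0 : 0 < c₂ := by rw [hc₂]; positivity
  -- the first index
  obtain ⟨i₀, hi4, his, hie⟩ : ∃ i₀ : ℕ, 2 ≤ i₀ ∧ (∀ i, i₀ ≤ i → R * (NN (L i) : ℝ) ^ (-D.b) ≤ 1) ∧
      ∀ i, i₀ ≤ i → B * B * √(Real.exp (-(η / (6 * R ^ 2) * c * (2 : ℝ) ^ (δ * i)))) ≤ ε / 2 / 4 := by
    have h0' := hx0.const_mul R
    rw [mul_zero] at h0'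
    have h1 := h0'.eventually (ge_mem_nhds (one_pos : (0 : ℝ) < 1))
    have h2' : (0 : ℝ) < ε / 2 / 4 := by positivity
    have h2 := (tend63 (κ := η / (6 * R ^ 2) * c) (by positivity) hδ (B * B)).eventually (ge_mem_nhds h2')
    obtain ⟨i1, h3⟩ := eventually_atTop.1 h1
    obtain ⟨i2, h4⟩ := eventually_atTop.1 h2
    exact ⟨max 2 (max i1 i2), le_max_left _ _,
      fun i hi => h3 i (((le_max_left _ _).trans (le_max_right _ _)).trans hi),
      fun i hi => h4 i (((le_max_right _ _).trans (le_max_right _ _)).trans hi)⟩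
  have key := net (P := law d) (Bx_bd k R)
    (bad := fun i u => {ω | ε < |∫ p, G ((Fr (fam D e u) ω)^[2 ^ i] p) * Ψ p|})
    (bad' := fun i u => {ω | ε / 2 < |∫ p, G ((Fr (fam D e u) ω)^[2 ^ i] p) * Ψ p|})
    (C := 2) (c := c₂) hΛ1 hδ₀ two_pos.le hc₂0 hδ (i₀ := i₀) ?_ ?_
  · filter_upwards [key] with ω hω
    obtain ⟨i₁, h1⟩ := hω
    exact ⟨i₁, fun i hi u hu => not_lt.1 (h1 i hi u hu)⟩
  · -- the bad events for near parameters
    intro i hi u hu u' hu' hdist ω hω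
    have hfu := fam_ok hD he hR hu
    have hfu' := fam_ok hD he hR hu'
    have hd : |(∫ p, G ((Fr (fam D e u) ω)^[2 ^ i] p) * Ψ p) - ∫ p, G ((Fr (fam D e u') ω)^[2 ^ i] p) * Ψ p| ≤
        ε / 2 := by
      rw [← integral_sub (int63 hfu hG.measurable hΨ.measurable hBG hBΨ ω _)
        (int63 hfu' hG.measurable hΨ.measurable hBG hBΨ ω _), ← Real.norm_eq_abs]
      refine (norm_integral_le_of_norm_le_const (C := ε / 2) (Filter.Eventually.of_forall fun p => ?_)).trans ?_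
      · obtain ⟨θ, z⟩ := p
        rw [← sub_mul, norm_mul, Fr_iter, Fr_iter]
        have h2 := (hΛ (ar (fam D e u) ω θ) (ar (fam D e u') ω θ) (K' * dist u u') (by positivity)
          (fun j => (Complex.abs_re_le_norm _).trans ((hK u hu).1 ω _))
          (fun j => (Complex.abs_re_le_norm _).trans ((hK u' hu').1 ω _))
          (fun j => by
            have h3 := hK' u u' ω (θ + j • D.α)
            have h4 : ar (fam D e u) ω θ j - ar (fam D e u') ω θ j =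
                ((fam D e u).A ω (θ + j • D.α) - (fam D e u').A ω (θ + j • D.α)).re := by
              rw [Complex.sub_re]
              rfl
            rw [h4]
            exact (Complex.abs_re_le_norm _).trans h3) z z (by rw [dist_self]; positivity) (2 ^ i)).1
        have h5 : dist ((θ + 2 ^ i • (fam D e u).α, orb (Ar (fam D e u) ω θ) z (2 ^ i)) : Td d × TT)
            (θ + 2 ^ i • (fam D e u').α, orb (Ar (fam D e u') ω θ) z (2 ^ i)) < ρ := by
          rw [Prod.dist_eq]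
          refine max_lt ?_ ?_
          · show dist (θ + 2 ^ i • D.α) (θ + 2 ^ i • D.α) < ρ
            rw [dist_self]
            exact hρ
          · refine lt_of_le_of_lt h2 ?_
            calc Λ ^ (2 ^ i : ℕ) * (K' * dist u u') = K' * (Λ ^ (2 ^ i : ℕ) * dist u u') := by ring
              _ ≤ K' * δ₀ := mul_le_mul_of_nonneg_left hdist hK'0
              _ < ρ := hδ₀2
        have h6 := huc _ _ h5
        calc ‖G (θ + 2 ^ i • (fam D e u).α, orb (Ar (fam D e u) ω θ) z (2 ^ i)) -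
              G (θ + 2 ^ i • (fam D e u').α, orb (Ar (fam D e u') ω θ) z (2 ^ i))‖ * ‖Ψ (θ, z)‖
            ≤ ε / (2 * B) * B := mul_le_mul h6 (hBΨ _) (norm_nonneg _) (by positivity)
          _ = ε / 2 := by field_simp
      · simp
    have h7 : ε < |∫ p, G ((Fr (fam D e u) ω)^[2 ^ i] p) * Ψ p| := hω
    show ε / 2 < |∫ p, G ((Fr (fam D e u') ω)^[2 ^ i] p) * Ψ p|
    have h8 := abs_sub_abs_le_abs_sub (∫ p, G ((Fr (fam D e u) ω)^[2 ^ i] p) * Ψ p)
      (∫ p, G ((Fr (fam D e u') ω)^[2 ^ i] p) * Ψ p)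
    linarith
  · -- the measure of the bad events
    intro i hi u hu
    have hfu := fam_ok hD he hR hu
    have hn1 : 1 ≤ 2 ^ i := Nat.one_le_two_pow
    have hn4 : 4 ≤ 2 ^ i := by
      calc 4 = 2 ^ 2 := rfl
        _ ≤ 2 ^ i := Nat.pow_le_pow_right (by norm_num) (hi4.trans hi)
    have hcor : ∀ ω, ∫ p, G ((Fr (fam D e u) ω)^[2 ^ i] p) * Ψ p =
        ∫ θ, ph63 (fam D e u) G Ψ (2 ^ i) (Ar (fam D e u) ω θ) θ := fun ω =>
      fub63 hfu hG.measurable hΨ.measurable hBG hBΨ ω _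
    have hpm := ph_meas63 hfu hG.measurable hΨ.measurable (2 ^ i)
    have hms : MeasurableSet {ω : Om d | ε / 2 < |∫ p, G ((Fr (fam D e u) ω)^[2 ^ i] p) * Ψ p|} := by
      have h1 : Measurable fun ω : Om d => ∫ p, G ((Fr (fam D e u) ω)^[2 ^ i] p) * Ψ p :=
        ((int_meas63 hfu hG.measurable hΨ.measurable (2 ^ i)).stronglyMeasurable.integral_prod_right').measurable
      have h2 : Measurable fun ω : Om d => |∫ p, G ((Fr (fam D e u) ω)^[2 ^ i] p) * Ψ p| := h1.abs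
      exact measurableSet_lt measurable_const h2
    refine wl_le (L i) hms fun ξ => ?_
    obtain ⟨M, β, hM1, hM2, hβ⟩ := pts (fam D e u) hD.hd (L i) (2 ^ i) hn1
    have hloc : Loc (fam D e u) (L i) (2 ^ i) fun ω θ => ph63 (fam D e u) G Ψ (2 ^ i) (Ar (fam D e u) ω θ) θ := by
      refine loc_of hfu fun θ A A' h => ?_
      unfold ph63
      refine integral_congr_ae (Filter.Eventually.of_forall fun z => ?_)
      simp only [orb_congr63 A A' z (2 ^ i) h]
    -- the means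
    have hmean : ∀ θ, |∫ ω, ph63 (fam D e u) G Ψ (2 ^ i) (Ar (fam D e u) ω θ) θ ∂wl (L i) ξ| ≤ ε / 2 / 4 := by
      intro θ
      have hs : (fam D e u).s (L i) = u 0 * (NN (L i) : ℝ) ^ (-D.b) := rfl
      have hxp : 0 < (NN (L i) : ℝ) ^ (-D.b) :=
        Real.rpow_pos_of_pos (by exact_mod_cast Pool.Agent.Helper18.FD.NN_pos (L i)) _
      have hu0 : u 0 ≤ R := (le_abs_self _).trans ((norm_le_pi_norm u 0).trans hu.1)
      have hs1 : (fam D e u).s (L i) ≤ 1 := by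
        rw [hs]
        exact (mul_le_mul_of_nonneg_right hu0 hxp.le).trans (his i hi)
      have hs2 : (NN (L i) : ℝ) ^ (-D.b) / R ≤ (fam D e u).s (L i) := by
        rw [hs, div_eq_mul_one_div, mul_comm]
        exact mul_le_mul_of_nonneg_right hu.2 hxp.le
      have hisou : (fam D e u).iso (L i) (2 ^ i) := fun k hk hk' =>
        hiso i k hk (lt_of_lt_of_le hk' (Nat.pow_le_pow_right (by norm_num) (by omega)))
      have h1 := corW hfu (hK u hu).2 hη hη1 hgapK (wl_rs (L i) ξ) hisou hs1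
        (g := fun z => G (θ + 2 ^ i • (fam D e u).α, z)) (ψ := fun z => Ψ (θ, z))
        (hG.measurable.comp (measurable_const.prodMk measurable_id))
        (hΨ.measurable.comp (measurable_const.prodMk measurable_id))
        (K := B) (K' := B) (fun z => hBG _) (fun z => hBΨ _) (h0 θ) θ
      refine le_trans h1 (le_trans (mul_le_mul_of_nonneg_left ?_ (by positivity)) (hie i hi))
      apply Real.sqrt_le_sqrt
      have h2 := pw63 (n := 2 ^ i) (c₀ := c * (2 : ℝ) ^ (δ * i)) hη hη1 hs1 hR hxp hs2 hn4 (by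
        push_cast
        exact hr1 i)
      refine h2.trans (le_of_eq ?_)
      congr 1
      ring
    have h3 := conc_small hβ hM1 (φ := fun ω θ => ph63 (fam D e u) G Ψ (2 ^ i) (Ar (fam D e u) ω θ) θ) hpm hloc
      (K := Kc) (ε := ε / 2) (by positivity) (by rw [hKc]; nlinarith) (fun ω θ =>
        (ph_bd63 hBG hBΨ _ _ _).trans (by rw [hKc]; linarith)) ξ hmean
    have h4 : {ω : Om d | ε / 2 < |∫ p, G ((Fr (fam D e u) ω)^[2 ^ i] p) * Ψ p|} =
        {ω : Om d | ε / 2 < |∫ θ, ph63 (fam D e u) G Ψ (2 ^ i) (Ar (fam D e u) ω θ) θ|} := by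
      ext ω
      simp only [Set.mem_ofPred_eq, hcor]
    rw [h4]
    refine h3.trans (ENNReal.ofReal_le_ofReal ?_)
    refine mul_le_mul_of_nonneg_left (Real.exp_le_exp.2 (neg_le_neg ?_)) two_pos.le
    have h5 := hr2 i
    rw [le_div_iff₀ (by positivity)] at h5
    have h6 : c / (2 * 4 ^ d) * (2 : ℝ) ^ ((1 + δ) * i) ≤ M := by
      rw [div_mul_eq_mul_div, div_le_iff₀ (by positivity)]
      have h7 : (0 : ℝ) < 2 ^ i := by positivity
      have h8 : c * (2 : ℝ) ^ ((1 + δ) * i) * 2 ^ i ≤ M * (2 * 4 ^ d) * 2 ^ i := by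
        refine h5.trans (hM2.trans (le_of_eq ?_))
        push_cast
        ring
      exact le_of_mul_le_mul_right h8 h7
    calc c₂ * (2 : ℝ) ^ ((1 + δ) * i) = c / (2 * 4 ^ d) * (2 : ℝ) ^ ((1 + δ) * i) *
          ((ε / 2) ^ 2 / (16 * Kc ^ 2)) := by rw [hc₂]; ring
      _ ≤ M * ((ε / 2) ^ 2 / (16 * Kc ^ 2)) := mul_le_mul_of_nonneg_right h6 (by positivity)
      _ = M * (ε / 2) ^ 2 / (16 * Kc ^ 2) := by ring

end Pool.Agent.Helper46.QA
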