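import Pool.Agent.Helper46.QA.Fam
import Pool.Agent.Helper46.QA.Mean
import Pool.Agent.Helper46.QA.Conc
import Pool.Agent.Helper46.QA.Lip
import Pool.Agent.Helper46.QA.Net
import Pool.Agent.Helper46.QA.RatesA
import Pool.Agent.Helper46.QR.ErgR

/-! Block QA-ALLN: correlations are small for all parameters and all large times at once.

As `QA-ALLC` (`AllC.lean`), with the bad events `∃ n ∈ [2^i, 2^(i+1)), ε < |cor_n|`: the union bound costs the factor `2^i`. -/

set_option autoImplicit false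
open MeasureTheory Real Set Filter Topology
open scoped ENNReal

namespace Pool.Agent.Helper46.QA

open Pool.Agent.Helper18.UC (nn)
open Pool.Agent.Helper18.FD (NN)
open Pool.Agent.Helper46.QP Pool.Agent.Helper46.QR

variable {d : ℕ} {D : Dat d} {k : ℕ} {e : Fin k → Td d → ℝ} {R : ℝ}

/-! ### measurability and Fubini -/

private theorem iter_meas63n (hD : D.Ok) (n : ℕ) :
    Measurable fun p : Om d × (Td d × TT) => (Fr D p.1)^[n] p.2 := by
  induction n with
  | zero => exact measurable_snd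
  | succ n ih =>
    have h : Measurable fun p : Om d × (Td d × TT) =>
        ((p.1, (Fr D p.1)^[n] p.2) : Om d × (Td d × TT)) := measurable_fst.prodMk ih
    have h1 := (Fr_meas hD).comp h
    simp only [Function.comp_def] at h1
    simpa only [Function.iterate_succ_apply'] using h1

private theorem int_meas63n (hD : D.Ok) {G Ψ : Td d × TT → ℝ} (hG : Measurable G) (hΨ : Measurable Ψ)
    (n : ℕ) : Measurable fun p : Om d × (Td d × TT) => G ((Fr D p.1)^[n] p.2) * Ψ p.2 :=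
  (hG.comp (iter_meas63n hD n)).mul (hΨ.comp measurable_snd)

/-- the correlation on one fibre -/
private noncomputable def ph63n (D : Dat d) (G Ψ : Td d × TT → ℝ) (n : ℕ) (A : ℕ → ℂ) (θ : Td d) : ℝ :=
  ∫ z, G (θ + n • D.α, orb A z n) * Ψ (θ, z)

private theorem orb_congr63n (A A' : ℕ → ℂ) (z : TT) (n : ℕ) (h : ∀ j < n, A j = A' j) : orb A z n = orb A' z n := by
  induction n with
  | zero => rfl
  | succ n ih =>
    rw [orb_succ, orb_succ, ih fun j hj => h j (Nat.lt_succ_of_lt hj), h n (Nat.lt_succ_self n)]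

private theorem ph_eq63n (D : Dat d) (G Ψ : Td d × TT → ℝ) (n : ℕ) (ω : Om d) (θ : Td d) :
    ph63n D G Ψ n (Ar D ω θ) θ = ∫ z, G ((Fr D ω)^[n] (θ, z)) * Ψ (θ, z) := by
  unfold ph63n
  refine integral_congr_ae (Filter.Eventually.of_forall fun z => ?_)
  simp only [Fr_iter]

private theorem ph_meas63n (hD : D.Ok) {G Ψ : Td d × TT → ℝ} (hG : Measurable G) (hΨ : Measurable Ψ) (n : ℕ) :
    Measurable fun x : Om d × Td d => ph63n D G Ψ n (Ar D x.1 x.2) x.2 := by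
  have h1 : Measurable fun q : (Om d × Td d) × TT => G ((Fr D q.1.1)^[n] (q.1.2, q.2)) * Ψ (q.1.2, q.2) := by
    have h2 : Measurable fun q : (Om d × Td d) × TT => ((q.1.1, (q.1.2, q.2)) : Om d × (Td d × TT)) :=
      (measurable_fst.comp measurable_fst).prodMk
        ((measurable_snd.comp measurable_fst).prodMk measurable_snd)
    have h5 := (int_meas63n hD hG hΨ n).comp h2
    simp only [Function.comp_def] at h5
    exact h5
  have h3 : (fun x : Om d × Td d => ph63n D G Ψ n (Ar D x.1 x.2) x.2) =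
      fun x : Om d × Td d => ∫ z, G ((Fr D x.1)^[n] (x.2, z)) * Ψ (x.2, z) := by
    funext x
    exact ph_eq63n D G Ψ n x.1 x.2
  rw [h3]
  exact (h1.stronglyMeasurable.integral_prod_right').measurable

private theorem ph_bd63n {G Ψ : Td d × TT → ℝ} {B : ℝ} (hB : ∀ p, |G p| ≤ B) (hB' : ∀ p, |Ψ p| ≤ B) (n : ℕ)
    (A : ℕ → ℂ) (θ : Td d) : |ph63n D G Ψ n A θ| ≤ B * B := by
  unfold ph63n
  rw [← Real.norm_eq_abs]
  refine (norm_integral_le_of_norm_le_const (C := B * B) (Filter.Eventually.of_forall fun z => ?_)).trans ?_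
  · rw [norm_mul]
    exact mul_le_mul (hB _) (hB' _) (abs_nonneg _) ((abs_nonneg _).trans (hB (θ, z)))
  · simp

private theorem int63n (hD : D.Ok) {G Ψ : Td d × TT → ℝ} (hG : Measurable G) (hΨ : Measurable Ψ) {B : ℝ}
    (hB : ∀ p, |G p| ≤ B) (hB' : ∀ p, |Ψ p| ≤ B) (ω : Om d) (n : ℕ) :
    Integrable (fun p : Td d × TT => G ((Fr D ω)^[n] p) * Ψ p) volume := by
  have h2 : Measurable fun p : Td d × TT => ((ω, p) : Om d × (Td d × TT)) := measurable_const.prodMk measurable_id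
  have hm := (int_meas63n hD hG hΨ n).comp h2
  simp only [Function.comp_def] at hm
  refine Integrable.mono' (integrable_const (B * B)) hm.aestronglyMeasurable
    (Filter.Eventually.of_forall fun p => ?_)
  rw [norm_mul]
  exact mul_le_mul (hB _) (hB' _) (abs_nonneg _) ((abs_nonneg _).trans (hB p))

private theorem fub63n (hD : D.Ok) {G Ψ : Td d × TT → ℝ} (hG : Measurable G) (hΨ : Measurable Ψ) {B : ℝ}
    (hB : ∀ p, |G p| ≤ B) (hB' : ∀ p, |Ψ p| ≤ B) (ω : Om d) (n : ℕ) :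
    ∫ p, G ((Fr D ω)^[n] p) * Ψ p = ∫ θ, ph63n D G Ψ n (Ar D ω θ) θ := by
  have h := integral_prod (μ := (volume : Measure (Td d))) (ν := (volume : Measure TT))
    (fun p : Td d × TT => G ((Fr D ω)^[n] p) * Ψ p) (int63n hD hG hΨ hB hB' ω n)
  rw [Measure.volume_eq_prod]
  rw [h]
  refine integral_congr_ae (Filter.Eventually.of_forall fun θ => ?_)
  exact (ph_eq63n D G Ψ n ω θ).symm

/-! ### elementary estimates -/

private theorem pw63n {η s x R c₀ : ℝ} {n : ℕ} (hη : 0 < η) (hη1 : η ≤ 1) (hs : s ≤ 1) (hR : 1 ≤ R) (hx : 0 < x)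
    (hsx : x / R ≤ s) (hn : 4 ≤ n) (hc : c₀ ≤ n * x ^ 2) :
    (1 - η * s ^ 2) ^ (n / 3) ≤ Real.exp (-(η / (6 * R ^ 2) * c₀)) := by
  have hR0 : 0 < R := one_pos.trans_le hR
  have hs0 : 0 < s := lt_of_lt_of_le (div_pos hx hR0) hsx
  have hs2 : s ^ 2 ≤ 1 := by nlinarith
  have h0 : 0 ≤ 1 - η * s ^ 2 := by nlinarith [sq_nonneg s]
  have h1 : 1 - η * s ^ 2 ≤ Real.exp (-(η * s ^ 2)) := by
    have := Real.add_one_le_exp (-(η * s ^ 2))
    linarith
  refine (pow_le_pow_left₀ h0 h1 _).trans ?_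
  rw [← Real.exp_nat_mul]
  apply Real.exp_le_exp.2
  have h2 : (n : ℝ) / 6 ≤ ((n / 3 : ℕ) : ℝ) := by
    have h3 : n ≤ 6 * (n / 3) := by omega
    have h4 : (n : ℝ) ≤ 6 * ((n / 3 : ℕ) : ℝ) := by exact_mod_cast h3
    linarith
  have h5 : x ^ 2 / R ^ 2 ≤ s ^ 2 := by
    rw [← div_pow]
    exact pow_le_pow_left₀ (div_pos hx hR0).le hsx 2
  have h6 : η / (6 * R ^ 2) * c₀ ≤ ((n / 3 : ℕ) : ℝ) * (η * s ^ 2) := by
    calc η / (6 * R ^ 2) * c₀ ≤ η / (6 * R ^ 2) * (n * x ^ 2) :=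
          mul_le_mul_of_nonneg_left hc (by positivity)
      _ = (n : ℝ) / 6 * (η * (x ^ 2 / R ^ 2)) := by field_simp
      _ ≤ ((n / 3 : ℕ) : ℝ) * (η * s ^ 2) :=
          mul_le_mul h2 (mul_le_mul_of_nonneg_left h5 hη.le) (by positivity) (by positivity)
  linarith

private theorem tend63n {κ δ : ℝ} (hκ : 0 < κ) (hδ : 0 < δ) (B : ℝ) :
    Tendsto (fun i : ℕ => B * √(Real.exp (-(κ * (2 : ℝ) ^ (δ * i))))) atTop (𝓝 0) := by
  have h1 : Tendsto (fun i : ℕ => (2 : ℝ) ^ (δ * i)) atTop atTop := by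
    have h3 : Tendsto (fun i : ℕ => ((2 : ℝ) ^ δ) ^ i) atTop atTop :=
      tendsto_pow_atTop_atTop_of_one_lt (Real.one_lt_rpow one_lt_two hδ)
    refine h3.congr fun i => ?_
    rw [← Real.rpow_natCast, ← Real.rpow_mul two_pos.le]
  have h2 : Tendsto (fun i : ℕ => Real.exp (-(κ * (2 : ℝ) ^ (δ * i)))) atTop (𝓝 0) :=
    Real.tendsto_exp_neg_atTop_nhds_zero.comp (h1.const_mul_atTop hκ)
  have h3 := (Real.continuous_sqrt.tendsto 0).comp h2
  rw [Real.sqrt_zero] at h3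
  have h4 := h3.const_mul B
  rw [mul_zero] at h4
  exact h4

/-! ### the theorem -/

theorem all_corn (hD : D.Ok) (hb : D.b < d / 4) (hgap : ∀ K, ∃ η, 0 < η ∧ η ≤ 1 ∧ GapT K η)
    (hα : ∀ τ : ℝ, 1 / (d : ℝ) < τ → ∃ c : ℝ, 0 < c ∧ ∀ k : ℕ, 1 ≤ k → c * (k : ℝ) ^ (-τ) ≤ ‖k • D.α‖)
    (he : ∀ i, Continuous (e i)) (hR : 1 ≤ R) {G Ψ : Td d × TT → ℝ} (hG : Continuous G) (hΨ : Continuous Ψ)
    (h0 : ∀ θ, ∫ z, Ψ (θ, z) = 0) {ε : ℝ} (hε : 0 < ε) :
    ∀ᵐ ω ∂law d, ∃ n₁ : ℕ, ∀ n ≥ n₁, ∀ u ∈ Bx k R, |∫ p, G ((Fr (fam D e u) ω)^[n] p) * Ψ p| ≤ ε := by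
  -- constants
  obtain ⟨K, hK0, hK⟩ := fam_bd hD he hR
  obtain ⟨K', hK'0, hK'⟩ := fam_lip hD he
  obtain ⟨B, hB1, hBG, hBΨ⟩ : ∃ B : ℝ, 1 ≤ B ∧ (∀ p, |G p| ≤ B) ∧ ∀ p, |Ψ p| ≤ B := by
    obtain ⟨B1, h1⟩ := (isCompact_univ (X := Td d × TT)).exists_bound_of_continuousOn hG.continuousOn
    obtain ⟨B2, h2⟩ := (isCompact_univ (X := Td d × TT)).exists_bound_of_continuousOn hΨ.continuousOn
    exact ⟨max 1 (max B1 B2), le_max_left _ _,
      fun p => (h1 p (mem_univ p)).trans ((le_max_left _ _).trans (le_max_right _ _)),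
      fun p => (h2 p (mem_univ p)).trans ((le_max_right _ _).trans (le_max_right _ _))⟩
  have hB0 : 0 < B := one_pos.trans_le hB1
  obtain ⟨Λ, hΛ1, hΛ⟩ := lip_orb K hK0
  obtain ⟨L, C, c, δ, hC, hc, hδ, hiso, hx0, hlog, hr1, hr2⟩ := ratesA hD hb hα
  obtain ⟨η, hη, hη1, hgapK⟩ := hgap K
  have hR0 : 0 < R := one_pos.trans_le hR
  -- uniform continuity
  obtain ⟨ρ, hρ, huc⟩ : ∃ ρ : ℝ, 0 < ρ ∧ ∀ p p' : Td d × TT, dist p p' < ρ → |G p - G p'| ≤ ε / (2 * B) := by
    have h1 := Metric.uniformContinuous_iff.1 (CompactSpace.uniformContinuous_of_continuous hG)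
      (ε / (2 * B)) (by positivity)
    obtain ⟨ρ, hρ, h2⟩ := h1
    exact ⟨ρ, hρ, fun p p' h => (h2 h).le⟩
  obtain ⟨δ₀, hδ₀, hδ₀2⟩ : ∃ δ₀ : ℝ, 0 < δ₀ ∧ K' * δ₀ < ρ := by
    refine ⟨ρ / (2 * (K' + 1)), by positivity, ?_⟩
    rw [mul_div_assoc', div_lt_iff₀ (by positivity)]
    nlinarith
  -- constants of the concentration
  obtain ⟨Kc, hKc⟩ : ∃ Kc : ℝ, Kc = B * B + ε := ⟨_, rfl⟩
  have hKc0 : 0 < Kc := by rw [hKc]; positivity
  obtain ⟨c₂, hc₂⟩ : ∃ c₂ : ℝ, c₂ = c / (4 * 4 ^ d) * ((ε / 2) ^ 2 / (16 * Kc ^ 2)) := ⟨_, rfl⟩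
  have hc₂0 : 0 < c₂ := by rw [hc₂]; positivity
  -- the first index
  obtain ⟨i₀, hi4, his, hie⟩ : ∃ i₀ : ℕ, 2 ≤ i₀ ∧ (∀ i, i₀ ≤ i → R * (NN (L i) : ℝ) ^ (-D.b) ≤ 1) ∧
      ∀ i, i₀ ≤ i → B * B * √(Real.exp (-(η / (6 * R ^ 2) * c * (2 : ℝ) ^ (δ * i)))) ≤ ε / 2 / 4 := by
    have h0' := hx0.const_mul R
    rw [mul_zero] at h0'
    have h1 := h0'.eventually (ge_mem_nhds (one_pos : (0 : ℝ) < 1))
    have h2' : (0 : ℝ) < ε / 2 / 4 := by positivity
    have h2 := (tend63n (κ := η / (6 * R ^ 2) * c) (by positivity) hδ (B * B)).eventually (ge_mem_nhds h2')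
    obtain ⟨i1, h3⟩ := eventually_atTop.1 h1
    obtain ⟨i2, h4⟩ := eventually_atTop.1 h2
    exact ⟨max 2 (max i1 i2), le_max_left _ _,
      fun i hi => h3 i (((le_max_left _ _).trans (le_max_right _ _)).trans hi),
      fun i hi => h4 i (((le_max_right _ _).trans (le_max_right _ _)).trans hi)⟩
  have key := net (P := law d) (Bx_bd k R)
    (bad := fun i u => ⋃ n ∈ Finset.Ico (2 ^ i) (2 ^ (i + 1)), {ω | ε < |∫ p, G ((Fr (fam D e u) ω)^[n] p) * Ψ p|})
    (bad' := fun i u => ⋃ n ∈ Finset.Ico (2 ^ i) (2 ^ (i + 1)),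
      {ω | ε / 2 < |∫ p, G ((Fr (fam D e u) ω)^[n] p) * Ψ p|})
    (Λ := Λ ^ 2) (C := 2 * (2 / c₂)) (c := c₂ / 2) (one_le_pow₀ hΛ1) hδ₀ (by positivity) (by positivity) hδ
    (i₀ := i₀) ?_ ?_
  · filter_upwards [key] with ω hω
    obtain ⟨i₁, h1⟩ := hω
    refine ⟨2 ^ i₁, fun n hn u hu => ?_⟩
    have hn0 : n ≠ 0 := by
      have : 0 < 2 ^ i₁ := Nat.two_pow_pos i₁
      omega
    have hi : i₁ ≤ Nat.log 2 n := Nat.le_log_of_pow_le one_lt_two hn
    by_contra hcon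
    refine h1 (Nat.log 2 n) hi u hu ?_
    simp only [Set.mem_iUnion]
    exact ⟨n, Finset.mem_Ico.2 ⟨Nat.pow_log_le_self 2 hn0, Nat.lt_pow_succ_log_self one_lt_two n⟩, not_le.1 hcon⟩
  · -- the bad events for near parameters
    intro i hi u hu u' hu' hdist ω hω
    simp only [Set.mem_iUnion] at hω ⊢
    obtain ⟨n, hnm, hω⟩ := hω
    refine ⟨n, hnm, ?_⟩
    have hn2 : n ≤ 2 * 2 ^ i := by
      have := (Finset.mem_Ico.1 hnm).2
      rw [pow_succ] at this
      omega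
    have hfu := fam_ok hD he hR hu
    have hfu' := fam_ok hD he hR hu'
    have hd : |(∫ p, G ((Fr (fam D e u) ω)^[n] p) * Ψ p) - ∫ p, G ((Fr (fam D e u') ω)^[n] p) * Ψ p| ≤
        ε / 2 := by
      rw [← integral_sub (int63n hfu hG.measurable hΨ.measurable hBG hBΨ ω _)
        (int63n hfu' hG.measurable hΨ.measurable hBG hBΨ ω _), ← Real.norm_eq_abs]
      refine (norm_integral_le_of_norm_le_const (C := ε / 2) (Filter.Eventually.of_forall fun p => ?_)).trans ?_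
      · obtain ⟨θ, z⟩ := p
        rw [← sub_mul, norm_mul, Fr_iter, Fr_iter]
        have h2 := (hΛ (ar (fam D e u) ω θ) (ar (fam D e u') ω θ) (K' * dist u u') (by positivity)
          (fun j => (Complex.abs_re_le_norm _).trans ((hK u hu).1 ω _))
          (fun j => (Complex.abs_re_le_norm _).trans ((hK u' hu').1 ω _))
          (fun j => by
            have h3 := hK' u u' ω (θ + j • D.α)
            have h4 : ar (fam D e u) ω θ j - ar (fam D e u') ω θ j =
                ((fam D e u).A ω (θ + j • D.α) - (fam D e u').A ω (θ + j • D.α)).re := by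
              rw [Complex.sub_re]
              rfl
            rw [h4]
            exact (Complex.abs_re_le_norm _).trans h3) z z (by rw [dist_self]; positivity) n).1
        have h5 : dist ((θ + n • (fam D e u).α, orb (Ar (fam D e u) ω θ) z n) : Td d × TT)
            (θ + n • (fam D e u').α, orb (Ar (fam D e u') ω θ) z n) < ρ := by
          rw [Prod.dist_eq]
          refine max_lt ?_ ?_
          · show dist (θ + n • D.α) (θ + n • D.α) < ρ
            rw [dist_self]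
            exact hρ
          · refine lt_of_le_of_lt h2 ?_
            have hpw : Λ ^ n ≤ (Λ ^ 2) ^ (2 ^ i : ℕ) := by
              rw [← pow_mul]
              exact pow_le_pow_right₀ hΛ1 hn2
            calc Λ ^ n * (K' * dist u u') ≤ (Λ ^ 2) ^ (2 ^ i : ℕ) * (K' * dist u u') :=
                  mul_le_mul_of_nonneg_right hpw (by positivity)
              _ = K' * ((Λ ^ 2) ^ (2 ^ i : ℕ) * dist u u') := by ring
              _ ≤ K' * δ₀ := mul_le_mul_of_nonneg_left hdist hK'0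
              _ < ρ := hδ₀2
        have h6 := huc _ _ h5
        calc ‖G (θ + n • (fam D e u).α, orb (Ar (fam D e u) ω θ) z n) -
              G (θ + n • (fam D e u').α, orb (Ar (fam D e u') ω θ) z n)‖ * ‖Ψ (θ, z)‖
            ≤ ε / (2 * B) * B := mul_le_mul h6 (hBΨ _) (norm_nonneg _) (by positivity)
          _ = ε / 2 := by field_simp
      · simp
    have h7 : ε < |∫ p, G ((Fr (fam D e u) ω)^[n] p) * Ψ p| := hω
    show ε / 2 < |∫ p, G ((Fr (fam D e u') ω)^[n] p) * Ψ p|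
    have h8 := abs_sub_abs_le_abs_sub (∫ p, G ((Fr (fam D e u) ω)^[n] p) * Ψ p)
      (∫ p, G ((Fr (fam D e u') ω)^[n] p) * Ψ p)
    linarith
  · -- the measure of the bad events
    intro i hi u hu
    have hfu := fam_ok hD he hR hu
    have one : ∀ n ∈ Finset.Ico (2 ^ i) (2 ^ (i + 1)),
        law d {ω : Om d | ε / 2 < |∫ p, G ((Fr (fam D e u) ω)^[n] p) * Ψ p|} ≤
          ENNReal.ofReal (2 * Real.exp (-(c₂ * (2 : ℝ) ^ ((1 + δ) * i)))) := by
      intro n hnm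
      obtain ⟨hna, hnb⟩ := Finset.mem_Ico.1 hnm
      have hn1 : 1 ≤ n := Nat.one_le_two_pow.trans hna
      have hn4 : 4 ≤ n := by
        calc 4 = 2 ^ 2 := rfl
          _ ≤ 2 ^ i := Nat.pow_le_pow_right (by norm_num) (hi4.trans hi)
          _ ≤ n := hna
      have hcor : ∀ ω, ∫ p, G ((Fr (fam D e u) ω)^[n] p) * Ψ p =
          ∫ θ, ph63n (fam D e u) G Ψ n (Ar (fam D e u) ω θ) θ := fun ω =>
        fub63n hfu hG.measurable hΨ.measurable hBG hBΨ ω _
      have hpm := ph_meas63n hfu hG.measurable hΨ.measurable n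
      have hms : MeasurableSet {ω : Om d | ε / 2 < |∫ p, G ((Fr (fam D e u) ω)^[n] p) * Ψ p|} := by
        have h1 : Measurable fun ω : Om d => ∫ p, G ((Fr (fam D e u) ω)^[n] p) * Ψ p :=
          ((int_meas63n hfu hG.measurable hΨ.measurable n).stronglyMeasurable.integral_prod_right').measurable
        have h2 : Measurable fun ω : Om d => |∫ p, G ((Fr (fam D e u) ω)^[n] p) * Ψ p| := h1.abs
        exact measurableSet_lt measurable_const h2
      refine wl_le (L i) hms fun ξ => ?_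
      obtain ⟨M, β, hM1, hM2, hβ⟩ := pts (fam D e u) hD.hd (L i) n hn1
      have hloc : Loc (fam D e u) (L i) n fun ω θ => ph63n (fam D e u) G Ψ n (Ar (fam D e u) ω θ) θ := by
        refine loc_of hfu fun θ A A' h => ?_
        unfold ph63n
        refine integral_congr_ae (Filter.Eventually.of_forall fun z => ?_)
        simp only [orb_congr63n A A' z n h]
      -- the means
      have hmean : ∀ θ, |∫ ω, ph63n (fam D e u) G Ψ n (Ar (fam D e u) ω θ) θ ∂wl (L i) ξ| ≤ ε / 2 / 4 := by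
        intro θ
        have hs : (fam D e u).s (L i) = u 0 * (NN (L i) : ℝ) ^ (-D.b) := rfl
        have hxp : 0 < (NN (L i) : ℝ) ^ (-D.b) :=
          Real.rpow_pos_of_pos (by exact_mod_cast Pool.Agent.Helper18.FD.NN_pos (L i)) _
        have hu0 : u 0 ≤ R := (le_abs_self _).trans ((norm_le_pi_norm u 0).trans hu.1)
        have hs1 : (fam D e u).s (L i) ≤ 1 := by
          rw [hs]
          exact (mul_le_mul_of_nonneg_right hu0 hxp.le).trans (his i hi)
        have hs2 : (NN (L i) : ℝ) ^ (-D.b) / R ≤ (fam D e u).s (L i) := by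
          rw [hs, div_eq_mul_one_div, mul_comm]
          exact mul_le_mul_of_nonneg_right hu.2 hxp.le
        have hisou : (fam D e u).iso (L i) n := fun k hk hk' =>
          hiso i k hk (lt_of_lt_of_le hk' (hnb.le.trans (Nat.pow_le_pow_right (by norm_num) (by omega))))
        have h1 := corW hfu (hK u hu).2 hη hη1 hgapK (wl_rs (L i) ξ) hisou hs1
          (g := fun z => G (θ + n • (fam D e u).α, z)) (ψ := fun z => Ψ (θ, z))
          (hG.measurable.comp (measurable_const.prodMk measurable_id))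
          (hΨ.measurable.comp (measurable_const.prodMk measurable_id))
          (K := B) (K' := B) (fun z => hBG _) (fun z => hBΨ _) (h0 θ) θ
        refine le_trans h1 (le_trans (mul_le_mul_of_nonneg_left ?_ (by positivity)) (hie i hi))
        apply Real.sqrt_le_sqrt
        have h2 := pw63n (n := n) (c₀ := c * (2 : ℝ) ^ (δ * i)) hη hη1 hs1 hR hxp hs2 hn4 (by
          refine (hr1 i).trans ?_
          have h9 : ((2 : ℝ) ^ i) ≤ (n : ℝ) := by exact_mod_cast hna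
          exact mul_le_mul_of_nonneg_right h9 (sq_nonneg _))
        refine h2.trans (le_of_eq ?_)
        congr 1
        ring
      have h3 := conc_small hβ hM1 (φ := fun ω θ => ph63n (fam D e u) G Ψ n (Ar (fam D e u) ω θ) θ) hpm hloc
        (K := Kc) (ε := ε / 2) (by positivity) (by rw [hKc]; nlinarith) (fun ω θ =>
          (ph_bd63n hBG hBΨ _ _ _).trans (by rw [hKc]; linarith)) ξ hmean
      have h4 : {ω : Om d | ε / 2 < |∫ p, G ((Fr (fam D e u) ω)^[n] p) * Ψ p|} =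
          {ω : Om d | ε / 2 < |∫ θ, ph63n (fam D e u) G Ψ n (Ar (fam D e u) ω θ) θ|} := by
        ext ω
        simp only [Set.mem_ofPred_eq, hcor]
      rw [h4]
      refine h3.trans (ENNReal.ofReal_le_ofReal ?_)
      refine mul_le_mul_of_nonneg_left (Real.exp_le_exp.2 (neg_le_neg ?_)) two_pos.le
      have h5 := hr2 i
      rw [le_div_iff₀ (by positivity)] at h5
      have h6 : c / (4 * 4 ^ d) * (2 : ℝ) ^ ((1 + δ) * i) ≤ M := by
        rw [div_mul_eq_mul_div, div_le_iff₀ (by positivity)]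
        have h7 : (0 : ℝ) < 2 ^ i := by positivity
        have h8 : c * (2 : ℝ) ^ ((1 + δ) * i) * 2 ^ i ≤ M * (4 * 4 ^ d) * 2 ^ i := by
          refine h5.trans (hM2.trans ?_)
          have h10 : (n : ℝ) ≤ 2 * 2 ^ i := by
            have : n ≤ 2 ^ (i + 1) := hnb.le
            have h11 : (n : ℝ) ≤ ((2 ^ (i + 1) : ℕ) : ℝ) := by exact_mod_cast this
            refine h11.trans (le_of_eq ?_)
            push_cast
            ring
          calc (M : ℝ) * (2 * n * 4 ^ d) ≤ M * (2 * (2 * 2 ^ i) * 4 ^ d) := by gcongr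
            _ = M * (4 * 4 ^ d) * 2 ^ i := by ring
        exact le_of_mul_le_mul_right h8 h7
      calc c₂ * (2 : ℝ) ^ ((1 + δ) * i) = c / (4 * 4 ^ d) * (2 : ℝ) ^ ((1 + δ) * i) *
            ((ε / 2) ^ 2 / (16 * Kc ^ 2)) := by rw [hc₂]; ring
        _ ≤ M * ((ε / 2) ^ 2 / (16 * Kc ^ 2)) := mul_le_mul_of_nonneg_right h6 (by positivity)
        _ = M * (ε / 2) ^ 2 / (16 * Kc ^ 2) := by ring
    -- the union bound
    refine (measure_biUnion_finset_le _ _).trans ((Finset.sum_le_sum one).trans ?_)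
    rw [Finset.sum_const, Nat.card_Ico, nsmul_eq_mul, ← ENNReal.ofReal_natCast,
      ← ENNReal.ofReal_mul (Nat.cast_nonneg _)]
    refine ENNReal.ofReal_le_ofReal ?_
    have hcard : ((2 ^ (i + 1) - 2 ^ i : ℕ) : ℝ) = 2 ^ i := by
      have : 2 ^ (i + 1) - 2 ^ i = 2 ^ i := by rw [pow_succ]; omega
      rw [this]
      push_cast
      rfl
    rw [hcard]
    have hx1 : (2 : ℝ) ^ i ≤ (2 : ℝ) ^ ((1 + δ) * i) := by
      rw [← Real.rpow_natCast]
      apply Real.rpow_le_rpow_of_exponent_le one_le_two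
      have : (0 : ℝ) ≤ i := Nat.cast_nonneg i
      nlinarith
    have hx2 : c₂ / 2 * 2 ^ i ≤ Real.exp (c₂ / 2 * (2 : ℝ) ^ ((1 + δ) * i)) := by
      have h1 := Real.add_one_le_exp (c₂ / 2 * (2 : ℝ) ^ ((1 + δ) * i))
      have h2 : c₂ / 2 * 2 ^ i ≤ c₂ / 2 * (2 : ℝ) ^ ((1 + δ) * i) :=
        mul_le_mul_of_nonneg_left hx1 (by positivity)
      linarith
    have hx3 : (2 : ℝ) ^ i ≤ 2 / c₂ * Real.exp (c₂ / 2 * (2 : ℝ) ^ ((1 + δ) * i)) := by
      have h1 : (2 : ℝ) ^ i = 2 / c₂ * (c₂ / 2 * 2 ^ i) := by field_simp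
      rw [h1]
      exact mul_le_mul_of_nonneg_left hx2 (by positivity)
    have hx4 : Real.exp (-(c₂ * (2 : ℝ) ^ ((1 + δ) * i))) =
        Real.exp (-(c₂ / 2 * (2 : ℝ) ^ ((1 + δ) * i))) * Real.exp (-(c₂ / 2 * (2 : ℝ) ^ ((1 + δ) * i))) := by
      rw [← Real.exp_add]
      congr 1
      ring
    have hx5 : Real.exp (c₂ / 2 * (2 : ℝ) ^ ((1 + δ) * i)) * Real.exp (-(c₂ / 2 * (2 : ℝ) ^ ((1 + δ) * i))) = 1 := by
      rw [← Real.exp_add, add_neg_cancel, Real.exp_zero]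
    calc (2 : ℝ) ^ i * (2 * Real.exp (-(c₂ * (2 : ℝ) ^ ((1 + δ) * i))))
        ≤ (2 / c₂ * Real.exp (c₂ / 2 * (2 : ℝ) ^ ((1 + δ) * i))) *
            (2 * Real.exp (-(c₂ * (2 : ℝ) ^ ((1 + δ) * i)))) :=
          mul_le_mul_of_nonneg_right hx3 (by positivity)
      _ = 2 * (2 / c₂) * Real.exp (-(c₂ / 2 * (2 : ℝ) ^ ((1 + δ) * i))) *
            (Real.exp (c₂ / 2 * (2 : ℝ) ^ ((1 + δ) * i)) * Real.exp (-(c₂ / 2 * (2 : ℝ) ^ ((1 + δ) * i)))) := by
          rw [hx4]; ring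
      _ = 2 * (2 / c₂) * Real.exp (-(c₂ / 2 * (2 : ℝ) ^ ((1 + δ) * i))) := by rw [hx5, mul_one]

end Pool.Agent.Helper46.QA
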