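import Pool.Agent.Helper46.QR.Defs

/-! Block QA-FAM: finite dimensional families of data: background `Σ_i u_(i+1) e_i`, size of the noise `q = u_0`.

`A_bd` for one datum (`A0 = 0`, `q = 1`) bounds the noise `nz`; `(fam D e u).A ω θ = Σ u_(i+1) e_i θ + u_0 * nz D.χ D.b ω θ`; `Am` is `A` at an updated `ω`. -/

set_option autoImplicit false
open MeasureTheory Real Set
open scoped ENNReal

namespace Pool.Agent.Helper46.QA

open Pool.Agent.Helper18.FD (NN rr)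
open Pool.Agent.Helper46.QP Pool.Agent.Helper46.QR

variable {d : ℕ}

/-- the family -/
noncomputable def fam (D : Dat d) {k : ℕ} (e : Fin k → Td d → ℝ) (u : Fin (k + 1) → ℝ) : Dat d :=
  { D with A0 := fun θ => ((∑ i : Fin k, u i.succ * e i θ : ℝ) : ℂ), q := u 0 }

/-- the box of parameters -/
def Bx (k : ℕ) (R : ℝ) : Set (Fin (k + 1) → ℝ) := {u | ‖u‖ ≤ R ∧ 1 / R ≤ u 0}

variable {D : Dat d} {k : ℕ} {e : Fin k → Td d → ℝ} {R : ℝ}

/-- bound of the noise -/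
private theorem nz_bd56 (hD : D.Ok) : ∃ K : ℝ, 0 ≤ K ∧ ∀ (ω : Om d) (θ : Td d), ‖nz D.χ D.b ω θ‖ ≤ K := by
  have h1 : ({ D with A0 := fun _ => 0, q := 1 } : Dat d).Ok :=
    { hd := hD.hd, hA := continuous_const, hq := one_pos, hb := hD.hb, hχ := hD.hχ, one := hD.one, zero := hD.zero }
  obtain ⟨K, hK0, hK⟩ := A_bd h1
  refine ⟨K, hK0, fun ω θ => ?_⟩
  have h2 := hK ω θ
  have e : ({ D with A0 := fun _ => 0, q := 1 } : Dat d).A ω θ = nz D.χ D.b ω θ := by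
    unfold Dat.A
    show (0 : ℂ) + ((1 : ℝ) : ℂ) * nz D.χ D.b ω θ = _
    rw [Complex.ofReal_one, one_mul, zero_add]
  rwa [e] at h2

/-- bounds of the background functions -/
private theorem e_bd56 (he : ∀ i, Continuous (e i)) : ∃ E : Fin k → ℝ, (∀ i, 0 ≤ E i) ∧ ∀ i θ, |e i θ| ≤ E i := by
  have h : ∀ i, ∃ K : ℝ, 0 ≤ K ∧ ∀ θ, |e i θ| ≤ K := by
    intro i
    obtain ⟨K', hK'⟩ := (isCompact_univ (X := Td d)).exists_bound_of_continuousOn (he i).continuousOn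
    exact ⟨max K' 0, le_max_right _ _, fun θ => (hK' θ (mem_univ θ)).trans (le_max_left _ _)⟩
  choose E h0 h1 using h
  exact ⟨E, h0, h1⟩

private theorem fam_A56 (u : Fin (k + 1) → ℝ) (ω : Om d) (θ : Td d) : (fam D e u).A ω θ =
    ((∑ i : Fin k, u i.succ * e i θ : ℝ) : ℂ) + ((u 0 : ℝ) : ℂ) * nz D.χ D.b ω θ := rfl

private theorem lin_bd56 {E : Fin k → ℝ} (hE : ∀ i θ, |e i θ| ≤ E i) {Kn : ℝ} {c : ℝ}
    (u : Fin (k + 1) → ℝ) (hu : ∀ i, |u i| ≤ c) (ω : Om d) (θ : Td d) (hn : ‖nz D.χ D.b ω θ‖ ≤ Kn) :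
    ‖((∑ i : Fin k, u i.succ * e i θ : ℝ) : ℂ) + ((u 0 : ℝ) : ℂ) * nz D.χ D.b ω θ‖ ≤
      c * (∑ i, E i) + c * Kn := by
  have hc : 0 ≤ c := (abs_nonneg _).trans (hu 0)
  refine (norm_add_le _ _).trans (add_le_add ?_ ?_)
  · rw [Complex.norm_real, Real.norm_eq_abs, Finset.mul_sum]
    refine (Finset.abs_sum_le_sum_abs _ _).trans (Finset.sum_le_sum fun i _ => ?_)
    rw [abs_mul]
    exact mul_le_mul (hu _) (hE i θ) (abs_nonneg _) hc
  · rw [norm_mul, Complex.norm_real, Real.norm_eq_abs]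
    exact mul_le_mul (hu 0) hn (norm_nonneg _) hc

theorem fam_ok (hD : D.Ok) (he : ∀ i, Continuous (e i)) (hR : 1 ≤ R) {u : Fin (k + 1) → ℝ} (hu : u ∈ Bx k R) :
    (fam D e u).Ok := by
  have hu0 : 0 < u 0 := lt_of_lt_of_le (by positivity) hu.2
  refine { hd := hD.hd, hA := ?_, hq := hu0, hb := hD.hb, hχ := hD.hχ, one := hD.one, zero := hD.zero }
  show Continuous fun θ => ((∑ i : Fin k, u i.succ * e i θ : ℝ) : ℂ)
  exact Complex.continuous_ofReal.comp (continuous_finsetSum _ fun i _ => continuous_const.mul (he i))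

theorem fam_bd (hD : D.Ok) (he : ∀ i, Continuous (e i)) (hR : 1 ≤ R) : ∃ K : ℝ, 0 ≤ K ∧ ∀ u ∈ Bx k R,
    (∀ ω θ, ‖(fam D e u).A ω θ‖ ≤ K) ∧ ∀ l ω θ, ‖(fam D e u).Am l ω θ‖ ≤ K := by
  obtain ⟨Kn, hKn0, hKn⟩ := nz_bd56 hD
  obtain ⟨E, hE0, hE⟩ := e_bd56 he
  have hs : 0 ≤ ∑ i, E i := Finset.sum_nonneg fun i _ => hE0 i
  have hR0 : 0 ≤ R := zero_le_one.trans hR
  have key : ∀ u ∈ Bx k R, ∀ ω θ, ‖(fam D e u).A ω θ‖ ≤ R * (∑ i, E i) + R * Kn := by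
    intro u hu ω θ
    rw [fam_A56]
    exact lin_bd56 hE u (fun i => (norm_le_pi_norm u i).trans hu.1) ω θ (hKn ω θ)
  exact ⟨R * (∑ i, E i) + R * Kn, by positivity, fun u hu => ⟨key u hu, fun l ω θ => key u hu _ θ⟩⟩

theorem fam_lip (hD : D.Ok) (he : ∀ i, Continuous (e i)) : ∃ K : ℝ, 0 ≤ K ∧ ∀ (u u' : Fin (k + 1) → ℝ) ω θ,
    ‖(fam D e u).A ω θ - (fam D e u').A ω θ‖ ≤ K * dist u u' := by
  obtain ⟨Kn, hKn0, hKn⟩ := nz_bd56 hD
  obtain ⟨E, hE0, hE⟩ := e_bd56 he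
  have hs : 0 ≤ ∑ i, E i := Finset.sum_nonneg fun i _ => hE0 i
  refine ⟨(∑ i, E i) + Kn, by positivity, fun u u' ω θ => ?_⟩
  have e1 : (fam D e u).A ω θ - (fam D e u').A ω θ =
      ((∑ i : Fin k, (u - u') i.succ * e i θ : ℝ) : ℂ) + (((u - u') 0 : ℝ) : ℂ) * nz D.χ D.b ω θ := by
    rw [fam_A56, fam_A56]
    have e2 : (∑ i : Fin k, (u - u') i.succ * e i θ : ℝ) =
        (∑ i : Fin k, u i.succ * e i θ) - ∑ i : Fin k, u' i.succ * e i θ := by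
      rw [← Finset.sum_sub_distrib]
      refine Finset.sum_congr rfl fun i _ => ?_
      rw [Pi.sub_apply]
      ring
    rw [e2, Pi.sub_apply]
    push_cast
    ring
  rw [e1]
  refine (lin_bd56 hE (u - u') (c := dist u u') (fun i => ?_) ω θ (hKn ω θ)).trans (le_of_eq (by ring))
  rw [dist_eq_norm]
  exact norm_le_pi_norm (u - u') i

theorem fam_s (u : Fin (k + 1) → ℝ) (l : ℕ) : (fam D e u).s l = u 0 * (NN l : ℝ) ^ (-D.b) := rfl

theorem fam_iso (u : Fin (k + 1) → ℝ) (l n : ℕ) : (fam D e u).iso l n ↔ D.iso l n := Iff.rfl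

theorem Bx_bd (k : ℕ) (R : ℝ) : Bornology.IsBounded (Bx k R) := by
  refine (Metric.isBounded_closedBall (x := (0 : Fin (k + 1) → ℝ)) (r := R)).subset fun u hu => ?_
  rw [mem_closedBall_zero_iff]
  exact hu.1

end Pool.Agent.Helper46.QA
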