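import Pool.Agent.Helper46.QA.AllC
import Pool.Agent.Helper46.QA.AllG
import Pool.Agent.Helper46.QA.AllL
import Pool.Agent.Helper46.QA.Det
import Pool.Agent.Helper82.QR.Fin

/-! Project QA (MP_9ee088_an): assembly. -/

set_option autoImplicit false
open MeasureTheory Real Set Filter Topology

namespace Pool.Agent.Helper46.QA

open Pool.Agent.Helper18.UC (nn)
open Pool.Agent.Helper46
open Pool.Agent.Helper46.QP Pool.Agent.Helper46.QR
open Pool.Agent.Helper82.QR (Good lf good_of hgapT)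

variable {d : ℕ} {D : Dat d}

/-- a function minus its mean values on the fibres -/
noncomputable def psi46 (g : C(Td d × TT, ℝ)) (p : Td d × TT) : ℝ := g p - ∫ z, g (p.1, z)

theorem psi46_cont (g : C(Td d × TT, ℝ)) : Continuous (psi46 g) := by
  refine g.continuous.sub ?_
  have h1 : Continuous fun θ : Td d => ∫ z : TT, g (θ, z) := by
    refine continuous_of_dominated (bound := fun _ => ‖g‖) ?_ ?_ ?_ ?_
    · intro θ
      exact (g.continuous.comp (by fun_prop)).aestronglyMeasurable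
    · intro θ
      exact ae_of_all _ fun z => g.norm_coe_le_norm _
    · exact integrable_const _
    · exact ae_of_all _ fun z => g.continuous.comp (by fun_prop)
  exact h1.comp continuous_fst

theorem psi46_zero (g : C(Td d × TT, ℝ)) (θ : Td d) : ∫ z, psi46 g (θ, z) = 0 := by
  unfold psi46
  have hi : Integrable (fun z : TT => g (θ, z)) volume := by
    refine Integrable.of_bound (g.continuous.comp (by fun_prop)).aestronglyMeasurable ‖g‖ (ae_of_all _ fun z => ?_)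
    exact g.norm_coe_le_norm _
  show ∫ z, (g (θ, z) - ∫ z', g (θ, z')) = 0
  rw [integral_sub hi (integrable_const _)]
  simp

theorem tends_of {f : ℕ → ℝ} (h : ∀ j : ℕ, ∃ i₁ : ℕ, ∀ i ≥ i₁, |f i| ≤ 1 / ((j : ℝ) + 1)) : Tendsto f atTop (𝓝 0) := by
  rw [Metric.tendsto_atTop]
  intro ε hε
  obtain ⟨j, hj⟩ := exists_nat_one_div_lt hε
  obtain ⟨i₁, h1⟩ := h j
  refine ⟨i₁, fun i hi => ?_⟩
  rw [Real.dist_eq, sub_zero]
  exact (h1 i hi).trans_lt hj

/-- all parameters at once -/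
theorem all_good (hD : D.Ok) (hb : D.b < d / 4)
    (hα : ∀ τ : ℝ, 1 / (d : ℝ) < τ → ∃ c : ℝ, 0 < c ∧ ∀ k : ℕ, 1 ≤ k → c * (k : ℝ) ^ (-τ) ≤ ‖k • D.α‖)
    (hind : ∀ k : Fin d → ℤ, k ≠ 0 → ∑ m, k m • D.α m ≠ 0) {e : ℕ → Td d → ℝ} (he : ∀ i, Continuous (e i)) :
    ∀ᵐ ω ∂law d, ∀ b ∈ Submodule.span ℝ (Set.range e), ∀ q : ℝ, 0 < q →
      Good D.α fun θ => b θ + q * (nz D.χ D.b ω θ).re := by
  classical
  obtain ⟨S, hSc, hSd⟩ := TopologicalSpace.exists_countable_dense C(Td d × TT, ℝ)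
  have hScc : Countable S := hSc.to_subtype
  -- the correlations
  have hC : ∀ᵐ ω ∂law d, ∀ (k R : ℕ) (g g' : S) (j : ℕ), ∃ i₁ : ℕ, ∀ i ≥ i₁,
      ∀ u ∈ Bx k ((R : ℝ) + 1), |∫ p, g.1 ((Fr (fam D (fun i : Fin k => e i) u) ω)^[2 ^ i] p) * psi46 g'.1 p| ≤ 1 / ((j : ℝ) + 1) := by
    rw [ae_all_iff]; intro k
    rw [ae_all_iff]; intro R
    rw [ae_all_iff]; intro g
    rw [ae_all_iff]; intro g'
    rw [ae_all_iff]; intro j
    exact all_cor hD hb hgapT hα (fun i => he i) (by have := Nat.cast_nonneg (α := ℝ) R; linarith) g.1.continuous (psi46_cont g'.1)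
      (psi46_zero g'.1) (by positivity)
  -- the growth
  have hG : ∀ k R : ℕ, ∃ δ : ℝ, 0 < δ ∧ ∀ᵐ ω ∂law d, ∀ j : ℕ, ∃ i₁ : ℕ, ∀ i ≥ i₁, ∀ u ∈ Bx k ((R : ℝ) + 1),
      (volume : Measure (Td d × TT)).real
        {p | Real.log (nn (Mx (Ar (fam D (fun i : Fin k => e i) u) ω p.1) p.2 (2 ^ i))) < (2 : ℝ) ^ (δ * i)} ≤
          1 / ((j : ℝ) + 1) := by
    intro k R
    obtain ⟨δ, hδ, h⟩ := all_gro (e := fun i : Fin k => e i) (R := (R : ℝ) + 1) hD hb hα (fun i => he i)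
      (by have := Nat.cast_nonneg (α := ℝ) R; linarith)
    refine ⟨δ, hδ, ?_⟩
    rw [ae_all_iff]; intro j
    exact h _ (by positivity)
  choose δ hδ hG using hG
  -- the loss
  have hL : ∀ k R : ℕ, ∃ C : ℝ, 0 < C ∧ ∀ᵐ ω ∂law d, ∃ i₁ : ℕ, ∀ i ≥ i₁, ∀ u ∈ Bx k ((R : ℝ) + 1),
      ∫ p : Td d × TT, los (fam D (fun i : Fin k => e i) u) (2 ^ i) ω p.1 p.2 ≤ C * (i + 1) := fun k R =>
    all_los hD hb hα (fun i => he i) (by have := Nat.cast_nonneg (α := ℝ) R; linarith)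
  choose C hC0 hL using hL
  have hG' : ∀ᵐ ω ∂law d, ∀ k R j : ℕ, ∃ i₁ : ℕ, ∀ i ≥ i₁, ∀ u ∈ Bx k ((R : ℝ) + 1),
      (volume : Measure (Td d × TT)).real
        {p | Real.log (nn (Mx (Ar (fam D (fun i : Fin k => e i) u) ω p.1) p.2 (2 ^ i))) < (2 : ℝ) ^ (δ k R * i)} ≤
          1 / ((j : ℝ) + 1) := by
    rw [ae_all_iff]; intro k
    rw [ae_all_iff]; intro R
    exact hG k R
  have hL' : ∀ᵐ ω ∂law d, ∀ k R : ℕ, ∃ i₁ : ℕ, ∀ i ≥ i₁, ∀ u ∈ Bx k ((R : ℝ) + 1),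
      ∫ p : Td d × TT, los (fam D (fun i : Fin k => e i) u) (2 ^ i) ω p.1 p.2 ≤ C k R * (i + 1) := by
    rw [ae_all_iff]; intro k
    rw [ae_all_iff]; intro R
    exact hL k R
  filter_upwards [hC, hG', hL'] with ω h1 h2 h3 b hbS q hq
  -- the parameters
  obtain ⟨c, hc⟩ := Finsupp.mem_span_range_iff_exists_finsupp.1 hbS
  obtain ⟨k, hk⟩ : ∃ k : ℕ, ∀ i ∈ c.support, i < k := by
    refine ⟨c.support.sup id + 1, fun i hi => ?_⟩
    exact Nat.lt_succ_of_le (Finset.le_sup (f := id) hi)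
  have hbk : ∀ θ, b θ = ∑ i : Fin k, c i * e i θ := by
    intro θ
    rw [← hc, Finsupp.sum_of_support_subset c (s := Finset.range k) (fun i hi => Finset.mem_range.2 (hk i hi)) _ (by simp),
      Finset.sum_apply, Finset.sum_range]
    simp
  set u : Fin (k + 1) → ℝ := Fin.cons q fun i => c i with hu
  have hu0 : u 0 = q := rfl
  have hus : ∀ i : Fin k, u i.succ = c i := fun i => rfl
  obtain ⟨R, hR⟩ := exists_nat_ge (max ‖u‖ (1 / q))
  have hR1 : ‖u‖ ≤ (R : ℝ) + 1 := by have := (le_max_left _ _).trans hR; linarith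
  have hR2 : 1 / q ≤ (R : ℝ) + 1 := by have := (le_max_right ‖u‖ (1 / q)).trans hR; linarith
  have hR3 : (1 : ℝ) ≤ (R : ℝ) + 1 := by have := Nat.cast_nonneg (α := ℝ) R; linarith
  have hBu : u ∈ Bx k ((R : ℝ) + 1) := by
    refine ⟨hR1, ?_⟩
    rw [hu0, one_div_le (by linarith) hq]
    exact hR2
  set Du : Dat d := fam D (fun i : Fin k => e i) u with hDu
  have hDk : Du.Ok := fam_ok hD (fun i => he i) hR3 hBu
  have hcor : ∀ g ∈ S, ∀ g' ∈ S, Tendsto (fun i : ℕ => ∫ p, g ((Fr Du ω)^[2 ^ i] p) * (g' p - ∫ z, g' (p.1, z))) atTop (𝓝 0) := by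
    intro g hg g' hg'
    refine tends_of fun j => ?_
    obtain ⟨i₁, h⟩ := h1 k R ⟨g, hg⟩ ⟨g', hg'⟩ j
    exact ⟨i₁, fun i hi => h i hi u hBu⟩
  have hrot : Ergodic (fun θ : Td d => θ + Du.α) volume := Pool.Agent.Helper82.QP.rot_erg hind
  refine good_of (D := Du) hDk hind (det_erg hDk ω hSd hcor hrot) ?_ ?_ fun θ => ?_
  · intro ξ h hξ hm hbd hinv
    exact det_fib hDk ω hSd hcor ξ h hξ hm hbd hinv
  · refine det_lya (C := C k R) hDk ω (hδ k R) (fun ε hε => ?_) ?_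
    · obtain ⟨j, hj⟩ := exists_nat_one_div_lt hε
      obtain ⟨i₁, h⟩ := h2 k R j
      exact ⟨i₁, fun i hi => (h i hi u hBu).trans hj.le⟩
    · obtain ⟨i₁, h⟩ := h3 k R
      exact ⟨i₁, fun i hi => h i hi u hBu⟩
  · rw [hDu]
    unfold fam Dat.A
    simp only [hus, hu0]
    rw [Complex.add_re, Complex.ofReal_re, Complex.re_ofReal_mul, hbk]

end Pool.Agent.Helper46.QA
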