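import Pool.Agent.Helper46.QA.W
import Pool.Agent.Helper46.QR.PairsR

/-! Block QA-MEAN, first part: `annW` and `corW`. -/

set_option autoImplicit false
open MeasureTheory Real Set
open scoped ENNReal

namespace Pool.Agent.Helper46.QA

open Pool.Agent.Helper18.UC (nn)
open Pool.Agent.Helper18.FD (NN rr)
open Pool.Agent.Helper46.QP Pool.Agent.Helper46.QR
open Pool.Agent.Helper82.QR (sn cs sr vr Qr)

section ann

variable {d : ℕ} {D : Dat d}

variable {Y : Type*}

private theorem ch_congr56 {st : ℂ → Y → Y} {kk : ℂ → Y → ℝ≥0∞} {φ : Y → ℝ≥0∞} (n : ℕ) :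
    ∀ (A B : ℕ → ℂ) (y : Y), (∀ j < n, A j = B j) → ch st kk φ A n y = ch st kk φ B n y := by
  induction n with
  | zero => intro A B y _; rfl
  | succ n ih =>
    intro A B y h
    show kk (A 0) y * ch st kk φ (fun j => A (j + 1)) n (st (A 0) y) =
      kk (B 0) y * ch st kk φ (fun j => B (j + 1)) n (st (B 0) y)
    rw [h 0 (Nat.succ_pos n), ih (fun j => A (j + 1)) (fun j => B (j + 1)) _
      (fun j hj => h (j + 1) (Nat.succ_lt_succ hj))]

private theorem ach_congr56 {st : ℂ → Y → Y} {kk : ℂ → Y → ℝ≥0∞} {φ : Y → ℝ≥0∞} (s : ℝ) (n : ℕ) :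
    ∀ (A B : ℕ → ℂ) (y : Y), (∀ j < n, A j = B j) → ach st kk φ s A n y = ach st kk φ s B n y := by
  induction n with
  | zero => intro A B y _; rfl
  | succ n ih =>
    intro A B y h
    show (∫⁻ w, kk (A 0 + s * w) y * ach st kk φ s (fun j => A (j + 1)) n (st (A 0 + s * w) y) ∂dl) =
      ∫⁻ w, kk (B 0 + s * w) y * ach st kk φ s (fun j => B (j + 1)) n (st (B 0 + s * w) y) ∂dl
    rw [h 0 (Nat.succ_pos n)]
    refine lintegral_congr fun w => ?_
    rw [ih (fun j => A (j + 1)) (fun j => B (j + 1)) _ (fun j hj => h (j + 1) (Nat.succ_lt_succ hj))]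

private theorem Ams_shift56 (D : Dat d) (l : ℕ) (ω : Om d) (θ : Td d) :
    (fun j => D.Ams l ω θ (j + 1)) = D.Ams l ω (θ + 1 • D.α) := by
  funext j
  unfold Dat.Ams
  rw [add_assoc, ← add_nsmul, add_comm 1 j]

private theorem As_zero56 (D : Dat d) (ω : Om d) (θ : Td d) : D.As ω θ 0 = D.A ω θ := by
  unfold Dat.As
  rw [zero_nsmul, add_zero]

private theorem Ams_zero56 (D : Dat d) (l : ℕ) (ω : Om d) (θ : Td d) : D.Ams l ω θ 0 = D.Am l ω θ := by
  unfold Dat.Ams
  rw [zero_nsmul, add_zero]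

private theorem dist_shift56 (θ a : Td d) : dist θ (θ + a) = ‖a‖ := by
  rw [dist_self_add_right]

private theorem A_meas56 (hD : D.Ok) (θ : Td d) : Measurable fun ω : Om d => D.A ω θ :=
  (A_meas hD).comp (measurable_id.prodMk measurable_const)

private theorem As_meas56 (hD : D.Ok) (θ : Td d) : Measurable fun ω : Om d => D.As ω θ :=
  (As_meas hD).comp (measurable_id.prodMk measurable_const)

private theorem Ams_meas56 (hD : D.Ok) (l : ℕ) (θ : Td d) : Measurable fun ω : Om d => D.Ams l ω θ := by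
  have h0 : Measurable fun ω : Om d => ((ω, θ) : Om d × Td d) := measurable_id.prodMk measurable_const
  have h := (Ams_meas hD l).comp h0
  exact h

end ann

/-- resampling under the law `W` -/
private theorem resW56 {d : ℕ} {l : ℕ} {W : Measure (Om d)} (hW : Rs l W) (c : Fin d → ℕ) {F : Om d → ℝ≥0∞}
    (hF : Measurable F) : ∫⁻ ω, F ω ∂W = ∫⁻ ω, ∫⁻ w, F (Function.update ω (l, c) w) ∂dl ∂W := by
  rw [← (hW.res c).lintegral_comp hF]
  exact lintegral_prod _ (hF.comp (hW.res c).measurable).aemeasurable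

theorem annW {d : ℕ} {D : Dat d} {Y : Type*} [MeasurableSpace Y] (hD : D.Ok) {st : ℂ → Y → Y} {kk : ℂ → Y → ℝ≥0∞}
    {φ : Y → ℝ≥0∞} (hst : Measurable fun p : ℂ × Y => st p.1 p.2) (hkk : Measurable fun p : ℂ × Y => kk p.1 p.2)
    (hφ : Measurable φ) {l n : ℕ} {W : Measure (Om d)} (hW : Rs l W) (hi : D.iso l n) (θ : Td d) {ζ : Om d → Y}
    (hζ : Measurable ζ) {H : Om d → ℝ≥0∞} (hH : Measurable H)
    (h1 : ∀ j < n, ∀ ω w, ζ (Function.update ω (l, cl l (θ + j • D.α)) w) = ζ ω)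
    (h2 : ∀ j < n, ∀ ω w, H (Function.update ω (l, cl l (θ + j • D.α)) w) = H ω) :
    ∫⁻ ω, ch st kk φ (D.As ω θ) n (ζ ω) * H ω ∂W =
      ∫⁻ ω, ach st kk φ (D.s l) (D.Ams l ω θ) n (ζ ω) * H ω ∂W := by
  induction n generalizing θ ζ H with
  | zero => rfl
  | succ n ih =>
    have hi' : D.iso l n := fun k hk1 hk2 => hi k hk1 (Nat.lt_succ_of_lt hk2)
    have hdist : ∀ j < n, 2 / (Pool.Agent.Helper18.FD.NN l : ℝ) ≤ dist θ (θ + 1 • D.α + j • D.α) := by
      intro j hj
      rw [add_assoc, ← add_nsmul, dist_shift56]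
      exact hi (1 + j) (by omega) (by omega)
    have hst1 : ∀ {f : Om d → ℂ}, Measurable f → Measurable fun ω => st (f ω) (ζ ω) := fun hf =>
      hst.comp (hf.prodMk hζ)
    have hkk1 : ∀ {f : Om d → ℂ}, Measurable f → Measurable fun ω => kk (f ω) (ζ ω) := fun hf =>
      hkk.comp (hf.prodMk hζ)
    have hζ' := hst1 (A_meas56 hD θ)
    have hH' : Measurable fun ω => kk (D.A ω θ) (ζ ω) * H ω := (hkk1 (A_meas56 hD θ)).mul hH
    have hidx : ∀ j : ℕ, θ + 1 • D.α + j • D.α = θ + (j + 1) • D.α := by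
      intro j
      rw [add_assoc, ← add_nsmul, add_comm 1 j]
    have e1 : ∀ ω, ch st kk φ (D.As ω θ) (n + 1) (ζ ω) * H ω =
        ch st kk φ (D.As ω (θ + 1 • D.α)) n (st (D.A ω θ) (ζ ω)) * (kk (D.A ω θ) (ζ ω) * H ω) := by
      intro ω
      show kk (D.As ω θ 0) (ζ ω) * ch st kk φ (fun j => D.As ω θ (j + 1)) n (st (D.As ω θ 0) (ζ ω)) * H ω = _
      rw [As_add, As_zero56]
      ring
    have e2 := ih hi' (θ + 1 • D.α) hζ' hH' (by
      intro j hj ω w
      rw [A_far hD (by rw [dist_comm]; exact hdist j hj), hidx, h1 (j + 1) (by omega)]) (by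
      intro j hj ω w
      rw [A_far hD (by rw [dist_comm]; exact hdist j hj), hidx, h1 (j + 1) (by omega),
        h2 (j + 1) (by omega)])
    have hF : Measurable fun ω => ach st kk φ (D.s l) (D.Ams l ω (θ + 1 • D.α)) n (st (D.A ω θ) (ζ ω)) *
        (kk (D.A ω θ) (ζ ω) * H ω) :=
      ((ach_meas hst hkk hφ (D.s l) n).comp ((Ams_meas56 hD l (θ + 1 • D.α)).prodMk hζ')).mul hH'
    rw [lintegral_congr e1, e2, resW56 hW (cl l θ) hF]
    refine lintegral_congr fun ω => ?_
    have e3 : ∀ w, ach st kk φ (D.s l) (D.Ams l (Function.update ω (l, cl l θ) w) (θ + 1 • D.α)) n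
          (st (D.A (Function.update ω (l, cl l θ) w) θ) (ζ (Function.update ω (l, cl l θ) w))) *
        (kk (D.A (Function.update ω (l, cl l θ) w) θ) (ζ (Function.update ω (l, cl l θ) w)) *
          H (Function.update ω (l, cl l θ) w)) =
        (fun v : ℂ => kk (D.Am l ω θ + D.s l * v) (ζ ω) *
          ach st kk φ (D.s l) (D.Ams l ω (θ + 1 • D.α)) n (st (D.Am l ω θ + D.s l * v) (ζ ω)) * H ω) (clip w) := by
      intro w
      have h3 := h1 0 (Nat.succ_pos n) ω w
      have h4 := h2 0 (Nat.succ_pos n) ω w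
      rw [zero_nsmul, add_zero] at h3 h4
      rw [h3, h4, A_own hD]
      rw [ach_congr56 (D.s l) n (D.Ams l (Function.update ω (l, cl l θ) w) (θ + 1 • D.α))
        (D.Ams l ω (θ + 1 • D.α)) _ (fun j hj => Am_far hD (hdist j hj) w ω)]
      simp only
      ring
    have e4 : (∫⁻ w, (fun v : ℂ => kk (D.Am l ω θ + D.s l * v) (ζ ω) *
          ach st kk φ (D.s l) (D.Ams l ω (θ + 1 • D.α)) n (st (D.Am l ω θ + D.s l * v) (ζ ω)) * H ω) (clip w) ∂dl) =
        ∫⁻ w, kk (D.Am l ω θ + D.s l * w) (ζ ω) *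
          ach st kk φ (D.s l) (D.Ams l ω (θ + 1 • D.α)) n (st (D.Am l ω θ + D.s l * w) (ζ ω)) * H ω ∂dl := by
      refine lintegral_congr_ae ?_
      filter_upwards [clip_ae] with w hw
      rw [hw]
    rw [lintegral_congr e3, e4, lintegral_mul_const]
    · show _ = (∫⁻ w, kk (D.Ams l ω θ 0 + D.s l * w) (ζ ω) *
          ach st kk φ (D.s l) (fun j => D.Ams l ω θ (j + 1)) n (st (D.Ams l ω θ 0 + D.s l * w) (ζ ω)) ∂dl) * H ω
      rw [Ams_shift56, Ams_zero56]
    · have hv : Measurable fun w : ℂ => D.Am l ω θ + D.s l * w :=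
        measurable_const.add (measurable_const.mul measurable_id)
      refine (hkk.comp (hv.prodMk measurable_const)).mul ?_
      exact (ach_meas hst hkk hφ (D.s l) n).comp
        (measurable_const.prodMk (hst.comp (hv.prodMk measurable_const)))

section cor

variable {d : ℕ} {D : Dat d}

/-! ### measurability -/

private theorem sr_meas56 : Measurable fun p : ℝ × TT => sr p.1 p.2 := by
  have h : (fun p : ℝ × TT => sr p.1 p.2) = fun p : ℝ × TT => stp (p.1 : ℂ) p.2 := by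
    funext p
    exact Pool.Agent.Helper82.QR.sr_eq _ _
  rw [h]
  exact stp_meas.comp ((Complex.measurable_ofReal.comp measurable_fst).prodMk measurable_snd)

private theorem Ar_meas56 (hD : D.Ok) : Measurable fun p : Om d × Td d => Ar D p.1 p.2 := by
  refine measurable_pi_lambda _ fun j => ?_
  have h := (measurable_pi_apply j).comp (As_meas hD)
  exact Complex.measurable_ofReal.comp (Complex.measurable_re.comp h)

private theorem arm_meas56 (hD : D.Ok) (l : ℕ) : Measurable fun p : Om d × Td d => arm D l p.1 p.2 := by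
  refine measurable_pi_lambda _ fun j => ?_
  have h := (measurable_pi_apply j).comp (Ams_meas hD l)
  exact Complex.measurable_re.comp h

private theorem Ar_meas'56 (hD : D.Ok) (θ : Td d) : Measurable fun ω : Om d => Ar D ω θ := by
  have h0 : Measurable fun ω : Om d => ((ω, θ) : Om d × Td d) := measurable_id.prodMk measurable_const
  have h := (Ar_meas56 hD).comp h0
  exact h

private theorem arm_meas'56 (hD : D.Ok) (l : ℕ) (θ : Td d) : Measurable fun ω : Om d => arm D l ω θ := by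
  have h0 : Measurable fun ω : Om d => ((ω, θ) : Om d × Td d) := measurable_id.prodMk measurable_const
  have h := (arm_meas56 hD l).comp h0
  exact h

/-! ### the averaged operators -/

private theorem Qr_w56 {g : TT → ℝ} (hg : BM g) (s : ℝ) (n : ℕ) (A : ℕ → ℝ) (z : TT) (a : ℝ) :
    BM fun w : ℂ => Qr sr s g A n (sr (a + s * w.re) z) :=
  (Pool.Agent.Helper82.QR.Qr_BM sr_meas56 hg s n).comp (measurable_const.prodMk (sr_meas56.comp
    ((measurable_const.add (measurable_const.mul Complex.measurable_re)).prodMk measurable_const)))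

private theorem Qr_nonneg56 {g : TT → ℝ} (h0 : ∀ x, 0 ≤ g x) (s : ℝ) (n : ℕ) : ∀ (A : ℕ → ℝ) (z : TT),
    0 ≤ Qr sr s g A n z := by
  induction n with
  | zero => intro A z; exact h0 z
  | succ n ih => intro A z; exact integral_nonneg fun w => ih _ _

private theorem Qr_add56 {g : TT → ℝ} (hg : BM g) (s c : ℝ) (n : ℕ) : ∀ (A : ℕ → ℝ) (z : TT),
    Qr sr s (fun x => g x + c) A n z = Qr sr s g A n z + c := by
  induction n with
  | zero => intro A z; rfl
  | succ n ih =>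
    intro A z
    show (∫ w, Qr sr s (fun x => g x + c) (fun j => A (j + 1)) n (sr (A 0 + s * w.re) z) ∂dl) =
      (∫ w, Qr sr s g (fun j => A (j + 1)) n (sr (A 0 + s * w.re) z) ∂dl) + c
    simp only [ih]
    rw [integral_add ((Qr_w56 hg s n _ z (A 0)).int dl) (integrable_const c), integral_const,
      probReal_univ, one_smul]

private theorem Qr_one56 (s : ℝ) (n : ℕ) : ∀ (A : ℕ → ℝ) (z : TT), Qr sr s (fun _ => (1 : ℝ)) A n z = 1 := by
  induction n with
  | zero => intro A z; rfl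
  | succ n ih =>
    intro A z
    show (∫ w, Qr sr s (fun _ => (1 : ℝ)) (fun j => A (j + 1)) n (sr (A 0 + s * w.re) z) ∂dl) = 1
    simp only [ih]
    rw [integral_const, probReal_univ, one_smul]

/-! ### chains -/

private theorem ch_orb56 (g : TT → ℝ) (n : ℕ) : ∀ (A : ℕ → ℂ) (z : TT),
    ch (fun a z => sr a.re z) (fun _ _ => 1) (fun z => ENNReal.ofReal (g z)) A n z =
      ENNReal.ofReal (g (orb (fun j => (((A j).re : ℝ) : ℂ)) z n)) := by
  induction n with
  | zero => intro A z; rfl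
  | succ n ih =>
    intro A z
    show 1 * ch (fun a z => sr a.re z) (fun _ _ => 1) (fun z => ENNReal.ofReal (g z)) (fun j => A (j + 1)) n
      (sr (A 0).re z) = _
    rw [one_mul, ih, orb_one_add, Pool.Agent.Helper82.QR.sr_eq]

private theorem ach_Qr56 {g : TT → ℝ} (hg : BM g) (h0 : ∀ x, 0 ≤ g x) (s : ℝ) (n : ℕ) :
    ∀ (A : ℕ → ℂ) (z : TT),
    ach (fun a z => sr a.re z) (fun _ _ => 1) (fun z => ENNReal.ofReal (g z)) s A n z =
      ENNReal.ofReal (Qr sr s g (fun j => (A j).re) n z) := by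
  induction n with
  | zero => intro A z; rfl
  | succ n ih =>
    intro A z
    show (∫⁻ w, 1 * ach (fun a z => sr a.re z) (fun _ _ => 1) (fun z => ENNReal.ofReal (g z)) s
      (fun j => A (j + 1)) n (sr (A 0 + s * w).re z) ∂dl) =
        ENNReal.ofReal (∫ w, Qr sr s g (fun j => (A (j + 1)).re) n (sr ((A 0).re + s * w.re) z) ∂dl)
    simp only [one_mul, ih]
    rw [ofReal_integral_eq_lintegral_ofReal ((Qr_w56 hg s n _ z (A 0).re).int dl)
      (Filter.Eventually.of_forall fun w => Qr_nonneg56 h0 s n _ _)]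
    refine lintegral_congr fun w => ?_
    have e : (A 0 + s * w).re = (A 0).re + s * w.re := by
      rw [Complex.add_re, Complex.re_ofReal_mul]
    rw [e]

private theorem orb_BM56 (hD : D.Ok) {g : TT → ℝ} (hg : BM g) (θ : Td d) (z : TT) (n : ℕ) :
    BM fun ω : Om d => g (orb (Ar D ω θ) z n) :=
  hg.comp ((orb_meas n).comp ((Ar_meas'56 hD θ).prodMk measurable_const))

private theorem Qr_BM56 (hD : D.Ok) {g : TT → ℝ} (hg : BM g) (l : ℕ) (θ : Td d) (z : TT) (n : ℕ) :
    BM fun ω : Om d => Qr sr (D.s l) g (arm D l ω θ) n z :=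
  (Pool.Agent.Helper82.QR.Qr_BM sr_meas56 hg (D.s l) n).comp ((arm_meas'56 hD l θ).prodMk measurable_const)

private theorem Qr_sub56 {g : TT → ℝ} (hg : BM g) (s c : ℝ) (n : ℕ) (A : ℕ → ℝ) (z : TT) :
    Qr sr s (fun x => g x - c) A n z = Qr sr s g A n z - c := by
  have h := Qr_add56 hg s (-c) n A z
  simpa only [← sub_eq_add_neg] using h

private theorem sq_int56 {X : Type*} [MeasurableSpace X] (μ : Measure X) [IsProbabilityMeasure μ] {h : X → ℝ}
    (hh : BM h) : (∫ x, h x ∂μ) ^ 2 ≤ ∫ x, h x ^ 2 ∂μ := by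
  set m := ∫ x, h x ∂μ with hm
  have h0 : 0 ≤ ∫ x, (h x - m) ^ 2 ∂μ := integral_nonneg fun x => sq_nonneg _
  have e : ∀ x, (h x - m) ^ 2 = h x ^ 2 - 2 * m * h x + m ^ 2 := fun x => by ring
  simp only [e] at h0
  have j1 : Integrable (fun x => h x ^ 2 - 2 * m * h x) μ := (hh.sq.int μ).sub ((hh.int μ).const_mul _)
  rw [integral_add j1 (integrable_const _), integral_sub (hh.sq.int μ) ((hh.int μ).const_mul _),
    integral_const_mul, integral_const, probReal_univ, one_smul, ← hm] at h0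
  nlinarith

/-- one factor -/
private theorem fac56 {K₀ η : ℝ} (hη1 : η ≤ 1) (hgap : GapT K₀ η) {s : ℝ} (hs : 0 < s) (hs1 : s ≤ 1) {f ψ : TT → ℝ} (hf : BM f) (hψ : BM ψ) {K K' : ℝ}
    (hK : ∀ z, |f z| ≤ K) (hK' : ∀ z, |ψ z| ≤ K') (h0 : ∫ z, ψ z = 0) (A : ℕ → ℝ) (hA : ∀ j, |A j| ≤ K₀) (n : ℕ) :
    (∫ z, Qr sr s f A n z * ψ z) ^ 2 ≤ K ^ 2 * K' ^ 2 * (1 - η * s ^ 2) ^ (n / 3) := by
  set m := ∫ z, f z with hm
  have hρ : 0 ≤ 1 - η * s ^ 2 := by
    have h1 : s ^ 2 ≤ 1 := pow_le_one₀ hs.le hs1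
    nlinarith [sq_nonneg s]
  have hfm : BM fun z => f z - m := hf.sub (BM.const m)
  have hz : Measurable fun z : TT => ((A, z) : (ℕ → ℝ) × TT) := measurable_const.prodMk measurable_id
  have hQ : BM fun z => Qr sr s f A n z := (Pool.Agent.Helper82.QR.Qr_BM sr_meas56 hf s n).comp hz
  have hQm : BM fun z => Qr sr s (fun z => f z - m) A n z := (Pool.Agent.Helper82.QR.Qr_BM sr_meas56 hfm s n).comp hz
  have hint0 : ∫ z, (f z - m) = 0 := by
    rw [integral_sub (hf.int _) (integrable_const _), integral_const, probReal_univ, one_smul, ← hm, sub_self]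
  have e1 : ∫ z, Qr sr s f A n z * ψ z = ∫ z, Qr sr s (fun z => f z - m) A n z * ψ z := by
    have e2 : ∀ z, Qr sr s (fun z => f z - m) A n z * ψ z = Qr sr s f A n z * ψ z - m * ψ z := by
      intro z
      rw [Qr_sub56 hf]
      ring
    simp only [e2]
    rw [integral_sub ((hQ.mul hψ).int _) ((hψ.int _).const_mul m), integral_const_mul, h0, mul_zero, sub_zero]
  rw [e1]
  refine (sq_int56 volume (hQm.mul hψ)).trans ?_
  have h1 : ∫ z, (Qr sr s (fun z => f z - m) A n z * ψ z) ^ 2 ≤ ∫ z, K' ^ 2 * Qr sr s (fun z => f z - m) A n z ^ 2 := by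
    refine integral_mono ((hQm.mul hψ).sq.int _) ((hQm.sq.int _).const_mul _) fun z => ?_
    show (Qr sr s (fun z => f z - m) A n z * ψ z) ^ 2 ≤ K' ^ 2 * Qr sr s (fun z => f z - m) A n z ^ 2
    rw [mul_pow, mul_comm]
    refine mul_le_mul_of_nonneg_right ?_ (sq_nonneg _)
    rw [← sq_abs (ψ z)]
    exact pow_le_pow_left₀ (abs_nonneg _) (hK' z) 2
  rw [integral_const_mul] at h1
  have h2 := hgap _ s A n hfm hint0 hs hs1 hA
  have h3 : ∫ z, (f z - m) ^ 2 ≤ K ^ 2 := by
    have e : ∀ z, (f z - m) ^ 2 = f z ^ 2 - 2 * m * f z + m ^ 2 := fun z => by ring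
    simp only [e]
    have j1 : Integrable (fun z => f z ^ 2 - 2 * m * f z) (volume : Measure TT) :=
      (hf.sq.int _).sub ((hf.int _).const_mul _)
    rw [integral_add j1 (integrable_const _), integral_sub (hf.sq.int _) ((hf.int _).const_mul _),
      integral_const_mul, integral_const, probReal_univ, one_smul, ← hm]
    have h4 : ∫ z, f z ^ 2 ≤ K ^ 2 := by
      calc ∫ z, f z ^ 2 ≤ ∫ _z : TT, K ^ 2 := by
            refine integral_mono (hf.sq.int _) (integrable_const _) fun z => ?_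
            show f z ^ 2 ≤ K ^ 2
            rw [← sq_abs (f z)]
            exact pow_le_pow_left₀ (abs_nonneg _) (hK z) 2
        _ = K ^ 2 := by rw [integral_const, probReal_univ, one_smul]
    nlinarith [sq_nonneg m]
  calc ∫ z, (Qr sr s (fun z => f z - m) A n z * ψ z) ^ 2
      ≤ K' ^ 2 * ∫ z, Qr sr s (fun z => f z - m) A n z ^ 2 := h1
    _ ≤ K' ^ 2 * ((1 - η * s ^ 2) ^ (n / 3) * K ^ 2) :=
        mul_le_mul_of_nonneg_left (h2.trans (mul_le_mul_of_nonneg_left h3 (pow_nonneg hρ _))) (sq_nonneg _)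
    _ = _ := by ring

private theorem arm_le56 {K₀ : ℝ} (hK₀ : ∀ l ω θ, ‖D.Am l ω θ‖ ≤ K₀) (l : ℕ) (ω : Om d) (θ : Td d) (j : ℕ) :
    |arm D l ω θ j| ≤ K₀ :=
  (Complex.abs_re_le_norm _).trans (hK₀ l ω _)

/-- one orbit: the noise of the level `l` is averaged out -/
private theorem annQ_pos56 (hD : D.Ok) {l n : ℕ} {W : Measure (Om d)} (hW : Rs l W) (hi : D.iso l n) (θ : Td d)
    {g : TT → ℝ} (hg : BM g) (h0 : ∀ x, 0 ≤ g x) (z : TT) :
    ∫ ω, g (orb (Ar D ω θ) z n) ∂W = ∫ ω, Qr sr (D.s l) g (arm D l ω θ) n z ∂W := by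
  rw [integral_eq_lintegral_of_nonneg_ae (Filter.Eventually.of_forall fun ω => h0 _)
      (orb_BM56 hD hg θ z n).1.aestronglyMeasurable,
    integral_eq_lintegral_of_nonneg_ae (Filter.Eventually.of_forall fun ω => Qr_nonneg56 h0 _ _ _ _)
      (Qr_BM56 hD hg l θ z n).1.aestronglyMeasurable]
  congr 1
  have hst : Measurable fun p : ℂ × TT => (fun a z => sr a.re z : ℂ → TT → TT) p.1 p.2 :=
    sr_meas56.comp ((Complex.measurable_re.comp measurable_fst).prodMk measurable_snd)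
  have h1 := annW hD (st := fun a z => sr a.re z) hst (kk := fun _ _ => 1) measurable_const
    (φ := fun z => ENNReal.ofReal (g z)) (ENNReal.measurable_ofReal.comp hg.1) hW hi θ
    (ζ := fun _ => z) measurable_const (H := fun _ => 1) measurable_const (fun _ _ _ _ => rfl)
    (fun _ _ _ _ => rfl)
  simp only [ch_orb56, ach_Qr56 hg h0, mul_one] at h1
  exact h1

private theorem annQ56 (hD : D.Ok) {l n : ℕ} {W : Measure (Om d)} (hW : Rs l W) (hi : D.iso l n) (θ : Td d)
    {g : TT → ℝ} (hg : BM g) (z : TT) :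
    ∫ ω, g (orb (Ar D ω θ) z n) ∂W = ∫ ω, Qr sr (D.s l) g (arm D l ω θ) n z ∂W := by
  have hp := hW.prob
  obtain ⟨hgm, K, hK⟩ := id hg
  have hg' : BM fun x => g x + K := hg.add (BM.const K)
  have g0 : ∀ x, 0 ≤ g x + K := fun x => by linarith [(abs_le.1 (hK x)).1]
  have E1 := annQ_pos56 hD hW hi θ hg' g0 z
  simp only [Qr_add56 hg] at E1
  rw [integral_add ((orb_BM56 hD hg θ z n).int _) (integrable_const _),
    integral_add ((Qr_BM56 hD hg l θ z n).int _) (integrable_const _)] at E1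
  linarith

end cor

theorem corW {d : ℕ} {D : Dat d} (hD : D.Ok) {K₀ η : ℝ} (hK₀ : ∀ l ω θ, ‖D.Am l ω θ‖ ≤ K₀) (hη : 0 < η) (hη1 : η ≤ 1)
    (hgap : GapT K₀ η) {l n : ℕ} {W : Measure (Om d)} (hW : Rs l W) (hi : D.iso l n) (hs : D.s l ≤ 1) {g ψ : TT → ℝ}
    (hg : Measurable g) (hψ : Measurable ψ) {K K' : ℝ} (hK : ∀ z, |g z| ≤ K) (hK' : ∀ z, |ψ z| ≤ K')
    (h0 : ∫ z, ψ z = 0) (θ : Td d) :
    |∫ ω, (∫ z, g (orb (Ar D ω θ) z n) * ψ z) ∂W| ≤ K * K' * √((1 - η * D.s l ^ 2) ^ (n / 3)) := by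
  have hp := hW.prob
  have hN : (0 : ℝ) < NN l := by exact_mod_cast Pool.Agent.Helper18.FD.NN_pos l
  have hs0 : 0 < D.s l := mul_pos hD.hq (Real.rpow_pos_of_pos hN _)
  set ρ : ℝ := (1 - η * D.s l ^ 2) ^ (n / 3) with hρdef
  have hρ : 0 ≤ ρ := by
    have h1 : D.s l ^ 2 ≤ 1 := pow_le_one₀ hs0.le hs
    exact pow_nonneg (by nlinarith [sq_nonneg (D.s l)]) _
  have hgB : BM g := ⟨hg, K, hK⟩
  have hψB : BM ψ := ⟨hψ, K', hK'⟩
  have hK0 : 0 ≤ K := (abs_nonneg _).trans (hK 0)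
  have hK0' : 0 ≤ K' := (abs_nonneg _).trans (hK' 0)
  have hAs : Measurable fun p : Om d × TT => ((Ar D p.1 θ, p.2) : (ℕ → ℂ) × TT) :=
    ((Ar_meas56 hD).comp (measurable_fst.prodMk measurable_const)).prodMk measurable_snd
  have hAms : Measurable fun p : Om d × TT => ((arm D l p.1 θ, p.2) : (ℕ → ℝ) × TT) := by
    have h := (arm_meas56 hD l).comp (show Measurable fun p : Om d × TT => ((p.1, θ) : Om d × Td d) from
      measurable_fst.prodMk measurable_const)
    simp only [Function.comp_def] at h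
    exact h.prodMk measurable_snd
  have hu : BM fun p : Om d × TT => g (orb (Ar D p.1 θ) p.2 n) * ψ p.2 :=
    (hgB.comp ((orb_meas n).comp hAs)).mul (hψB.comp measurable_snd)
  have hv : BM fun p : Om d × TT => Qr sr (D.s l) g (arm D l p.1 θ) n p.2 * ψ p.2 :=
    ((Pool.Agent.Helper82.QR.Qr_BM sr_meas56 hgB (D.s l) n).comp hAms).mul (hψB.comp measurable_snd)
  have e1 : ∫ ω, (∫ z, g (orb (Ar D ω θ) z n) * ψ z) ∂W =
      ∫ ω, (∫ z, Qr sr (D.s l) g (arm D l ω θ) n z * ψ z) ∂W := by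
    rw [integral_integral_swap (f := fun (ω : Om d) (z : TT) => g (orb (Ar D ω θ) z n) * ψ z) (hu.int _),
      integral_integral_swap (f := fun (ω : Om d) (z : TT) => Qr sr (D.s l) g (arm D l ω θ) n z * ψ z)
        (hv.int _)]
    refine integral_congr_ae (Filter.Eventually.of_forall fun z => ?_)
    simp only
    rw [integral_mul_const, integral_mul_const, annQ56 hD hW hi θ hgB z]
  rw [e1]
  have h1 : ∀ ω, |∫ z, Qr sr (D.s l) g (arm D l ω θ) n z * ψ z| ≤ K * K' * √ρ := by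
    intro ω
    have h2 := fac56 hη1 hgap hs0 hs hgB hψB hK hK' h0 (arm D l ω θ) (arm_le56 hK₀ l ω θ) n
    refine Real.abs_le_sqrt h2 |>.trans (le_of_eq ?_)
    rw [← hρdef, show K ^ 2 * K' ^ 2 * ρ = (K * K') ^ 2 * ρ by ring, Real.sqrt_mul (sq_nonneg _),
      Real.sqrt_sq (mul_nonneg hK0 hK0')]
  have h3 := norm_integral_le_of_norm_le_const (μ := W)
    (f := fun ω => ∫ z, Qr sr (D.s l) g (arm D l ω θ) n z * ψ z) (C := K * K' * √ρ)
    (Filter.Eventually.of_forall fun ω => by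
      rw [Real.norm_eq_abs]
      exact h1 ω)
  simpa using h3

end Pool.Agent.Helper46.QA
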