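import Pool.Agent.Helper46.QR.Defs

/-! Project QA (MP_9ee088_an): all parameters at once for project QR. Laws for which the noise of one level can be resampled.

`wl_rs`: `Function.update (mix ω) (l, c) w = mix (Function.update ω (l, c) w)`, `mix ω i = if i.1 = l then ω i else η i`, and `res_mp` (`QP/Res.lean`). `wl_dis`: the map `(ω, η) ↦ mix` preserves `law × law → law`: both sides are product measures (compare `infinitePi`: `MeasureTheory.Measure.eq_infinitePi` on cylinders, or
resampling coordinate by coordinate). `wl_le` from `wl_dis` with the indicator. -/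

set_option autoImplicit false
open MeasureTheory Real Set
open scoped ENNReal

namespace Pool.Agent.Helper46.QA

open Pool.Agent.Helper46.QP Pool.Agent.Helper46.QR

variable {d : ℕ}

/-- the coordinates of level `l` can be resampled under the law `W` -/
structure Rs (l : ℕ) (W : Measure (Om d)) : Prop where
  prob : IsProbabilityMeasure W
  res : ∀ c : Fin d → ℕ, MeasurePreserving (fun p : Om d × ℂ => Function.update p.1 (l, c) p.2) (W.prod dl) W

/-- replaces the coordinates outside of level `l` -/
def mix (l : ℕ) (η ω : Om d) : Om d := fun i => if i.1 = l then ω i else η i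

/-- the law with all coordinates outside of level `l` frozen -/
noncomputable def wl (l : ℕ) (η : Om d) : Measure (Om d) := (law d).map (mix l η)

theorem mix_meas (l : ℕ) : Measurable fun p : Om d × Om d => mix l p.1 p.2 := by
  rw [measurable_pi_iff]
  intro i
  by_cases hi : i.1 = l
  · simp only [mix, if_pos hi]
    exact (measurable_pi_apply i).comp measurable_snd
  · simp only [mix, if_neg hi]
    exact (measurable_pi_apply i).comp measurable_fst

private lemma mixl_meas54 (l : ℕ) (η : Om d) : Measurable (mix l η) :=
  (mix_meas l).comp (measurable_const.prodMk measurable_id)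

/-- the mixture of two independent noises is a noise -/
private lemma mix_mp54 (l : ℕ) :
    MeasurePreserving (fun p : Om d × Om d => mix l p.1 p.2) ((law d).prod (law d)) (law d) := by
  refine ⟨mix_meas l, ?_⟩
  conv_rhs => unfold law
  apply Measure.eq_infinitePi
  intro s t ht
  rw [Measure.map_apply (mix_meas l) (MeasurableSet.pi (Finset.countable_toSet _) fun j _ => ht j)]
  have e : (fun p : Om d × Om d => mix l p.1 p.2) ⁻¹' (Set.pi (s : Set (Ix d)) t) =
      Set.pi ((s.filter fun i => ¬ i.1 = l : Finset (Ix d)) : Set (Ix d)) t ×ˢ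
        Set.pi ((s.filter fun i => i.1 = l : Finset (Ix d)) : Set (Ix d)) t := by
    ext ⟨η, ω⟩
    simp only [Set.mem_preimage, Set.mem_pi, Finset.mem_coe, Set.mem_prod, Finset.mem_filter]
    constructor
    · intro h
      refine ⟨fun j hj => ?_, fun j hj => ?_⟩
      · have h1 := h j hj.1
        simpa only [mix, if_neg hj.2] using h1
      · have h1 := h j hj.1
        simpa only [mix, if_pos hj.2] using h1
    · rintro ⟨h1, h2⟩ j hj
      by_cases hji : j.1 = l
      · simpa only [mix, if_pos hji] using h2 j ⟨hj, hji⟩
      · simpa only [mix, if_neg hji] using h1 j ⟨hj, hji⟩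
  rw [e, Measure.prod_prod]
  unfold law
  rw [Measure.infinitePi_pi _ (fun j _ => ht j), Measure.infinitePi_pi _ (fun j _ => ht j), mul_comm]
  exact Finset.prod_filter_mul_prod_filter_not s (fun i => i.1 = l) (fun j => dl (t j))

theorem wl_rs (l : ℕ) (η : Om d) : Rs l (wl l η) := by
  refine ⟨?_, fun c => ?_⟩
  · unfold wl
    exact Measure.isProbabilityMeasure_map (mixl_meas54 l η).aemeasurable
  · have hu : Measurable fun q : Om d × ℂ => Function.update q.1 (l, c) q.2 := (res_mp (l, c)).measurable
    have hm := mixl_meas54 l η
    refine ⟨hu, ?_⟩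
    have h1 : (wl l η).prod dl = ((law d).prod dl).map (Prod.map (mix l η) id) := by
      unfold wl
      have h2 := Measure.map_prod_map (law d) dl hm measurable_id
      rw [Measure.map_id] at h2
      exact h2
    have h3 : (fun q : Om d × ℂ => Function.update q.1 (l, c) q.2) ∘ (Prod.map (mix l η) id) =
        mix l η ∘ fun q : Om d × ℂ => Function.update q.1 (l, c) q.2 := by
      funext q
      funext i
      simp only [Function.comp_apply, Prod.map_fst, Prod.map_snd, id_eq, mix]
      by_cases hi : i = (l, c)
      · subst hi
        simp only [Function.update_self, if_true]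
      · simp only [Function.update_of_ne hi]
        rfl
    rw [h1, Measure.map_map hu (hm.prodMap measurable_id), h3, ← Measure.map_map hm hu, (res_mp (l, c)).map_eq]
    rfl

theorem wl_dis (l : ℕ) {F : Om d → ℝ≥0∞} (hF : Measurable F) :
    ∫⁻ ω, F ω ∂law d = ∫⁻ η, (∫⁻ ω, F ω ∂wl l η) ∂law d := by
  have h1 := lintegral_prod (μ := law d) (ν := law d) (fun p : Om d × Om d => F (mix l p.1 p.2))
    (hF.comp (mix_meas l)).aemeasurable
  rw [← (mix_mp54 l).lintegral_comp hF, h1]
  refine lintegral_congr fun η => ?_
  unfold wl
  rw [lintegral_map hF (mixl_meas54 l η)]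

theorem wl_le (l : ℕ) {S : Set (Om d)} (hS : MeasurableSet S) {c : ℝ≥0∞} (h : ∀ η, wl l η S ≤ c) : law d S ≤ c := by
  have h1 := wl_dis l (F := S.indicator 1) (measurable_one.indicator hS)
  rw [lintegral_indicator_one hS] at h1
  rw [h1]
  calc ∫⁻ η, (∫⁻ ω, S.indicator 1 ω ∂wl l η) ∂law d ≤ ∫⁻ _η, c ∂law d := by
        refine lintegral_mono fun η => ?_
        rw [lintegral_indicator_one hS]
        exact h η
    _ = c := by rw [lintegral_const, measure_univ, mul_one]

end Pool.Agent.Helper46.QA
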